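import Pool.Agent.Lib.AB79.Defs

/-! Approximate and exact points at a given fraction. -/

set_option autoImplicit false

namespace Pool.Agent.Lib.AB79

open Real Metric

namespace T18

theorem ap_k {X : Type} [MetricSpace X] (h : AMid X) (k : ℕ) : ∀ x a : X, ∀ τ η : ℝ, 0 ≤ τ →
    τ ≤ 1 → 0 < η → ∃ q : X, dist x q ≤ τ * dist x a + (1 / 2) ^ k * dist x a + η ∧
      dist q a ≤ (1 - τ) * dist x a + (1 / 2) ^ k * dist x a + η := by
  induction k with
  | zero =>
    intro x a τ η h0 h1 h2
    have d0 : 0 ≤ dist x a := dist_nonneg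
    refine ⟨x, ?_, ?_⟩
    · rw [dist_self]
      positivity
    · have := mul_nonneg (sub_nonneg.2 h1) d0
      rw [pow_zero]
      linarith
  | succ k ih =>
    intro x a τ η h0 h1 h2
    obtain ⟨z, z1, z2⟩ := h x a (η / 6) (by positivity)
    have p0 : (0 : ℝ) ≤ (1 / 2) ^ k := by positivity
    have p1 : ((1 : ℝ) / 2) ^ k ≤ 1 := pow_le_one₀ (by norm_num) (by norm_num)
    have p2 := mul_le_mul_of_nonneg_right p1 h2.le
    rw [pow_succ]
    rcases le_total τ (1 / 2) with ht | ht
    · obtain ⟨q, q1, q2⟩ := ih x z (2 * τ) (η / 2) (by linarith) (by linarith) (by positivity)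
      have a1 := mul_le_mul_of_nonneg_left z1 p0
      have a2 := mul_le_mul_of_nonneg_left z1 h0
      have a3 := mul_le_mul_of_nonneg_left z1 (show 0 ≤ 1 - 2 * τ by linarith)
      have a4 := mul_le_mul_of_nonneg_right ht h2.le
      have a5 := mul_nonneg h0 h2.le
      exact ⟨q, by linarith, by linarith [dist_triangle q z a]⟩
    · obtain ⟨q, q1, q2⟩ := ih z a (2 * τ - 1) (η / 2) (by linarith) (by linarith) (by positivity)
      have a1 := mul_le_mul_of_nonneg_left z2 p0
      have a2 := mul_le_mul_of_nonneg_left z2 (show 0 ≤ 2 * τ - 1 by linarith)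
      have a3 := mul_le_mul_of_nonneg_left z2 (sub_nonneg.2 h1)
      have a4 := mul_le_mul_of_nonneg_right ht h2.le
      have a5 := mul_le_mul_of_nonneg_right h1 h2.le
      exact ⟨q, by linarith [dist_triangle x z q], by linarith⟩

theorem tb {X : Type} [MetricSpace X] {n : ℕ} (h : PackB X n) (x : X) {b : ℝ} (hb : 0 < b) :
    TotallyBounded (closedBall x b) := by
  classical
  refine totallyBounded_iff.2 fun ε hε => ?_
  by_contra hn
  have key : ∀ N : ℕ, ∃ P : Finset X, P.card = N ∧ (∀ a ∈ P, dist x a ≤ b) ∧ Sep (min ε b) P := by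
    intro N
    induction N with
    | zero => exact ⟨∅, rfl, by simp, by simp [Sep]⟩
    | succ N ih =>
      obtain ⟨P, h1, h2, h3⟩ := ih
      obtain ⟨y, hy, hy'⟩ := Set.not_subset.1 fun hs => hn ⟨(P : Set X), P.finite_toSet, hs⟩
      have h4 : ∀ a ∈ P, ε ≤ dist y a := fun a ha => not_lt.1 fun hl =>
        hy' (Set.mem_biUnion (Finset.mem_coe.2 ha) hl)
      have h5 : y ∉ P := fun hp => by
        have := h4 y hp
        rw [dist_self] at this
        exact absurd hε (not_lt.2 this)
      refine ⟨insert y P, by rw [Finset.card_insert_of_notMem h5, h1], fun a ha => ?_,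
        fun a ha a' ha' hne => ?_⟩
      · rcases Finset.mem_insert.1 ha with rfl | ha
        · exact mem_closedBall'.1 hy
        · exact h2 a ha
      · rcases Finset.mem_insert.1 ha with e | h6 <;> rcases Finset.mem_insert.1 ha' with e' | h7
        · exact absurd (e.trans e'.symm) hne
        · exact e ▸ (min_le_left _ _).trans (h4 _ h7)
        · exact e' ▸ (min_le_left _ _).trans ((h4 _ h6).trans_eq (dist_comm _ _))
        · exact h3 a h6 a' h7 hne
  obtain ⟨N, hN⟩ := exists_nat_gt ((32 * sinh (3 * b) / min ε b) ^ n)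
  obtain ⟨P, h1, h2, h3⟩ := key N
  have := h x b _ (lt_min hε hb) (min_le_right _ _) P h2 h3
  rw [h1] at this
  exact absurd hN (not_lt.2 this)

end T18

theorem st_AP : St_AP := by
  intro X _ h x a τ η h0 h1 h2
  have d0 : 0 ≤ dist x a := dist_nonneg
  obtain ⟨k, hk⟩ := exists_pow_lt_of_lt_one (show 0 < η / 2 / (dist x a + 1) by positivity)
    (show (1 : ℝ) / 2 < 1 by norm_num)
  rw [lt_div_iff₀ (by positivity), mul_add, mul_one] at hk
  have p0 : (0 : ℝ) ≤ (1 / 2) ^ k := by positivity
  obtain ⟨q, q1, q2⟩ := T18.ap_k h k x a τ (η / 2) h0 h1 (by positivity)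
  exact ⟨q, by linarith, by linarith⟩

theorem st_GEO : St_GEO := by
  intro X _ _ n h hp x a τ h0 h1
  have d0 : 0 ≤ dist x a := dist_nonneg
  have b0 : 0 < dist x a + 1 := by positivity
  have hc : IsCompact (closedBall x (dist x a + 1)) :=
    (T18.tb hp x b0).isCompact_of_isClosed isClosed_closedBall
  obtain ⟨q, -, hq⟩ := hc.exists_isMinOn (nonempty_closedBall.2 b0.le)
    (f := fun q => max (dist x q - τ * dist x a) (dist q a - (1 - τ) * dist x a)) (by fun_prop)
  have h2 : max (dist x q - τ * dist x a) (dist q a - (1 - τ) * dist x a) ≤ 0 := by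
    refine le_of_forall_pos_le_add fun η hη => ?_
    obtain ⟨y, y1, y2⟩ := h x a τ (min η 1) h0 h1 (lt_min hη one_pos)
    have a1 := mul_le_mul_of_nonneg_right h1 d0
    have a2 := min_le_left η 1
    have a3 := min_le_right η 1
    exact (hq (mem_closedBall'.2 (by linarith))).trans (max_le (by linarith) (by linarith))
  obtain ⟨h3, h4⟩ := max_le_iff.1 h2
  have h5 := dist_triangle x q a
  exact ⟨q, by linarith, by linarith⟩

end Pool.Agent.Lib.AB79
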