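import Pool.Agent.Lib.AB79.Defs

set_option autoImplicit false

namespace Pool.Agent.Lib.AB79

open Real

namespace CA12

theorem sinh_mul_le {u x : ℝ} (h0 : 0 ≤ u) (h1 : u ≤ 1) (hx : 0 ≤ x) :
    sinh (u * x) ≤ u * sinh x := by
  have hd : ∀ y, HasDerivAt (fun y => u * sinh y - sinh (u * y))
      (u * cosh y - cosh (u * y) * (u * 1)) y := fun y =>
    ((hasDerivAt_sinh y).const_mul u).sub ((hasDerivAt_id' y).const_mul u).sinh
  have hm : Monotone fun y => u * sinh y - sinh (u * y) :=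
    monotone_of_deriv_nonneg (fun y => (hd y).differentiableAt) fun y => by
      have h : cosh (u * y) ≤ cosh y := cosh_le_cosh.2 (by
        rw [abs_mul, abs_of_nonneg h0]
        exact mul_le_of_le_one_left (abs_nonneg y) h1)
      rw [(hd y).deriv]
      nlinarith
  simpa using hm hx

theorem lam_le {b τ v : ℝ} (hb : 0 < b) (hτ : 0 ≤ τ) (hv : 0 ≤ v) (hvb : v ≤ b) :
    τ * b / sinh b * sinh v ≤ sinh (τ * v) := by
  have hs : 0 < sinh b := sinh_pos_iff.2 hb
  have h1 := sinh_mul_le (div_nonneg hv hb.le) ((div_le_one hb).2 hvb) hb.le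
  rw [div_mul_cancel₀ _ hb.ne', div_mul_eq_mul_div, le_div_iff₀ hb] at h1
  refine le_trans ?_ (self_le_sinh_iff.2 (mul_nonneg hτ hv))
  rw [div_mul_eq_mul_div, div_le_iff₀ hs]
  nlinarith

theorem cosh_half (v : ℝ) : cosh v = 1 + 2 * sinh (v / 2) ^ 2 := by
  have h := cosh_two_mul (v / 2)
  rw [mul_div_cancel₀ v two_ne_zero, cosh_sq] at h
  linarith

end CA12

open CA12 in
theorem st_CA : St_CA := by
  intro L L' b τ D e₁ e hL hL' hLb hLb' hb h0 h1 hD hD' he hA hB
  have hs : 0 < sinh b := sinh_pos_iff.2 hb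
  have hbs : b ≤ sinh b := self_le_sinh_iff.2 hb.le
  have hD0 : 0 ≤ D := (abs_nonneg _).trans hD
  have he0 : 0 ≤ e := (mul_nonneg h0 (abs_nonneg _)).trans he
  have easy : D ≤ |L - L'| → τ * D * b ≤ e * sinh b := fun h =>
    mul_le_mul ((mul_le_mul_of_nonneg_left h h0).trans he) hbs hb.le he0
  rcases hL.eq_or_lt with rfl | hL0
  · exact easy (by rw [zero_sub, abs_neg, abs_of_nonneg hL']; linarith)
  rcases hL'.eq_or_lt with rfl | hL0'
  · exact easy (by rw [sub_zero, abs_of_nonneg hL]; linarith)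
  have hsL : 0 < sinh L := sinh_pos_iff.2 hL0
  have hsL' : 0 < sinh L' := sinh_pos_iff.2 hL0'
  have htL : 0 ≤ sinh (τ * L) := sinh_nonneg_iff.2 (mul_nonneg h0 hL)
  have htL' : 0 ≤ sinh (τ * L') := sinh_nonneg_iff.2 (mul_nonneg h0 hL')
  obtain ⟨C, hC⟩ : ∃ C, cosh D = cosh L * cosh L' - sinh L * sinh L' * C :=
    ⟨(cosh L * cosh L' - cosh D) / (sinh L * sinh L'), by field_simp; ring⟩
  have hC1 : 0 ≤ 1 - C := by
    have h : cosh (L - L') ≤ cosh D := cosh_le_cosh.2 (hD.trans (le_abs_self D))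
    rw [cosh_sub, hC] at h
    exact nonneg_of_mul_nonneg_right (show 0 ≤ sinh L * sinh L' * (1 - C) by linarith)
      (mul_pos hsL hsL')
  rw [sub_mul, one_mul, sinh_sub] at hA hB
  have h2 : cosh (τ * L) * cosh L' - sinh (τ * L) * sinh L' * C ≤ cosh e₁ :=
    le_of_mul_le_mul_right (by rw [hC] at hA; linarith) hsL
  have h3 : cosh (τ * L) * cosh (τ * L') - sinh (τ * L) * sinh (τ * L') * C ≤ cosh e :=
    le_of_mul_le_mul_right (by linarith [mul_le_mul_of_nonneg_left h2 htL']) hsL'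
  have hl0 : 0 ≤ τ * b / sinh b := by positivity
  have hl1 : τ * b / sinh b ≤ 1 := (div_le_one hs).2 (by nlinarith)
  have a1 := lam_le hb h0 hL hLb
  have a2 := lam_le hb h0 hL' hLb'
  have a3 := lam_le hb h0 (v := |L - L'| / 2) (by positivity)
    (by have : |L - L'| ≤ b := abs_sub_le_iff.2 ⟨by linarith, by linarith⟩
        linarith)
  have a4 := sinh_mul_le hl0 hl1 (x := D / 2) (by positivity)
  rw [← div_le_iff₀ hs, mul_right_comm, mul_div_right_comm]
  generalize τ * b / sinh b = m at hl0 hl1 a1 a2 a3 a4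
  have c1 : cosh (τ * L) * cosh (τ * L') - sinh (τ * L) * sinh (τ * L') =
      1 + 2 * sinh (τ * (|L - L'| / 2)) ^ 2 := by
    rw [← cosh_sub, ← mul_sub, ← cosh_abs, abs_mul, abs_of_nonneg h0, cosh_half, mul_div_assoc]
  have c2 : cosh L * cosh L' - sinh L * sinh L' = 1 + 2 * sinh (|L - L'| / 2) ^ 2 := by
    rw [← cosh_sub, ← cosh_abs, cosh_half]
  have b1 := mul_le_mul a1 a2 (mul_nonneg hl0 hsL'.le) htL
  have b2 := mul_le_mul_of_nonneg_right b1 hC1
  have b3 := pow_le_pow_left₀ (mul_nonneg hl0 (sinh_nonneg_iff.2 (by positivity))) a3 2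
  have b4 : (m * sinh (D / 2)) ^ 2 ≤ sinh (e / 2) ^ 2 := by
    have c3 := cosh_half D
    have c4 := cosh_half e
    have c5 : m ^ 2 * (2 * sinh (D / 2) ^ 2) =
        m ^ 2 * (2 * sinh (|L - L'| / 2) ^ 2 + sinh L * sinh L' * (1 - C)) := by
      congr 1
      linarith
    nlinarith
  have b5 := (abs_le_of_sq_le_sq' b4 (sinh_nonneg_iff.2 (by positivity))).2
  have b6 := sinh_le_sinh.1 (a4.trans b5)
  linarith

end Pool.Agent.Lib.AB79
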