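import Pool.Agent.Lib.AB79.Defs

/-! A Cantor set gives a lower bound for the Hausdorff dimension. -/

set_option autoImplicit false

namespace Pool.Agent.Lib.AB79

open Filter Topology

namespace T44

lemma cantor {X : Type} [MetricSpace X] [CompleteSpace X] {M : ℕ} (x : X) {b θ : ℝ}
    (hb : 0 < b) (hθ : 0 < θ) (hθ2 : θ ≤ 1 / 2)
    (h : ∀ z : X, dist x z ≤ 2 * b → ∀ ρ : ℝ, 0 < ρ → ρ ≤ b →
      ∃ c : Fin M → X, (∀ i, dist z (c i) ≤ ρ) ∧
        ∀ i j, i ≠ j → 8 * θ * ρ ≤ dist (c i) (c j)) :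
    ∃ F : (ℕ → Fin M) → X, ∀ w w', w ≠ w' →
      ∃ k : ℕ, (∀ i < k, w i = w' i) ∧ 4 * θ * b * θ ^ k ≤ dist (F w) (F w') := by
  have : Nonempty X := ⟨x⟩
  have hρ : ∀ k : ℕ, 0 < b * θ ^ k := fun k => by positivity
  have hρ' : ∀ k : ℕ, b * θ ^ k ≤ b := fun k =>
    mul_le_of_le_one_right hb.le (pow_le_one₀ hθ.le (by linarith))
  have h' : ∀ (z : X) (k : ℕ), dist x z ≤ 2 * b → ∃ c : Fin M → X,
      (∀ i, dist z (c i) ≤ b * θ ^ k) ∧
        ∀ i j, i ≠ j → 8 * θ * (b * θ ^ k) ≤ dist (c i) (c j) :=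
    fun z k hz => h z hz _ (hρ k) (hρ' k)
  choose! ch h1 h2 using h'
  let z : (ℕ → Fin M) → ℕ → X := fun w k => Nat.rec x (fun k p => ch p k (w k)) k
  have z1 : ∀ w k, z w (k + 1) = ch (z w k) k (w k) := fun _ _ => rfl
  have hz : ∀ w k, dist x (z w k) ≤ 2 * b - 2 * (b * θ ^ k) := by
    intro w k
    induction k with
    | zero => simp [z]
    | succ k ih =>
      have a1 := h1 (z w k) k (by linarith [hρ k]) (w k)
      have a2 := dist_triangle x (z w k) (z w (k + 1))
      rw [← z1] at a1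
      have a3 : b * θ ^ (k + 1) ≤ b * θ ^ k * (1 / 2) := by
        rw [pow_succ, ← mul_assoc]
        exact mul_le_mul_of_nonneg_left hθ2 (hρ k).le
      linarith
  have hz' : ∀ w k, dist x (z w k) ≤ 2 * b := fun w k => by linarith [hz w k, hρ k]
  have hst : ∀ w k, dist (z w k) (z w (k + 1)) ≤ b * θ ^ k := fun w k => h1 _ k (hz' w k) _
  have hlim : ∀ w, ∃ p, Tendsto (z w) atTop (𝓝 p) := fun w =>
    cauchySeq_tendsto_of_complete (cauchySeq_of_le_geometric θ b (by linarith) (hst w))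
  choose F hF using hlim
  have hd : ∀ w k, dist (z w k) (F w) ≤ 2 * (b * θ ^ k) := by
    intro w k
    refine (dist_le_of_le_geometric_of_tendsto θ b (by linarith) (hst w) (hF w) k).trans ?_
    rw [div_le_iff₀ (by linarith)]
    nlinarith [hρ k]
  have hag : ∀ w w' k, (∀ i < k, w i = w' i) → z w k = z w' k := by
    intro w w' k
    induction k with
    | zero => intro _; rfl
    | succ k ih =>
      intro hk
      rw [z1, z1, ih fun i hi => hk i (by omega), hk k (by omega)]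
  refine ⟨F, fun w w' hne => ?_⟩
  have hex : ∃ k, w k ≠ w' k := Function.ne_iff.1 hne
  classical
  have k1 := Nat.find_spec hex
  have k2 : ∀ i < Nat.find hex, w i = w' i := fun i hi => not_not.1 (Nat.find_min hex hi)
  refine ⟨Nat.find hex, k2, ?_⟩
  set k := Nat.find hex
  have a1 := h2 (z w k) k (hz' w k) _ _ k1
  have a2 : ch (z w k) k (w' k) = z w' (k + 1) := by rw [z1, hag w w' k k2]
  rw [a2, ← z1] at a1
  have a3 := hd w (k + 1)
  have a4 := hd w' (k + 1)
  have a5 := dist_triangle4 (z w (k + 1)) (F w) (F w') (z w' (k + 1))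
  rw [dist_comm (F w') (z w' (k + 1))] at a5
  rw [pow_succ] at a3 a4
  linarith

end T44

theorem st_CAN : St_CAN := by
  intro X _ _ n M x b β hdim hb hβ hβ4 h
  have h8 : (2 : ℝ) ≤ 8 / β := by rw [le_div_iff₀ hβ]; linarith
  rcases le_or_gt M 1 with hM | hM
  · have : (M : ℝ) ≤ 1 := by exact_mod_cast hM
    exact this.trans (one_le_pow₀ (by linarith))
  have hM1 : (1 : ℝ) < M := by exact_mod_cast hM
  have hθ : 0 < β / 8 := by positivity
  obtain ⟨F, hF⟩ := T44.cantor (M := M) x (θ := β / 8) hb hθ (by linarith)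
    fun z hz ρ r0 r1 => by
      obtain ⟨c, c1, c2⟩ := h z hz ρ r0 r1
      exact ⟨c, c1, fun i j hij => le_of_eq_of_le (by ring) (c2 i j hij)⟩
  have : Nonempty (ℕ → Fin M) := ⟨fun _ => ⟨0, by omega⟩⟩
  have hinj : Function.Injective F := by
    intro w w' e
    by_contra hne
    obtain ⟨k, -, hk⟩ := hF w w' hne
    rw [e, dist_self] at hk
    have : 0 < 4 * (β / 8) * b * (β / 8) ^ k := by positivity
    linarith
  have hl1 : 0 < Real.log (8 / β) := Real.log_pos (by linarith)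
  have hl2 : 0 < Real.log M := Real.log_pos hM1
  set s : ℝ := Real.log M / Real.log (8 / β) with hs
  have hs0 : 0 < s := by positivity
  have hpow : (β / 8) ^ s = (M : ℝ)⁻¹ := by
    have e : β / 8 = (8 / β)⁻¹ := by rw [inv_div]
    rw [e, Real.inv_rpow (by positivity), Real.rpow_def_of_pos (by positivity), hs,
      mul_div_cancel₀ _ hl1.ne', Real.exp_log (by linarith)]
  set c : ℝ := (4 * (β / 8) * b)⁻¹ with hc
  have hc0 : 0 < c := by positivity
  have hH : HolderOnWith (NNReal.mk (c ^ s) (by positivity)) (NNReal.mk s hs0.le)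
      (fun p => Real.ofDigits (Function.invFun F p)) (Set.range F) := by
    rintro _ ⟨w, rfl⟩ _ ⟨w', rfl⟩
    simp only [Function.leftInverse_invFun hinj w, Function.leftInverse_invFun hinj w']
    by_cases hne : w = w'
    · simp [hne]
    obtain ⟨k, k1, k2⟩ := hF w w' hne
    have a1 := Real.abs_ofDigits_sub_ofDigits_le k1
    have a2 : (β / 8) ^ k ≤ c * dist (F w) (F w') := by
      rw [hc, le_inv_mul_iff₀ (by positivity)]
      exact k2
    have a3 : ((M : ℝ) ^ k)⁻¹ ≤ c ^ s * dist (F w) (F w') ^ s := by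
      rw [← Real.mul_rpow hc0.le dist_nonneg, ← inv_pow, ← hpow, ← Real.rpow_natCast,
        ← Real.rpow_mul hθ.le, mul_comm s, Real.rpow_mul hθ.le, Real.rpow_natCast]
      exact Real.rpow_le_rpow (by positivity) a2 hs0.le
    rw [edist_dist, edist_dist, Real.dist_eq, NNReal.coe_mk,
      ENNReal.ofReal_rpow_of_nonneg dist_nonneg hs0.le, ← ENNReal.ofReal_coe_nnreal,
      ← ENNReal.ofReal_mul (NNReal.coe_nonneg _)]
    exact ENNReal.ofReal_le_ofReal (a1.trans a3)
  have hs1 : 0 < NNReal.mk s hs0.le := NNReal.coe_pos.1 hs0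
  have hD := hH.dimH_image_le hs1
  have hsub : Set.Icc (0 : ℝ) 1 ⊆
      (fun p => Real.ofDigits (Function.invFun F p)) '' Set.range F := by
    intro y hy
    obtain ⟨w, -, rfl⟩ := Real.ofDigits_SurjOn hM hy
    exact ⟨F w, ⟨w, rfl⟩, by simp only [Function.leftInverse_invFun hinj w]⟩
  have h1 : dimH (Set.Icc (0 : ℝ) 1) = 1 := by
    rw [Real.dimH_of_mem_nhds (x := 1 / 2) (Icc_mem_nhds (by norm_num) (by norm_num))]
    simp
  have h2 : (1 : ENNReal) ≤ (n : ENNReal) / ((NNReal.mk s hs0.le : NNReal) : ENNReal) := by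
    rw [← h1]
    refine (dimH_mono hsub).trans (hD.trans ?_)
    exact ENNReal.div_le_div_right ((dimH_mono (Set.subset_univ _)).trans hdim) _
  rw [ENNReal.le_div_iff_mul_le (Or.inl (ENNReal.coe_ne_zero.2 hs1.ne'))
    (Or.inl ENNReal.coe_ne_top), one_mul, ← ENNReal.coe_natCast, ENNReal.coe_le_coe,
    ← NNReal.coe_le_coe, NNReal.coe_mk, NNReal.coe_natCast, hs, div_le_iff₀ hl1,
    ← Real.log_pow] at h2
  exact (Real.log_le_log_iff (by linarith) (by positivity)).1 h2

end Pool.Agent.Lib.AB79
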