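import Pool.Agent.Lib.AB79.Defs

/-!
Contraction of packings toward one point and toward two points.
-/

set_option autoImplicit false

namespace Pool.Agent.Lib.AB79

open Real Finset

namespace T24

theorem ps_exact {X : Type} [MetricSpace X] (hPS : PS X) {x a z : X} (y : X) {τ : ℝ}
    (hz1 : dist x z = τ * dist x a) (hz2 : dist z a = (1 - τ) * dist x a) :
    sinh ((1 - τ) * dist x a) * cosh (dist x y) + sinh (τ * dist x a) * cosh (dist a y) ≤
      cosh (dist z y) * sinh (dist x a) := by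
  have h := hPS x a z y
  have e1 : dist z x = τ * dist x a := by rw [dist_comm, hz1]
  have e2 : dist z x + dist z a = dist x a := by rw [e1, hz2]; ring
  rw [e2, sub_self, mul_zero, Real.sqrt_zero, mul_zero, add_zero, e1, hz2] at h
  exact h

theorem sep_core (hCA : St_CA) {X : Type} [MetricSpace X] (hPS : PS X) {u a a' q q' : X}
    {b τ σ σ' : ℝ} (hb : 0 < b) (h0 : 0 < τ) (h1 : τ ≤ 1) (hσ : σ' * sinh b ≤ τ * σ * b)
    (ha : dist u a ≤ b) (ha' : dist u a' ≤ b) (hD : σ ≤ dist a a')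
    (hq1 : dist u q = τ * dist u a) (hq2 : dist q a = (1 - τ) * dist u a)
    (hq1' : dist u q' = τ * dist u a') (hq2' : dist q' a' = (1 - τ) * dist u a') :
    σ' ≤ dist q q' := by
  have p1 := ps_exact hPS a' hq1 hq2
  have p2 := ps_exact hPS q hq1' hq2'
  rw [hq1, dist_comm a' q, dist_comm q' q] at p2
  have t1 : |dist u a - dist u a'| ≤ dist a a' := by
    rw [dist_comm u a, dist_comm u a']; exact abs_dist_sub_le a a' u
  have t2 : dist a a' ≤ dist u a + dist u a' := dist_triangle_left a a' u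
  have t3 : τ * |dist u a - dist u a'| ≤ dist q q' := by
    have h := abs_dist_sub_le q q' u
    rw [dist_comm q u, dist_comm q' u, hq1, hq1', ← mul_sub, abs_mul, abs_of_pos h0] at h
    exact h
  have h := hCA (dist u a) (dist u a') b τ (dist a a') (dist q a') (dist q q') dist_nonneg
    dist_nonneg ha ha' hb h0.le h1 t1 t2 t3 p1 p2
  have hs : 0 < sinh b := sinh_pos_iff.2 hb
  have h2 : τ * σ * b ≤ τ * dist a a' * b := by gcongr
  exact le_of_mul_le_mul_right (hσ.trans (h2.trans h)) hs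

theorem cosh_tangent (u v : ℝ) : cosh u - cosh v ≤ sinh u * (u - v) := by
  have h1 : exp u * (1 + (v - u)) ≤ exp v := by
    have h := add_one_le_exp (v - u)
    have e : exp v = exp u * exp (v - u) := by rw [← exp_add]; ring_nf
    rw [e]
    exact mul_le_mul_of_nonneg_left (by linarith) (exp_pos u).le
  have h2 : exp (-u) * (1 + (u - v)) ≤ exp (-v) := by
    have h := add_one_le_exp (u - v)
    have e : exp (-v) = exp (-u) * exp (u - v) := by rw [← exp_add]; ring_nf
    rw [e]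
    exact mul_le_mul_of_nonneg_left (by linarith) (exp_pos (-u)).le
  rw [cosh_eq, cosh_eq, sinh_eq]
  nlinarith

theorem cosh_sub_le {u v s e : ℝ} (hu : 0 ≤ u) (hus : u ≤ s) (he : |u - v| ≤ e) :
    cosh u - cosh v ≤ sinh s * e := by
  have h1 : 0 ≤ sinh u := sinh_nonneg_iff.2 hu
  have h2 : sinh u ≤ sinh s := sinh_le_sinh.2 hus
  have h3 : u - v ≤ e := (le_abs_self _).trans he
  have h4 : 0 ≤ e := (abs_nonneg _).trans he
  calc cosh u - cosh v ≤ sinh u * (u - v) := cosh_tangent u v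
    _ ≤ sinh u * e := by gcongr
    _ ≤ sinh s * e := by gcongr

theorem sq_le_cosh {d : ℝ} (hd : 0 ≤ d) : d ^ 2 / 2 ≤ cosh d - 1 := by
  have h1 : d / 2 ≤ sinh (d / 2) := self_le_sinh_iff.2 (by linarith)
  have h2 : cosh d = cosh (d / 2) ^ 2 + sinh (d / 2) ^ 2 := by
    rw [← cosh_two_mul]; ring_nf
  have h3 := cosh_sq (d / 2)
  have h4 : (d / 2) ^ 2 ≤ sinh (d / 2) ^ 2 := by gcongr
  nlinarith

theorem sinh_le_four_half {L : ℝ} (h0 : 0 ≤ L) (h1 : L ≤ 1) : sinh L ≤ 4 * sinh (L / 2) := by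
  have e : sinh L = 2 * sinh (L / 2) * cosh (L / 2) := by
    rw [← sinh_two_mul]; ring_nf
  have h2 : cosh (L / 2) ≤ 2 := by
    have a1 : exp (L / 2) ≤ exp 1 := exp_le_exp.2 (by linarith)
    have a2 := exp_one_lt_d9
    have a3 : exp (-(L / 2)) ≤ 1 := exp_le_one_iff.2 (by linarith)
    rw [cosh_eq]; linarith
  have h3 : 0 ≤ sinh (L / 2) := sinh_nonneg_iff.2 (by linarith)
  rw [e]; nlinarith

theorem sinh_le_two_mul {s : ℝ} (h0 : 0 ≤ s) (h1 : s ≤ 1 / 4) : sinh s ≤ 2 * s := by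
  have a1 : 1 - s ≤ exp (-s) := by linarith [add_one_le_exp (-s)]
  have a2 : exp s * exp (-s) = 1 := by rw [← exp_add]; simp
  have a3 := exp_pos s
  have a4 : exp s * (1 - s) ≤ 1 := (mul_le_mul_of_nonneg_left a1 a3.le).trans a2.le
  have a5 : exp s ≤ 2 := by nlinarith
  rw [sinh_eq]; nlinarith

theorem side_bound {X : Type} [MetricSpace X] (hPS : PS X) {x y a q : X} {b τ c : ℝ}
    (hb1 : b ≤ 1) (h0 : 0 < τ) (h1 : τ ≤ 1 / 2) (hc : 0 ≤ c)
    (hcd : 16 * c * sinh (τ * b) ≤ dist x y) (ha : dist x a ≤ b)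
    (hxy : |dist x a - dist y a| ≤ c * dist x y)
    (hq1 : dist x q = τ * dist x a) (hq2 : dist q a = (1 - τ) * dist x a) :
    dist x y ^ 2 / 16 ≤ cosh (dist y q) - cosh (dist x q) := by
  have hd : 0 ≤ dist x y := dist_nonneg
  have hsq := sq_le_cosh hd
  have hL : 0 ≤ dist x a := dist_nonneg
  rcases hL.eq_or_lt with hL0 | hL0
  · have hq : x = q := by
      rw [← hL0, mul_zero] at hq1
      exact dist_eq_zero.1 hq1
    subst hq
    rw [dist_self, cosh_zero, dist_comm y x]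
    nlinarith [sq_nonneg (dist x y)]
  have p := ps_exact hPS y hq1 hq2
  rw [dist_comm a y, dist_comm q y] at p
  rw [hq1]
  generalize dist x a = L at *
  generalize dist x y = d at *
  generalize dist y a = M at *
  generalize dist y q = E at *
  have hs : 0 < sinh L := sinh_pos_iff.2 hL0
  have id1 : sinh ((1 - τ) * L) = sinh L * cosh (τ * L) - cosh L * sinh (τ * L) := by
    rw [← sinh_sub]; ring_nf
  have b1 : sinh L ≤ 4 * sinh ((1 - τ) * L) := by
    have h2 := sinh_le_four_half hL0.le (ha.trans hb1)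
    have h3 : sinh (L / 2) ≤ sinh ((1 - τ) * L) := sinh_le_sinh.2 (by nlinarith)
    linarith
  have b2 : cosh L - cosh M ≤ sinh L * (c * d) := cosh_sub_le hL0.le le_rfl hxy
  have b3 : sinh (τ * L) ≤ sinh (τ * b) := sinh_le_sinh.2 (by gcongr)
  have b4 : 0 ≤ sinh (τ * L) := sinh_nonneg_iff.2 (by positivity)
  have b5 : sinh L / 4 * (d ^ 2 / 2) ≤ sinh ((1 - τ) * L) * (cosh d - 1) :=
    mul_le_mul (by linarith) hsq (by positivity) (by linarith)
  have b6 : sinh (τ * L) * (cosh L - cosh M) ≤ sinh L * (d ^ 2 / 16) := by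
    have c1 : sinh (τ * L) * (cosh L - cosh M) ≤ sinh (τ * L) * (sinh L * (c * d)) :=
      mul_le_mul_of_nonneg_left b2 b4
    have c2 : sinh (τ * L) * (sinh L * (c * d)) ≤ sinh (τ * b) * (sinh L * (c * d)) :=
      mul_le_mul_of_nonneg_right b3 (by positivity)
    have c3 : (16 * c * sinh (τ * b)) * (sinh L * d) ≤ d * (sinh L * d) :=
      mul_le_mul_of_nonneg_right hcd (by positivity)
    nlinarith
  have b7 : sinh L * (d ^ 2 / 16) ≤ sinh L * (cosh E - cosh (τ * L)) := by
    have c1 : sinh L * cosh (τ * L) = sinh ((1 - τ) * L) + cosh L * sinh (τ * L) := by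
      rw [id1]; ring
    nlinarith
  exact le_of_mul_le_mul_left b7 hs

theorem cross {X : Type} [MetricSpace X] {x y q q' : X} {s σ' : ℝ} (hs0 : 0 < s) (hs : s ≤ 1 / 4)
    (hσ : 32 * s * σ' ≤ dist x y ^ 2) (h1 : dist y q ≤ s) (h2 : dist x q' ≤ s)
    (hq : dist x y ^ 2 / 16 ≤ cosh (dist y q) - cosh (dist x q))
    (hq' : dist y x ^ 2 / 16 ≤ cosh (dist x q') - cosh (dist y q')) : σ' ≤ dist q q' := by
  rw [dist_comm y x] at hq'
  have t1 : |dist y q - dist y q'| ≤ dist q q' := by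
    rw [dist_comm y q, dist_comm y q']; exact abs_dist_sub_le q q' y
  have t2 : |dist x q' - dist x q| ≤ dist q q' := by
    rw [dist_comm x q, dist_comm x q', abs_sub_comm]; exact abs_dist_sub_le q q' x
  have c1 := cosh_sub_le dist_nonneg h1 t1
  have c2 := cosh_sub_le dist_nonneg h2 t2
  have c3 : sinh s * dist q q' ≤ 2 * s * dist q q' :=
    mul_le_mul_of_nonneg_right (sinh_le_two_mul hs0.le hs) dist_nonneg
  have c4 : 32 * s * σ' ≤ 32 * s * dist q q' := by linarith
  exact le_of_mul_le_mul_left c4 (by positivity)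

open Classical in
theorem image_sep {X : Type} [MetricSpace X] {σ' : ℝ} (hσ : 0 < σ') (P : Finset X) (f : X → X)
    (h : ∀ a ∈ P, ∀ a' ∈ P, a ≠ a' → σ' ≤ dist (f a) (f a')) :
    (P.image f).card = P.card ∧ Sep σ' (P.image f) := by
  refine ⟨card_image_of_injOn ?_, ?_⟩
  · intro a ha a' ha' hf
    by_contra hne
    have h1 := h a ha a' ha' hne
    rw [hf, dist_self] at h1
    linarith
  · intro q hq q' hq' hne
    obtain ⟨a, ha, rfl⟩ := mem_image.1 hq
    obtain ⟨a', ha', rfl⟩ := mem_image.1 hq'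
    exact h a ha a' ha' (fun e => hne (by rw [e]))

end T24

open T24

theorem st_CMP (hCA : St_CA) : St_CMP := by
  classical
  intro X _ hPS hG u b τ σ σ' P hb h0 h1 hσ' hσ hP hS
  choose f hf1 hf2 using fun a => hG u a τ h0.le h1
  obtain ⟨c1, c2⟩ := image_sep hσ' P f (fun a ha a' ha' hne =>
    sep_core hCA hPS hb h0 h1 hσ (hP a ha) (hP a' ha') (hS a ha a' ha' hne)
      (hf1 a) (hf2 a) (hf1 a') (hf2 a'))
  refine ⟨_, c1, fun q hq => ?_, c2⟩
  obtain ⟨a, ha, rfl⟩ := mem_image.1 hq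
  rw [hf1]
  exact mul_le_mul_of_nonneg_left (hP a ha) h0.le

theorem st_GAIN (hCA : St_CA) : St_GAIN := by
  classical
  intro X _ hPS hG x y b τ σ σ' s c A hb hb1 h0 h1 hσ' hσ hs hτs hc hcd hsσ hx hy hxy hS
  have h1' : τ ≤ 1 := by linarith
  have hd : 0 ≤ dist x y := dist_nonneg
  have hτb : 0 < τ * b := mul_pos h0 hb
  have hs0 : 0 < s := by linarith
  choose f hf1 hf2 using fun a => hG x a τ h0.le h1'
  choose g hg1 hg2 using fun a => hG y a τ h0.le h1'
  obtain ⟨c1, c2⟩ := image_sep hσ' A f (fun a ha a' ha' hne =>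
    sep_core hCA hPS hb h0 h1' hσ (hx a ha) (hx a' ha') (hS a ha a' ha' hne)
      (hf1 a) (hf2 a) (hf1 a') (hf2 a'))
  obtain ⟨d1, d2⟩ := image_sep hσ' A g (fun a ha a' ha' hne =>
    sep_core hCA hPS hb h0 h1' hσ (hy a ha) (hy a' ha') (hS a ha a' ha' hne)
      (hg1 a) (hg2 a) (hg1 a') (hg2 a'))
  have fx : ∀ a ∈ A, dist x (f a) ≤ τ * b := fun a ha => by
    rw [hf1]; exact mul_le_mul_of_nonneg_left (hx a ha) h0.le
  have gy : ∀ a ∈ A, dist y (g a) ≤ τ * b := fun a ha => by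
    rw [hg1]; exact mul_le_mul_of_nonneg_left (hy a ha) h0.le
  have fy : ∀ a ∈ A, dist y (f a) ≤ s := fun a ha => by
    have h2 := dist_triangle_left y (f a) x
    linarith [fx a ha]
  have gx : ∀ a ∈ A, dist x (g a) ≤ s := fun a ha => by
    have h2 := dist_triangle x y (g a)
    linarith [gy a ha]
  have hcross : ∀ a ∈ A, ∀ a' ∈ A, σ' ≤ dist (f a) (g a') := fun a ha a' ha' =>
    cross hs0 hs hsσ (fy a ha) (gx a' ha')
      (side_bound hPS hb1 h0 h1 hc hcd (hx a ha) (hxy a ha) (hf1 a) (hf2 a))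
      (side_bound hPS hb1 h0 h1 hc (by rwa [dist_comm y x]) (hy a' ha')
        (by rw [dist_comm y x, abs_sub_comm]; exact hxy a' ha') (hg1 a') (hg2 a'))
  have hdis : Disjoint (A.image f) (A.image g) := by
    rw [Finset.disjoint_left]
    intro q hq hq'
    obtain ⟨a, ha, rfl⟩ := mem_image.1 hq
    obtain ⟨a', ha', e⟩ := mem_image.1 hq'
    have h2 := hcross a ha a' ha'
    rw [e, dist_self] at h2
    linarith
  refine ⟨A.image f ∪ A.image g, ?_, ?_, ?_⟩
  · rw [card_union_of_disjoint hdis]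
    have e1 : (A.image f).card = A.card := by convert c1
    have e2 : (A.image g).card = A.card := by convert d1
    rw [e1, e2]; ring
  · intro q hq
    rcases mem_union.1 hq with hq | hq
    · obtain ⟨a, ha, rfl⟩ := mem_image.1 hq
      linarith [fx a ha]
    · obtain ⟨a, ha, rfl⟩ := mem_image.1 hq
      exact gx a ha
  · intro q hq q' hq' hne
    rcases mem_union.1 hq with hq | hq <;> rcases mem_union.1 hq' with hq' | hq'
    · exact c2 q (by convert hq) q' (by convert hq') hne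
    · obtain ⟨a, ha, rfl⟩ := mem_image.1 hq
      obtain ⟨a', ha', rfl⟩ := mem_image.1 hq'
      exact hcross a ha a' ha'
    · obtain ⟨a, ha, rfl⟩ := mem_image.1 hq
      obtain ⟨a', ha', rfl⟩ := mem_image.1 hq'
      rw [dist_comm]
      exact hcross a' ha' a ha
    · exact d2 q (by convert hq) q' (by convert hq') hne

end Pool.Agent.Lib.AB79
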