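import Pool.Agent.Lib.AB79.Defs

set_option autoImplicit false

namespace Pool.Agent.Lib.AB79

open Real Filter Topology

namespace T65

theorem lim {u w c d e : ℕ → ℝ} {U W C D E L : ℝ} (hu : Tendsto u atTop (𝓝 U))
    (hw : Tendsto w atTop (𝓝 W)) (hc : Tendsto c atTop (𝓝 C)) (hd : Tendsto d atTop (𝓝 D))
    (he : Tendsto e atTop (𝓝 E)) (hL : U + W = L)
    (h : ∀ k, sinh (w k) * cosh (c k) + sinh (u k) * cosh (d k) ≤
      cosh (e k) * sinh (u k + w k) +
        sinh (e k) * √(2 * sinh (u k) * sinh (w k) * (cosh (u k + w k) - cosh L))) :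
    sinh W * cosh C + sinh U * cosh D ≤ cosh E * sinh L := by
  have s : ∀ {f : ℕ → ℝ} {F : ℝ}, Tendsto f atTop (𝓝 F) →
      Tendsto (fun k => sinh (f k)) atTop (𝓝 (sinh F)) :=
    fun hf => (continuous_sinh.tendsto _).comp hf
  have t : ∀ {f : ℕ → ℝ} {F : ℝ}, Tendsto f atTop (𝓝 F) →
      Tendsto (fun k => cosh (f k)) atTop (𝓝 (cosh F)) :=
    fun hf => (continuous_cosh.tendsto _).comp hf
  have h1 := le_of_tendsto_of_tendsto' (((s hw).mul (t hc)).add ((s hu).mul (t hd)))
    (((t he).mul (s (hu.add hw))).add ((s he).mul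
      ((((s hu).const_mul 2).mul (s hw)).mul ((t (hu.add hw)).sub_const (cosh L))).sqrt)) h
  simpa [hL] using h1

end T65

open T65 in
theorem st_CH (hCA : St_CA) : St_CH := by
  intro X _ hPS hAP z R ρ σ M a hρ hρR hσ hR hsep
  have hR0 : 0 < R := hρ.trans_le hρR
  have hs : 0 < sinh R := sinh_pos_iff.2 hR0
  obtain ⟨τ, hτ⟩ : ∃ τ, τ = ρ / (2 * R) := ⟨_, rfl⟩
  have hτ0 : 0 < τ := by rw [hτ]; positivity
  have hτR : τ * R = ρ / 2 := by rw [hτ]; field_simp
  have hτ1 : τ ≤ 1 := by rw [hτ, div_le_one (by positivity)]; linarith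
  have hη : Tendsto (fun k : ℕ => ρ / 2 * (1 / ((k : ℝ) + 1))) atTop (𝓝 0) := by
    simpa using (tendsto_one_div_add_atTop_nhds_zero_nat (𝕜 := ℝ)).const_mul (ρ / 2)
  have hη1 : ∀ k : ℕ, ρ / 2 * (1 / ((k : ℝ) + 1)) ≤ ρ / 2 := fun k =>
    mul_le_of_le_one_right (by positivity) (by
      rw [div_le_one (by positivity)]; linarith [Nat.cast_nonneg (α := ℝ) k])
  choose q h1 h2 using fun (i : Fin M) (k : ℕ) =>
    hAP z (a i) τ (ρ / 2 * (1 / ((k : ℝ) + 1))) hτ0.le hτ1 (by positivity)
  have hq : ∀ i k, dist z (q i k) ≤ ρ := fun i k => by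
    have := mul_le_mul_of_nonneg_left (hR i) hτ0.le
    linarith [h1 i k, hη1 k]
  have tu : ∀ i, Tendsto (fun k => dist z (q i k)) atTop (𝓝 (τ * dist z (a i))) := fun i => by
    refine tendsto_of_tendsto_of_tendsto_of_le_of_le
      (g := fun k : ℕ => τ * dist z (a i) - ρ / 2 * (1 / ((k : ℝ) + 1))) ?_ ?_ (fun k => ?_) (h1 i)
    · simpa using hη.const_sub (τ * dist z (a i))
    · simpa using hη.const_add (τ * dist z (a i))
    · have := dist_triangle z (q i k) (a i)
      have := h2 i k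
      dsimp only
      linarith
  have tw : ∀ i, Tendsto (fun k => dist (q i k) (a i)) atTop (𝓝 ((1 - τ) * dist z (a i))) :=
    fun i => by
    refine tendsto_of_tendsto_of_tendsto_of_le_of_le
      (g := fun k : ℕ => (1 - τ) * dist z (a i) - ρ / 2 * (1 / ((k : ℝ) + 1))) ?_ ?_
      (fun k => ?_) (h2 i)
    · simpa using hη.const_sub ((1 - τ) * dist z (a i))
    · simpa using hη.const_add ((1 - τ) * dist z (a i))
    · have := dist_triangle z (q i k) (a i)
      have := h1 i k
      dsimp only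
      linarith
  have key : ∀ i j, i ≠ j → ∀ᶠ k in atTop, σ / (4 * sinh R) * ρ ≤ dist (q i k) (q j k) := by
    intro i j hij
    by_contra hc
    have hf : ∃ᶠ k in atTop, (dist (q i k) (a j), dist (q j k) (q i k)) ∈
        Set.Icc 0 (ρ + R) ×ˢ Set.Icc 0 (σ / (4 * sinh R) * ρ) := by
      refine (not_eventually.1 hc).mono fun k hk => ⟨⟨dist_nonneg, ?_⟩, dist_nonneg, ?_⟩
      · have := dist_triangle_left (q i k) (a j) z
        linarith [hq i k, hR j]
      · exact (dist_comm _ _).trans_le (not_le.1 hk).le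
    obtain ⟨p, hp, φ, hφ, ht⟩ := (isCompact_Icc.prod isCompact_Icc).tendsto_subseq' hf
    have t1 : Tendsto (fun k => dist (q i (φ k)) (a j)) atTop (𝓝 p.1) :=
      (continuous_fst.tendsto p).comp ht
    have t2 : Tendsto (fun k => dist (q j (φ k)) (q i (φ k))) atTop (𝓝 p.2) :=
      (continuous_snd.tendsto p).comp ht
    have ui := (tu i).comp hφ.tendsto_atTop
    have uj := (tu j).comp hφ.tendsto_atTop
    have wi := (tw i).comp hφ.tendsto_atTop
    have wj := (tw j).comp hφ.tendsto_atTop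
    have e1 := lim ui wi (tendsto_const_nhds (x := dist z (a j)))
      (tendsto_const_nhds (x := dist (a i) (a j))) t1 (L := dist z (a i)) (by ring) fun k => by
        have := hPS z (a i) (q i (φ k)) (a j)
        rwa [dist_comm (q i (φ k)) z] at this
    have e2 := lim uj wj ui t1 t2 (L := dist z (a j)) (by ring) fun k => by
      have := hPS z (a j) (q j (φ k)) (q i (φ k))
      rwa [dist_comm (q j (φ k)) z, dist_comm (a j)] at this
    have e3 : τ * |dist z (a i) - dist z (a j)| ≤ p.2 := by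
      rw [← abs_of_pos hτ0, ← abs_mul, mul_sub]
      refine le_of_tendsto_of_tendsto' (ui.sub uj).abs t2 fun k => ?_
      have := abs_dist_sub_le (q i (φ k)) (q j (φ k)) z
      rwa [dist_comm (q i (φ k)) z, dist_comm (q j (φ k)) z, dist_comm (q i (φ k))] at this
    have e4 := hCA _ _ R τ (dist (a i) (a j)) p.1 p.2 dist_nonneg dist_nonneg (hR i) (hR j) hR0
      hτ0.le hτ1 (by
        have := abs_dist_sub_le (a i) (a j) z
        rwa [dist_comm (a i) z, dist_comm (a j) z] at this) (dist_triangle_left _ _ z) e3 e1 e2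
    have e5 : p.2 * sinh R ≤ σ * ρ / 4 :=
      (mul_le_mul_of_nonneg_right hp.2.2 hs.le).trans_eq (by field_simp)
    have e6 : τ * R * σ ≤ τ * R * dist (a i) (a j) :=
      mul_le_mul_of_nonneg_left (hsep i j hij) (by positivity)
    have e7 : τ * R * σ = ρ / 2 * σ := by rw [hτR]
    nlinarith [mul_pos hσ hρ]
  obtain ⟨k, hk⟩ := (eventually_all.2 fun i => eventually_all.2 fun j =>
    eventually_imp_distrib_left.2 (key i j)).exists
  exact ⟨fun i => q i k, fun i => hq i k, hk⟩

end Pool.Agent.Lib.AB79
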