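import Pool.Agent.Lib.AB79.Defs

/-! Block E of the bi-Lipschitz embedding: the coloured sum of local maps. -/

set_option autoImplicit false

namespace Pool.Agent.Lib.AB79

open Finset

namespace T35

/-- the coloured sum of local maps -/
noncomputable def Em {X T : Type} {K : ℕ} (J : Finset X) (col : X → Fin K) (w : X → X → ℝ)
    (V : X → X → T → ℝ) (x : X) : Fin K × T → ℝ :=
  fun ω => ∑ j ∈ J, if col j = ω.1 then w j x * V j x ω.2 else 0

lemma ker {X T : Type} [Fintype T] {K : ℕ} (J : Finset X) (col : X → Fin K) (w : X → X → ℝ)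
    (V : X → X → T → ℝ) (x y : X) :
    ∑ ω, Em J col w V x ω * Em J col w V y ω =
      ∑ j ∈ J, ∑ j' ∈ J,
        if col j = col j' then w j x * w j' y * ∑ t, V j x t * V j' y t else 0 := by
  simp only [Em, Finset.sum_mul_sum]
  rw [Finset.sum_comm]
  refine Finset.sum_congr rfl fun j _ => ?_
  rw [Finset.sum_comm]
  refine Finset.sum_congr rfl fun j' _ => ?_
  rw [Fintype.sum_prod_type, Finset.sum_eq_single (col j)]
  · by_cases h : col j = col j'
    · simp only [h, if_true, Finset.mul_sum]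
      exact Finset.sum_congr rfl fun t _ => by ring
    · have h' : ¬ col j' = col j := fun e => h e.symm
      simp [h, h']
  · intro b _ hb
    have h' : ¬ col j = b := fun e => hb e.symm
    simp [h']
  · intro h
    exact absurd (Finset.mem_univ _) h

lemma ker_diag {X T : Type} [Fintype T] {K : ℕ} (J : Finset X) (col : X → Fin K)
    (w : X → X → ℝ) (V : X → X → T → ℝ) (x y : X)
    (h : ∀ j ∈ J, ∀ j' ∈ J, j ≠ j' → w j x ≠ 0 → w j' y ≠ 0 → col j ≠ col j') :
    ∑ ω, Em J col w V x ω * Em J col w V y ω =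
      ∑ j ∈ J, w j x * w j y * ∑ t, V j x t * V j y t := by
  rw [ker]
  refine Finset.sum_congr rfl fun j hj => ?_
  rw [Finset.sum_eq_single j]
  · simp
  · intro j' hj' hne
    by_cases h1 : w j x = 0
    · simp [h1]
    by_cases h2 : w j' y = 0
    · simp [h2]
    rw [if_neg (h j hj j' hj' (fun e => hne e.symm) h1 h2)]
  · intro hn
    exact absurd hj hn

lemma sq_exp {Ω : Type} [Fintype Ω] (a b : Ω → ℝ) :
    ∑ ω, (a ω - b ω) ^ 2 = ∑ ω, a ω * a ω + ∑ ω, b ω * b ω - 2 * ∑ ω, a ω * b ω := by
  rw [Finset.mul_sum, ← Finset.sum_add_distrib, ← Finset.sum_sub_distrib]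
  exact Finset.sum_congr rfl fun t _ => by ring

lemma ip_le {Ω : Type} [Fintype Ω] (a b : Ω → ℝ) :
    2 * ∑ ω, a ω * b ω ≤ ∑ ω, a ω * a ω + ∑ ω, b ω * b ω := by
  have h := sq_exp a b
  have h0 : 0 ≤ ∑ ω, (a ω - b ω) ^ 2 := Finset.sum_nonneg fun _ _ => sq_nonneg _
  linarith

lemma ip_ge {Ω : Type} [Fintype Ω] (a b : Ω → ℝ) :
    -(2 * ∑ ω, a ω * b ω) ≤ ∑ ω, a ω * a ω + ∑ ω, b ω * b ω := by
  have h := ip_le a (fun ω => - b ω)
  simp only [mul_neg, neg_mul, neg_neg, Finset.sum_neg_distrib] at h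
  exact h

end T35

open T35 in
theorem st_E : St_E := by
  intro X _ A J r K p col φ T _ U hr hp hW hU hL
  obtain ⟨hpos, -, hlip⟩ := hr
  have hp' : (1 : ℝ) ≤ p := by exact_mod_cast hp
  have hp0 : (0 : ℝ) < p := by linarith
  set w : X → X → ℝ := fun j x => r j / p * φ j x with hw
  have wnn : ∀ j x, 0 ≤ w j x := fun j x =>
    mul_nonneg (div_nonneg (hpos j).le hp0.le) (hW.nonneg j x)
  have act : ∀ j x, w j x ≠ 0 → φ j x ≠ 0 := fun j x h e => h (by simp [hw, e])
  have up : ∀ j x, φ j x ≠ 0 → 998 / 1000 * r j ≤ r x := fun j x h => by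
    have h1 := hW.supp j x h
    have h2 := hlip j x
    rw [dist_comm] at h2
    linarith
  have lo : ∀ j x, φ j x ≠ 0 → r x ≤ 1002 / 1000 * r j := fun j x h => by
    have h1 := hW.supp j x h
    have h2 := hlip x j
    linarith
  have hcol : ∀ x y, dist x y ≤ 10 * r x →
      ∀ j ∈ J, ∀ j' ∈ J, j ≠ j' → w j x ≠ 0 → w j' y ≠ 0 → col j ≠ col j' := by
    intro x y hd j hj j' hj' hne h1 h2
    refine hW.col_ne j hj j' hj' hne ?_
    have a1 := hW.supp j x (act _ _ h1)
    have a2 := hW.supp j' y (act _ _ h2)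
    have a3 := lo j x (act _ _ h1)
    have a4 := dist_triangle4 j x y j'
    rw [dist_comm j x] at a4
    have a5 := le_max_left (r j) (r j')
    have a6 := le_max_right (r j) (r j')
    have := hpos j
    linarith
  have self : ∀ (S : Type) [Fintype S] (V : X → X → S → ℝ), (∀ j x, ∑ t, V j x t ^ 2 = 1) →
      ∀ x, ∑ ω, Em J col w V x ω * Em J col w V x ω = ∑ j ∈ J, w j x ^ 2 := by
    intro S _ V hV x
    rw [ker_diag J col w V x x (hcol x x (by have := hpos x; rw [dist_self]; linarith))]
    refine Finset.sum_congr rfl fun j _ => ?_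
    have := hV j x
    simp only [sq] at this
    rw [this]; ring
  have nup : ∀ x ∈ A, ∑ j ∈ J, w j x ^ 2 ≤ (1000 / 998 * r x) ^ 2 := by
    intro x hx
    have : ∑ j ∈ J, w j x ^ 2 ≤ ∑ j ∈ J, (1000 / 998 * r x) ^ 2 * φ j x ^ 2 := by
      refine Finset.sum_le_sum fun j _ => ?_
      by_cases h : φ j x = 0
      · simp [hw, h]
      simp only [hw, mul_pow (r j / p)]
      refine mul_le_mul_of_nonneg_right ?_ (sq_nonneg _)
      refine pow_le_pow_left₀ (div_nonneg (hpos j).le hp0.le) ?_ 2
      have := up j x h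
      have h3 : r j / p ≤ r j := div_le_self (hpos j).le hp'
      linarith
    rwa [← Finset.mul_sum, hW.sum_sq x hx, mul_one] at this
  have nlo : ∀ x ∈ A, (1000 / 1002 * (r x / p)) ^ 2 ≤ ∑ j ∈ J, w j x ^ 2 := by
    intro x hx
    have : ∑ j ∈ J, (1000 / 1002 * (r x / p)) ^ 2 * φ j x ^ 2 ≤ ∑ j ∈ J, w j x ^ 2 := by
      refine Finset.sum_le_sum fun j _ => ?_
      by_cases h : φ j x = 0
      · simp [hw, h]
      simp only [hw, mul_pow (r j / p)]
      refine mul_le_mul_of_nonneg_right ?_ (sq_nonneg _)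
      have := hpos x
      refine pow_le_pow_left₀ (by positivity) ?_ 2
      have := lo j x h
      rw [← mul_div_assoc]
      exact div_le_div_of_nonneg_right (by linarith) hp0.le
    rwa [← Finset.mul_sum, hW.sum_sq x hx, mul_one] at this
  have near : ∀ x y, dist x y ≤ 10 * r x →
      ∑ ω, (Em J col w U x ω - Em J col w U y ω) ^ 2 =
        ∑ j ∈ J, (r j / p) ^ 2 * (φ j x - φ j y) ^ 2 +
          ∑ j ∈ J, φ j x * φ j y * ((r j / p) ^ 2 * ∑ t, (U j x t - U j y t) ^ 2) := by
    intro x y hd
    rw [sq_exp, self T U hU, self T U hU, ker_diag J col w U x y (hcol x y hd),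
      Finset.mul_sum, ← Finset.sum_add_distrib, ← Finset.sum_sub_distrib,
      ← Finset.sum_add_distrib]
    refine Finset.sum_congr rfl fun j _ => ?_
    have e1 := hU j x
    have e2 := hU j y
    simp only [sq] at e1 e2
    rw [sq_exp, e1, e2]
    simp only [hw]; ring
  have cross : ∀ x ∈ A, ∀ y ∈ A,
      ∑ j ∈ J, (φ j x - φ j y) ^ 2 = 2 - 2 * ∑ j ∈ J, φ j x * φ j y := by
    intro x hx y hy
    have : ∑ j ∈ J, (φ j x - φ j y) ^ 2 =
        ∑ j ∈ J, φ j x ^ 2 + ∑ j ∈ J, φ j y ^ 2 - 2 * ∑ j ∈ J, φ j x * φ j y := by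
      rw [Finset.mul_sum, ← Finset.sum_add_distrib, ← Finset.sum_sub_distrib]
      exact Finset.sum_congr rfl fun t _ => by ring
    rw [this, hW.sum_sq x hx, hW.sum_sq y hy]; ring
  refine ⟨Em J col w U, ?_, ?_, ?_⟩
  · intro x hx y hy
    have hx0 := hpos x
    have hd0 := dist_nonneg (x := x) (y := y)
    have hyx := hlip y x
    rw [dist_comm y x] at hyx
    by_cases hd : dist x y ≤ r x
    · rw [near x y (by linarith)]
      have s1 : ∑ j ∈ J, (r j / p) ^ 2 * (φ j x - φ j y) ^ 2 ≤
          ∑ j ∈ J, (101 / 100 * (r x / p)) ^ 2 * (φ j x - φ j y) ^ 2 := by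
        refine Finset.sum_le_sum fun j _ => ?_
        by_cases h : φ j x = 0 ∧ φ j y = 0
        · simp [h.1, h.2]
        refine mul_le_mul_of_nonneg_right ?_ (sq_nonneg _)
        refine pow_le_pow_left₀ (div_nonneg (hpos j).le hp0.le) ?_ 2
        rw [← mul_div_assoc]
        refine div_le_div_of_nonneg_right ?_ hp0.le
        rcases not_and_or.1 h with h | h
        · have := up j x h
          linarith
        · have := up j y h
          linarith
      have s2 : ∑ j ∈ J, φ j x * φ j y * ((r j / p) ^ 2 * ∑ t, (U j x t - U j y t) ^ 2) ≤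
          ∑ j ∈ J, φ j x * φ j y * dist x y ^ 2 :=
        Finset.sum_le_sum fun j _ => mul_le_mul_of_nonneg_left (hL j x y)
          (mul_nonneg (hW.nonneg _ _) (hW.nonneg _ _))
      rw [← Finset.mul_sum] at s1
      rw [← Finset.sum_mul] at s2
      have c1 := cross x hx y hy
      have c0 : 0 ≤ ∑ j ∈ J, (φ j x - φ j y) ^ 2 := Finset.sum_nonneg fun _ _ => sq_nonneg _
      have s3 := mul_le_mul_of_nonneg_left (hW.lip x hx y hy hd)
        (sq_nonneg (101 / 100 * (r x / p)))
      have e3 : (101 / 100 * (r x / p)) ^ 2 * (100 * (p : ℝ) ^ 2 * dist x y ^ 2 / r x ^ 2) =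
          10201 / 100 * dist x y ^ 2 := by
        field_simp; ring
      have s4 : (∑ j ∈ J, φ j x * φ j y) * dist x y ^ 2 ≤ 1 * dist x y ^ 2 :=
        mul_le_mul_of_nonneg_right (by linarith) (sq_nonneg _)
      have := sq_nonneg (dist x y)
      linarith
    · have g := ip_ge (Em J col w U x) (Em J col w U y)
      rw [sq_exp]
      rw [self T U hU, self T U hU] at g ⊢
      have n1 := nup x hx
      have n2 := nup y hy
      have hy0 := hpos y
      have m1 : (1000 / 998 * r x) ^ 2 ≤ (2 * dist x y) ^ 2 :=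
        pow_le_pow_left₀ (by positivity) (by linarith) 2
      have m2 : (1000 / 998 * r y) ^ 2 ≤ (2 * dist x y) ^ 2 :=
        pow_le_pow_left₀ (by positivity) (by linarith) 2
      have := sq_nonneg (dist x y)
      nlinarith
  · intro x hx y hy γ hd hγ
    have hx0 := hpos x
    have hd0 := dist_nonneg (x := x) (y := y)
    by_cases hg : γ ≤ 0
    · have : 0 ≤ ∑ ω, (Em J col w U x ω - Em J col w U y ω) ^ 2 :=
        Finset.sum_nonneg fun _ _ => sq_nonneg _
      linarith
    have hd1 : dist x y ≤ r x := hd.trans (div_le_self hx0.le (by linarith))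
    rw [near x y (by linarith)]
    have s1 : 0 ≤ ∑ j ∈ J, (r j / p) ^ 2 * (φ j x - φ j y) ^ 2 :=
      Finset.sum_nonneg fun _ _ => by positivity
    have s2 : ∑ j ∈ J, φ j x * φ j y * γ ≤
        ∑ j ∈ J, φ j x * φ j y * ((r j / p) ^ 2 * ∑ t, (U j x t - U j y t) ^ 2) := by
      refine Finset.sum_le_sum fun j hj => ?_
      by_cases h1 : φ j x = 0
      · simp [h1]
      by_cases h2 : φ j y = 0
      · simp [h2]
      exact mul_le_mul_of_nonneg_left (hγ j hj (hW.supp _ _ h1) (hW.supp _ _ h2))
        (mul_nonneg (hW.nonneg _ _) (hW.nonneg _ _))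
    rw [← Finset.sum_mul] at s2
    have c1 := cross x hx y hy
    have l1 := hW.lip x hx y hy hd1
    have l2 : 100 * (p : ℝ) ^ 2 * dist x y ^ 2 / r x ^ 2 ≤ 1 := by
      rw [div_le_one (by positivity)]
      rw [le_div_iff₀ (by positivity)] at hd
      have := pow_le_pow_left₀ (by positivity) hd 2
      linarith
    have s4 : 1 / 2 * γ ≤ (∑ j ∈ J, φ j x * φ j y) * γ :=
      mul_le_mul_of_nonneg_right (by linarith) (by linarith)
    linarith
  · intro x hx y hy hd hcase
    have hx0 := hpos x
    have noboth : ∀ j, w j x * w j y = 0 := by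
      intro j
      by_contra hne
      obtain ⟨h1, h2⟩ := mul_ne_zero_iff.1 hne
      have a1 := hW.supp j x (act _ _ h1)
      have a2 := hW.supp j y (act _ _ h2)
      have a3 := up j x (act _ _ h1)
      have a4 := dist_triangle_right x y j
      linarith
    have key : 4 * ∑ ω, Em J col w U x ω * Em J col w U y ω ≤
        ∑ j ∈ J, w j x ^ 2 + ∑ j ∈ J, w j y ^ 2 := by
      rcases hcase with h | h
      · rw [ker_diag J col w U x y (hcol x y h)]
        simp only [noboth, zero_mul, Finset.sum_const_zero, mul_zero]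
        positivity
      · have g := ip_le (Em J col w (fun _ _ (_ : Unit) => (1 : ℝ)) x)
          (Em J col w (fun _ _ (_ : Unit) => (1 : ℝ)) y)
        rw [self Unit _ (by simp), self Unit _ (by simp)] at g
        have : 2 * ∑ ω, Em J col w U x ω * Em J col w U y ω ≤
            ∑ ω, Em J col w (fun _ _ (_ : Unit) => (1 : ℝ)) x ω *
              Em J col w (fun _ _ (_ : Unit) => (1 : ℝ)) y ω := by
          rw [ker, ker, Finset.mul_sum]
          refine Finset.sum_le_sum fun j hj => ?_
          rw [Finset.mul_sum]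
          refine Finset.sum_le_sum fun j' hj' => ?_
          split_ifs with hc
          · by_cases e : j = j'
            · subst e
              simp [noboth]
            · have h1 := mul_le_mul_of_nonneg_left (h j hj j' hj' e)
                (mul_nonneg (wnn j x) (wnn j' y))
              simp only [mul_one, Finset.sum_const, Finset.card_univ, Fintype.card_unit,
                one_smul]
              linarith
          · simp
        linarith
    rw [sq_exp, self T U hU, self T U hU]
    have n1 := nlo x hx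
    have n2 : 0 ≤ ∑ j ∈ J, w j y ^ 2 := Finset.sum_nonneg fun _ _ => sq_nonneg _
    have e1 : (r x / (2 * p)) ^ 2 = 1 / 4 * (r x / p) ^ 2 := by
      field_simp; norm_num
    have := sq_nonneg (r x / p)
    rw [e1]
    nlinarith

end Pool.Agent.Lib.AB79
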