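import Pool.Agent.Lib.AB79.Defs

set_option autoImplicit false

namespace Pool.Agent.Lib.AB79

open Real Finset

theorem st_GR : St_GR := by
  classical
  intro X C _ _ J conf bad Δ β hs hb hβ hΔ hlt
  have key : ∀ J' : Finset X, J' ⊆ J → ∃ col : X → C,
      ∀ j ∈ J', ∀ j' ∈ J', j ≠ j' → conf j j' → ¬ bad (col j) (col j') := by
    intro J'
    induction J' using Finset.induction_on with
    | empty => exact fun _ => ⟨fun _ => Classical.arbitrary C, by simp⟩
    | insert a s ha ih =>
      intro hsub
      obtain ⟨col, hcol⟩ := ih ((subset_insert a s).trans hsub)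
      set S := s.filter fun j => j ≠ a ∧ conf a j with hS
      have hSc : S.card ≤ Δ := hΔ a (hsub (mem_insert_self a s)) S
        ((filter_subset _ _).trans ((subset_insert a s).trans hsub)) fun j hj => (mem_filter.1 hj).2
      have hF : (S.biUnion fun j => univ.filter fun c => bad (col j) c).card < Fintype.card C := by
        refine lt_of_le_of_lt (card_biUnion_le_card_mul _ _ β fun j _ =>
          hβ (col j) _ fun c hc => (mem_filter.1 hc).2) (lt_of_le_of_lt ?_ hlt)
        exact Nat.mul_le_mul_right _ hSc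
      obtain ⟨c, -, hc⟩ := exists_mem_notMem_of_card_lt_card (t := (univ : Finset C)) hF
      have hc' : ∀ j ∈ s, conf a j → ¬ bad (col j) c := fun j hj h hbad =>
        hc (mem_biUnion.2 ⟨j, mem_filter.2 ⟨hj, fun e => ha (e ▸ hj), h⟩,
          mem_filter.2 ⟨mem_univ _, hbad⟩⟩)
      have hu : ∀ j ∈ s, Function.update col a c j = col j := fun j hj =>
        Function.update_of_ne (fun e : j = a => ha (e ▸ hj)) _ _
      refine ⟨Function.update col a c, fun j hj j' hj' hne hcf => ?_⟩
      rcases mem_insert.1 hj with h | h <;> rcases mem_insert.1 hj' with h' | h'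
      · exact absurd (h.trans h'.symm) hne
      · rw [h, Function.update_self, hu j' h']
        exact fun hbad => hc' j' h' (h ▸ hcf) (hb _ _ hbad)
      · rw [h', Function.update_self, hu j h]
        exact hc' j h (h' ▸ hs _ _ hcf)
      · rw [hu j h, hu j' h']
        exact hcol j h j' h' hne hcf
  exact key J Subset.rfl

namespace T66

/-- number of agreements of two words -/
def agr {N : ℕ} (c c' : Fin N → Fin 16) : ℕ := (univ.filter fun t => c t = c' t).card

theorem agr_comm {N : ℕ} (c c' : Fin N → Fin 16) : agr c c' = agr c' c := by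
  simp only [agr, eq_comm]

theorem sum_agr {N : ℕ} (c : Fin N → Fin 16) : ∑ c', 16 ^ agr c c' = 31 ^ N := by
  have h1 : ∀ c' : Fin N → Fin 16, 16 ^ agr c c' = ∏ t, if c t = c' t then 16 else 1 :=
    fun c' => by rw [prod_ite, prod_const, prod_const_one, mul_one, agr]
  have h2 : ∀ a : Fin 16, (∑ b : Fin 16, if a = b then 16 else 1) = 31 := by decide
  simp only [h1]
  rw [← Fintype.piFinset_univ, ← prod_univ_sum (fun _ => univ)
    fun t (b : Fin 16) => if c t = b then 16 else 1]
  simp only [h2, prod_const, card_univ, Fintype.card_fin]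

theorem card_bad {N L : ℕ} (c : Fin N → Fin 16) (S : Finset (Fin N → Fin 16))
    (h : ∀ c' ∈ S, L < agr c c') : S.card ≤ 31 ^ N / 16 ^ L := by
  rw [Nat.le_div_iff_mul_le (by positivity), ← sum_agr c, ← smul_eq_mul]
  refine (card_nsmul_le_sum S _ _ fun c' hc' =>
    Nat.pow_le_pow_right (by norm_num) (h c' hc').le).trans ?_
  exact sum_le_sum_of_subset (subset_univ S)

theorem inner_eq {N : ℕ} (c c' : Fin N → Fin 16) (a : ℝ) :
    ∑ t : Fin N × Fin 16, (if c t.1 = t.2 then a else 0) * (if c' t.1 = t.2 then a else 0) =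
      agr c c' * a ^ 2 := by
  rw [Fintype.sum_prod_type]
  have h : ∀ t, ∑ b : Fin 16, (if c t = b then a else 0) * (if c' t = b then a else 0) =
      if c t = c' t then a ^ 2 else 0 := fun t => by
    simp only [ite_mul, zero_mul, sum_ite_eq, mem_univ, if_true, eq_comm (a := c' t)]
    split_ifs <;> ring
  simp only [h]
  rw [← sum_filter, sum_const, nsmul_eq_mul, agr]

end T66

open T66 in
theorem st_CODE : St_CODE := by
  intro X J L hL hJ
  have hlt : J.card * (31 ^ (2 * L) / 16 ^ L) < Fintype.card (Fin (2 * L) → Fin 16) := by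
    rw [Fintype.card_fun, Fintype.card_fin, Fintype.card_fin]
    refine lt_of_mul_lt_mul_right (a := 16 ^ L) ?_ (Nat.zero_le _)
    calc J.card * (31 ^ (2 * L) / 16 ^ L) * 16 ^ L ≤ 4 ^ L * 31 ^ (2 * L) := by
          rw [mul_assoc]
          exact Nat.mul_le_mul hJ (Nat.div_mul_le_self _ _)
      _ = 3844 ^ L := by rw [pow_mul, ← mul_pow]; norm_num
      _ < 4096 ^ L := Nat.pow_lt_pow_left (by norm_num) (by omega)
      _ = 16 ^ (2 * L) * 16 ^ L := by rw [pow_mul, ← mul_pow]; norm_num
  obtain ⟨col, hcol⟩ := st_GR X (Fin (2 * L) → Fin 16) J (fun _ _ => True)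
    (fun c c' => L < agr c c') J.card _ (fun _ _ h => h) (fun c c' h => agr_comm c c' ▸ h)
    (fun c S h => card_bad c S h) (fun j _ S hS _ => card_le_card hS) hlt
  have hL' : (0 : ℝ) < 2 * L := by positivity
  have ha : (√(2 * (L : ℝ)))⁻¹ ^ 2 = (2 * (L : ℝ))⁻¹ := by rw [inv_pow, sq_sqrt hL'.le]
  refine ⟨fun j t => if col j t.1 = t.2 then (√(2 * (L : ℝ)))⁻¹ else 0, fun j => ?_,
    fun j hj j' hj' hne => ?_⟩
  · simp only [sq]
    rw [inner_eq, ha]
    simp only [agr, filter_true, card_univ, Fintype.card_fin]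
    push_cast
    exact mul_inv_cancel₀ hL'.ne'
  · rw [inner_eq, ha]
    have h1 : (agr (col j) (col j') : ℝ) ≤ L := by
      exact_mod_cast not_lt.1 (hcol j hj j' hj' hne trivial)
    rw [← div_eq_mul_inv, div_le_iff₀ hL']
    linarith

end Pool.Agent.Lib.AB79
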