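import Pool.Agent.Lib.AB79.Defs

set_option autoImplicit false

namespace Pool.Agent.Lib.AB79

open Real

namespace PS97

theorem ang {u v w : ℝ} (hu1 : -1 ≤ u) (hu2 : u ≤ 1) (hv1 : -1 ≤ v) (hv2 : v ≤ 1)
    (hw1 : -1 ≤ w) (hw2 : w ≤ 1) (h : arccos w + arccos v + arccos u ≤ 2 * π) :
    ∃ s : ℝ, 0 ≤ s ∧ 2 * s ^ 2 = 1 + w ∧ -(2 * s) ≤ u + v := by
  have a0 := arccos_nonneg u
  have a1 := arccos_le_pi u
  have b0 := arccos_nonneg v
  have b1 := arccos_le_pi v
  have g0 := arccos_nonneg w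
  have g1 := arccos_le_pi w
  have hs : 0 ≤ cos (arccos w / 2) :=
    cos_nonneg_of_neg_pi_div_two_le_of_le (by linarith) (by linarith)
  refine ⟨cos (arccos w / 2), hs, ?_, ?_⟩
  · have := cos_two_mul (arccos w / 2)
    rw [show 2 * (arccos w / 2) = arccos w by ring, cos_arccos hw1 hw2] at this
    linarith
  · have e := cos_add_cos (arccos u) (arccos v)
    rw [cos_arccos hu1 hu2, cos_arccos hv1 hv2] at e
    have c0 : 0 ≤ cos ((arccos u - arccos v) / 2) :=
      cos_nonneg_of_neg_pi_div_two_le_of_le (by linarith) (by linarith)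
    have c1 := cos_le_one ((arccos u - arccos v) / 2)
    have c2 : cos (π - arccos w / 2) ≤ cos ((arccos u + arccos v) / 2) :=
      cos_le_cos_of_nonneg_of_le_pi (by linarith) (by linarith) (by linarith)
    rw [cos_pi_sub] at c2
    rw [e]
    nlinarith [mul_le_mul_of_nonneg_right c2 c0, mul_le_mul_of_nonneg_left c1 hs]

theorem rng {p q d : ℝ} (hp : 0 < p) (hq : 0 < q) (hd : 0 ≤ d) (h1 : p ≤ q + d) (h2 : q ≤ p + d)
    (h3 : d ≤ p + q) :
    -1 ≤ (cosh p * cosh q - cosh d) / (sinh p * sinh q) ∧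
      (cosh p * cosh q - cosh d) / (sinh p * sinh q) ≤ 1 := by
  have hpos : 0 < sinh p * sinh q := mul_pos (sinh_pos_iff.2 hp) (sinh_pos_iff.2 hq)
  have a1 : cosh (p - q) ≤ cosh d := by
    rw [cosh_le_cosh, abs_of_nonneg hd, abs_le]
    constructor <;> linarith
  have a2 : cosh d ≤ cosh (p + q) := by
    rw [cosh_le_cosh, abs_of_nonneg hd, abs_of_nonneg (by linarith)]
    exact h3
  rw [cosh_sub] at a1
  rw [cosh_add] at a2
  constructor
  · rw [le_div_iff₀ hpos]
    linarith
  · rw [div_le_iff₀ hpos]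
    linarith

theorem rng' {X : Type} [MetricSpace X] {z x y : X} (hx : z ≠ x) (hy : z ≠ y) :
    -1 ≤ (cosh (dist z x) * cosh (dist z y) - cosh (dist x y)) /
        (sinh (dist z x) * sinh (dist z y)) ∧
      (cosh (dist z x) * cosh (dist z y) - cosh (dist x y)) /
        (sinh (dist z x) * sinh (dist z y)) ≤ 1 := by
  refine rng (dist_pos.2 hx) (dist_pos.2 hy) dist_nonneg ?_ (dist_triangle z x y)
    (dist_triangle_left x y z)
  rw [dist_comm x y]
  exact dist_triangle z y x

end PS97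

theorem st_PS : St_PS := by
  intro X _ hF x a z y
  have hlast : 0 ≤ sinh (dist z y) * √(2 * sinh (dist z x) * sinh (dist z a) *
      (cosh (dist z x + dist z a) - cosh (dist x a))) :=
    mul_nonneg (sinh_nonneg_iff.2 dist_nonneg) (sqrt_nonneg _)
  by_cases hx : z = x
  · subst hx
    simp only [dist_self, sinh_zero, zero_mul, add_zero, zero_add] at hlast ⊢
    linarith [mul_comm (sinh (dist z a)) (cosh (dist z y))]
  by_cases ha : z = a
  · subst ha
    simp only [dist_self, sinh_zero, zero_mul, add_zero, zero_add] at hlast ⊢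
    linarith [mul_comm (sinh (dist z x)) (cosh (dist z y))]
  by_cases hy : z = y
  · subst hy
    rw [dist_comm x z, dist_comm a z, dist_self, sinh_add, sinh_zero, cosh_zero]
    linarith [mul_comm (sinh (dist z a)) (cosh (dist z x))]
  have h4 := hF z x a y hx ha hy
  obtain ⟨w1, w2⟩ := PS97.rng' hx ha
  obtain ⟨v1, v2⟩ := PS97.rng' ha hy
  obtain ⟨u1, u2⟩ := PS97.rng' hy hx
  obtain ⟨s, hs0, hs, huv⟩ := PS97.ang u1 u2 v1 v2 w1 w2 h4
  have p1 : 0 < sinh (dist z x) := sinh_pos_iff.2 (dist_pos.2 hx)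
  have p2 : 0 < sinh (dist z a) := sinh_pos_iff.2 (dist_pos.2 ha)
  have p3 : 0 < sinh (dist z y) := sinh_pos_iff.2 (dist_pos.2 hy)
  rw [dist_comm y x] at huv
  rw [sinh_add, cosh_add]
  generalize sinh (dist z x) = S1 at *
  generalize sinh (dist z a) = S2 at *
  generalize sinh (dist z y) = Se at *
  generalize cosh (dist z x) = C1 at *
  generalize cosh (dist z a) = C2 at *
  generalize cosh (dist z y) = Ce at *
  generalize cosh (dist x a) = CL at *
  generalize cosh (dist x y) = D1 at *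
  generalize cosh (dist a y) = D2 at *
  have e1 : S1 * S2 * (2 * s ^ 2) = C1 * C2 + S1 * S2 - CL := by
    rw [hs]
    field_simp
    ring
  have hsq : 2 * S1 * S2 * s ≤ √(2 * S1 * S2 * (C1 * C2 + S1 * S2 - CL)) := by
    refine le_sqrt_of_sq_le ?_
    rw [← e1]
    exact le_of_eq (by ring)
  have e2 : Se * S1 * S2 * ((Ce * C1 - D1) / (Se * S1) + (C2 * Ce - D2) / (S2 * Se)) =
      S2 * (Ce * C1 - D1) + S1 * (C2 * Ce - D2) := by
    field_simp
  have h5 := mul_le_mul_of_nonneg_left huv (by positivity : 0 ≤ Se * S1 * S2)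
  rw [e2] at h5
  have h6 := mul_le_mul_of_nonneg_left hsq p3.le
  nlinarith

end Pool.Agent.Lib.AB79
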