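import Pool.Agent.Lib.AB79.Serv1

set_option autoImplicit false

namespace Pool.Agent.Lib.AB79
namespace T79

open Real Finset

variable {X : Type} [MetricSpace X]

theorem shift (f : ℕ → ℝ) (m t : ℕ) (β : ℝ) (h0 : ∀ i, 0 ≤ f i) (h1 : ∀ i, i < m + t → f i ≤ β) :
    ∑ i ∈ range m, f (i + t) ≤ ∑ i ∈ range m, f i + t * β := by
  have e1 := sum_range_add f m t
  have e2 := sum_range_add f t m
  rw [add_comm t m, e1] at e2
  have h2 : ∑ i ∈ range t, f (m + i) ≤ ∑ _i ∈ range t, β :=
    sum_le_sum fun i hi => h1 _ (by have := mem_range.1 hi; omega)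
  have h3 : 0 ≤ ∑ i ∈ range t, f i := sum_nonneg fun i _ => h0 i
  rw [sum_const, card_range, nsmul_eq_mul] at h2
  simp only [add_comm t] at e2
  linarith

omit [MetricSpace X] in
theorem enum (P : Finset X) (hP : 1 ≤ P.card) (B : ℕ) (hB : P.card ≤ B) :
    ∃ (e : Fin B → X) (wt : Fin B → ℝ), (∀ t, 0 ≤ wt t) ∧
      ∀ F : X → ℝ, ∑ t, wt t * F (e t) = (∑ a ∈ P, F a) / P.card := by
  classical
  obtain ⟨ι⟩ : Nonempty (P ↪ Fin B) := Function.Embedding.nonempty_of_card_le (by simpa using hB)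
  have : Nonempty P := (card_pos.1 hP).to_subtype
  refine ⟨fun t => (Function.invFun ι t : P).1, fun t => ∑ a : P, if ι a = t then 1 / P.card else 0,
    fun t => sum_nonneg fun a _ => by split_ifs <;> positivity, fun F => ?_⟩
  simp only [sum_mul]
  rw [sum_comm, ← sum_coe_sort P F, sum_div]
  refine sum_congr rfl fun a _ => ?_
  simp only [ite_mul, zero_mul, sum_ite_eq, mem_univ, if_true]
  rw [Function.leftInverse_invFun ι.injective a]
  ring

theorem envelope {ι : Type} (T : Finset ι) (G : ι → X → ℝ) (Λ η : ℝ) (hΛ : 0 ≤ Λ)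
    (hG : ∀ t u v, G t u ≤ G t v + Λ * dist u v) :
    ∃ ρ : X → ℝ, (∀ u v, ρ u ≤ ρ v + Λ * dist u v) ∧ (∀ u, η ≤ ρ u) ∧
      (∀ t ∈ T, ∀ u, G t u ≤ ρ u) ∧ ∀ u, ρ u = η ∨ ∃ t ∈ T, ρ u = G t u := by
  classical
  induction T using Finset.induction_on with
  | empty => exact ⟨fun _ => η, fun u v => le_add_of_nonneg_right (by positivity),
      fun _ => le_rfl, by simp, fun _ => Or.inl rfl⟩
  | insert a T _ ih =>
    obtain ⟨ρ, h1, h2, h3, h4⟩ := ih
    refine ⟨fun u => max (ρ u) (G a u), fun u v => max_le ?_ ?_, fun u => (h2 u).trans (le_max_left _ _),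
      fun t ht u => ?_, fun u => ?_⟩
    · linarith [h1 u v, le_max_left (ρ v) (G a v)]
    · linarith [hG a u v, le_max_right (ρ v) (G a v)]
    · rcases mem_insert.1 ht with rfl | ht
      · exact le_max_right _ _
      · exact (h3 t ht u).trans (le_max_left _ _)
    · rcases max_choice (ρ u) (G a u) with h | h
      · rcases h4 u with h5 | ⟨t, ht, h5⟩
        · exact Or.inl (h.trans h5)
        · exact Or.inr ⟨t, mem_insert_of_mem ht, h.trans h5⟩
      · exact Or.inr ⟨a, mem_insert_self _ _, h⟩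

/-- logarithmic packing content -/
noncomputable def Lam (n m : ℕ) (x : X) (S : ℝ) : ℝ := ∑ i ∈ range m, Real.log (pp n i x S)

theorem log_pp_nonneg (n i : ℕ) (x : X) (S : ℝ) : 0 ≤ Real.log (pp n i x S) :=
  Real.log_natCast_nonneg _

theorem log_pp_le {n g i : ℕ} (hn : 1 ≤ n) (hg : 1 ≤ g) (hng : n ≤ 2 ^ g) (hP : PackB X n)
    (hi : i ≤ 2000 * n * g + 3) (x : X) {S : ℝ} (hS : 0 < S) (hS1 : S ≤ ka n) :
    Real.log (pp n i x S) ≤ 82 * n * g * Real.log 2 := by
  have h1 : ((pp n i x S : ℕ) : ℝ) ≤ ((2 ^ (82 * n * g) : ℕ) : ℝ) := by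
    exact_mod_cast pp_le hn hg hng hP hi x hS hS1
  have h2 : (1 : ℝ) ≤ (pp n i x S : ℕ) := by exact_mod_cast one_le_pp hn hP i x hS
  have := Real.log_le_log (by linarith) h1
  push_cast at this
  rw [Real.log_pow] at this
  push_cast at this
  exact this

theorem serve {n g : ℕ} (hn : 1 ≤ n) (hg : 1 ≤ g) (hng : n ≤ 2 ^ g) (hP : PackB X n)
    (hc : CMP X) (hG : GAIN X) {x y u x' : X} {s R S' : ℝ} (hs : 0 < s) (h1 : s ≤ R / 2)
    (hRS : R ≤ S') (h2 : S' ≤ ka n) (hd : dist x y = ka n / 100 * s) (h3 : dist x u ≤ ka n * R)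
    (h4 : dist y u ≤ ka n * R) (h5 : dist x' u ≤ ka n * S')
    (hL : Lam n (2000 * n * g) x s ≤ Lam n (2000 * n * g) x' S' + 82 * n * g * Real.log 2)
    (P : ℕ → Finset X) (p1 : ∀ i, (P i).card = pp n i u R) (p2 : ∀ i, ∀ a ∈ P i, dist u a ≤ R)
    (p3 : ∀ i, Sep (sg n i * R) (P i)) :
    ((2000 * n * g : ℕ) : ℝ) * ((ka n / 1600 * dist x y) ^ 2 / 8) ≤ ∑ i ∈ range (2000 * n * g),
      (∑ a ∈ P i, (dist x a - dist y a) ^ 2) / (P i).card := by
  classical
  have hR : 0 < R := by linarith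
  have hk0 := ka_pos hn
  have hpos : ∀ i (z : X) (S : ℝ), 0 < S → (0 : ℝ) < (pp n i z S : ℕ) := fun i z S hS => by
    exact_mod_cast one_le_pp hn hP i z hS
  set c := ka n / 1600 * dist x y with hcdef
  have hc0 : 0 ≤ c := by positivity
  set A : ℕ → Finset X := fun i => (P i).filter fun a => |dist x a - dist y a| ≤ c with hA
  set I : ℕ → Prop := fun i => 3 * (P i).card ≤ 4 * (A i).card with hI
  have k1 : ∀ i, Real.log (pp n i u R) + (if I i then Real.log 2 / 2 else 0) ≤
      Real.log (pp n (i + 3) x s) := by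
    intro i
    split_ifs with h
    · have g1 := gain_pp hn hP hG i hs h1 (hRS.trans h2) hd h3 h4 (A := A i)
        (fun a ha => p2 i a (mem_filter.1 ha).1)
        (fun a ha b hb => p3 i a (mem_filter.1 ha).1 b (mem_filter.1 hb).1)
        (fun a ha => (mem_filter.1 ha).2)
      have g2 : 3 * pp n i u R ≤ 2 * pp n (i + 3) x s := by
        have : 3 * (P i).card ≤ 4 * (A i).card := h
        rw [p1] at this; omega
      have g3 : (pp n i u R : ℝ) * (3 / 2) ≤ (pp n (i + 3) x s : ℕ) := by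
        have : ((3 * pp n i u R : ℕ) : ℝ) ≤ ((2 * pp n (i + 3) x s : ℕ) : ℝ) := by exact_mod_cast g2
        push_cast at this; linarith
      have g4 := Real.log_le_log (mul_pos (hpos i u R hR) (by norm_num)) g3
      rw [Real.log_mul (hpos i u R hR).ne' (by norm_num)] at g4
      have g5 : Real.log 2 ≤ Real.log ((3 / 2) ^ 2) := Real.log_le_log (by norm_num) (by norm_num)
      rw [Real.log_pow] at g5
      push_cast at g5
      linarith
    · rw [add_zero]
      refine Real.log_le_log (hpos i u R hR) ?_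
      exact_mod_cast cmp_pp hn hP hc i 3 (by norm_num) hs (by linarith) (hRS.trans h2)
        (by rwa [dist_comm])
  have k2 := sum_le_sum fun i (_ : i ∈ range (2000 * n * g)) => k1 i
  have k3 := shift (fun i => Real.log (pp n i x s)) (2000 * n * g) 3 _ (fun i => log_pp_nonneg n i x s)
    (fun i hi => log_pp_le hn hg hng hP hi.le x hs (by linarith))
  have k4 := shift (fun i => Real.log (pp n i u R)) (2000 * n * g) 2 _ (fun i => log_pp_nonneg n i u R)
    (fun i hi => log_pp_le hn hg hng hP (by omega) u hR (hRS.trans h2))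
  have k5 : Lam n (2000 * n * g) x' S' ≤ ∑ i ∈ range (2000 * n * g), Real.log (pp n (i + 2) u R) :=
    sum_le_sum fun i _ => Real.log_le_log (hpos i x' S' (by linarith))
      (by exact_mod_cast cmp_pp hn hP hc i 2 le_rfl hR hRS h2 h5)
  rw [sum_add_distrib, ← sum_filter, sum_const, nsmul_eq_mul] at k2
  unfold Lam at hL k5
  have hl2 : 0 < Real.log 2 := Real.log_pos (by norm_num)
  have k6 : (((range (2000 * n * g)).filter I).card : ℝ) ≤ 984 * n * g := by
    push_cast at k3 k4
    refine le_of_mul_le_mul_right ?_ hl2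
    linarith
  have k7 : ∀ i, c ^ 2 / 4 - (if I i then c ^ 2 / 4 else 0) ≤
      (∑ a ∈ P i, (dist x a - dist y a) ^ 2) / (P i).card := by
    intro i
    have hp : (0 : ℝ) < (P i).card := by rw [p1]; exact hpos i u R hR
    split_ifs with h
    · rw [sub_self]; positivity
    · have g1 : ∑ a ∈ P i, (c ^ 2 - if |dist x a - dist y a| ≤ c then c ^ 2 else 0) ≤
          ∑ a ∈ P i, (dist x a - dist y a) ^ 2 := sum_le_sum fun a _ => by
        split_ifs with h'
        · rw [sub_self]; positivity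
        · rw [sub_zero, ← sq_abs (dist x a - dist y a)]
          exact pow_le_pow_left₀ hc0 (not_le.1 h').le 2
      rw [sum_sub_distrib, sum_const, ← sum_filter, sum_const, nsmul_eq_mul, nsmul_eq_mul] at g1
      have g2 : 4 * (A i).card ≤ 3 * (P i).card := (not_le.1 h).le
      have g3 : 4 * ((A i).card : ℝ) ≤ 3 * (P i).card := by exact_mod_cast g2
      rw [sub_zero, le_div_iff₀ hp]
      nlinarith [sq_nonneg c]
  have k8 := sum_le_sum fun i (_ : i ∈ range (2000 * n * g)) => k7 i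
  rw [sum_sub_distrib, sum_const, ← sum_filter, sum_const, nsmul_eq_mul, nsmul_eq_mul,
    card_range] at k8
  refine le_trans ?_ k8
  push_cast
  have : (0 : ℝ) ≤ n * g := by positivity
  nlinarith [sq_nonneg c, mul_nonneg this (sq_nonneg c)]

theorem exists_eta (A : Finset X) {κ : ℝ} (hκ : 0 < κ) :
    ∃ η : ℝ, 0 < η ∧ η ≤ κ ∧ ∀ x ∈ A, ∀ y ∈ A, x ≠ y → η ≤ dist x y := by
  have h1 : ∀ᶠ η in nhdsWithin (0 : ℝ) (Set.Ioi 0), ∀ x ∈ A, ∀ y ∈ A, x ≠ y → η ≤ dist x y := by
    refine (Filter.eventually_all_finset A).2 fun x _ => (Filter.eventually_all_finset A).2 fun y _ => ?_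
    by_cases h : x = y
    · simp [h]
    · exact Filter.mem_of_superset (mem_nhdsWithin_of_mem_nhds (Iic_mem_nhds (dist_pos.2 h)))
        fun η hη _ => hη
  have h2 : ∀ᶠ η in nhdsWithin (0 : ℝ) (Set.Ioi 0), η ≤ κ :=
    mem_nhdsWithin_of_mem_nhds (Iic_mem_nhds hκ)
  obtain ⟨η, h3, h4, h5⟩ := (h1.and (h2.and self_mem_nhdsWithin)).exists
  exact ⟨η, h5, h4, h3⟩

end T79

open Real Finset T79

theorem st_SERV : St_SERV := by
  classical
  intro X _ n g hn hg hng hP hc hG A
  have hn' : (1 : ℝ) ≤ n := by exact_mod_cast hn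
  have hg' : (1 : ℝ) ≤ g := by exact_mod_cast hg
  have hk := ka_le hn
  have hk0 := ka_pos hn
  have hl2 : 0 < Real.log 2 := Real.log_pos (by norm_num)
  have hβ : 0 < 82 * (n : ℝ) * g * Real.log 2 := by positivity
  obtain ⟨η, hη0, hη1, hη2⟩ := exists_eta A hk0
  set lev : X × X → ℕ := fun q =>
    ⌊Lam n (2000 * n * g) q.1 (100 * dist q.1 q.2 / ka n) / (82 * n * g * Real.log 2)⌋₊ with hlev
  set T : ℕ → Finset (X × X) := fun k => (A ×ˢ A).filter fun q =>
    100 * dist q.1 q.2 / ka n ≤ ka n ∧ lev q = k with hT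
  choose ρ r1 r2 r3 r4 using fun k => envelope (T k)
    (fun q u => 100 * dist q.1 q.2 / ka n - dist q.1 u / ka n) (1 / ka n) η (by positivity)
    (fun q u v => by
      have h1 : dist q.1 v ≤ dist q.1 u + dist u v := dist_triangle _ _ _
      have h2 : dist q.1 v / ka n ≤ (dist q.1 u + dist u v) / ka n := by gcongr
      rw [add_div] at h2
      rw [one_div_mul_eq_div]
      linarith)
  have r5 : ∀ k u, 0 < ρ k u / 2 := fun k u => by linarith [r2 k u]
  have r6 : ∀ k u, ρ k u ≤ ka n := fun k u => by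
    rcases r4 k u with h | ⟨q, hq, h⟩
    · linarith
    · have h1 := (mem_filter.1 hq).2.1
      have : 0 ≤ dist q.1 u / ka n := by positivity
      linarith
  choose P p1 p2 p3 using fun k u i => pp_spec hn hP i u (r5 k u)
  have hc1 : ∀ k u i, 1 ≤ (P k u i).card := fun k u i => by
    rw [p1]; exact one_le_pp hn hP i u (r5 k u)
  choose e wt w1 w2 using fun k u (i : Fin (2000 * n * g)) => enum (P k u i) (hc1 k u i)
    (2 ^ (82 * n * g)) (by
      rw [p1]
      exact pp_le hn hg hng hP (by omega) u (r5 k u) (by linarith [r6 k u, r5 k u]))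
  have hm : (0 : ℝ) < ((2000 * n * g : ℕ) : ℝ) := by push_cast; positivity
  have w3 : ∀ k u (F : X → ℝ), ∑ t : Fin (2000 * n * g) × Fin (2 ^ (82 * n * g)),
      wt k u t.1 t.2 / ((2000 * n * g : ℕ) : ℝ) * F (e k u t.1 t.2) =
        (∑ i ∈ range (2000 * n * g), (∑ a ∈ P k u i, F a) / (P k u i).card) /
          ((2000 * n * g : ℕ) : ℝ) := fun k u F => by
    rw [Fintype.sum_prod_type, sum_range, sum_div]
    refine sum_congr rfl fun i _ => ?_
    rw [← w2 k u i F, sum_div]
    exact sum_congr rfl fun t _ => by ring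
  refine ⟨fun k u => ka n * ρ k u / 1000, fun k u t => e k u t.1 t.2,
    fun k u t => wt k u t.1 t.2 / ((2000 * n * g : ℕ) : ℝ), fun k => ⟨fun u => ?_, fun u => ?_,
      fun u v => ?_⟩, fun k u t => div_nonneg (w1 _ _ _ _) hm.le, fun k u => ?_,
      fun x hx y hy hxy hd => ?_⟩
  · have := r5 k u
    exact div_pos (mul_pos hk0 (by linarith)) (by norm_num)
  · have := r6 k u
    show ka n * ρ k u / 1000 ≤ 1 / 60
    nlinarith
  · have h1 := mul_le_mul_of_nonneg_left (r1 k u v) hk0.le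
    rw [mul_add, ← mul_assoc, mul_one_div_cancel hk0.ne', one_mul] at h1
    show ka n * ρ k u / 1000 ≤ ka n * ρ k v / 1000 + dist u v / 1000
    linarith
  · have := w3 k u (fun _ => 1)
    simp only [mul_one] at this
    rw [this, sum_congr rfl (g := fun _ => (1 : ℝ)) fun i _ => by
      rw [sum_const, nsmul_eq_mul, mul_one, div_self (by have := hc1 k u i; positivity)]]
    rw [sum_const, card_range, nsmul_eq_mul, mul_one, div_self hm.ne']
  have hd0 : 0 < dist x y := dist_pos.2 hxy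
  set s := 100 * dist x y / ka n with hs
  have hs0 : 0 < s := by positivity
  have hds : dist x y = ka n / 100 * s := by rw [hs]; field_simp
  have hs1 : s ≤ ka n := by
    rw [hs, div_le_iff₀ hk0]
    have : ka n * ka n = 100 * (1 / (1000000 * (n : ℝ) ^ 2)) := by unfold ka; field_simp; norm_num
    linarith
  have hq : (x, y) ∈ T (lev (x, y)) := mem_filter.2 ⟨mem_product.2 ⟨hx, hy⟩, hs1, rfl⟩
  have hL0 : ∀ (z : X) (S : ℝ), 0 ≤ Lam n (2000 * n * g) z S := fun z S =>
    sum_nonneg fun i _ => log_pp_nonneg n i z S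
  refine ⟨lev (x, y), ?_, ?_, fun u h1 h2 h3 => ?_⟩
  · refine Nat.floor_le_of_le ?_
    rw [div_le_iff₀ hβ]
    have : Lam n (2000 * n * g) x s ≤ ∑ _i ∈ range (2000 * n * g), 82 * (n : ℝ) * g * Real.log 2 :=
      sum_le_sum fun i hi => log_pp_le hn hg hng hP (by have := mem_range.1 hi; omega) x hs0 hs1
    rwa [sum_const, card_range, nsmul_eq_mul] at this
  · have := r3 _ _ hq x
    simp only [dist_self, zero_div, sub_zero] at this
    rw [hds]
    nlinarith
  generalize hkk : lev (x, y) = k at *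
  have h4 : 5 * s ≤ ρ k u := by
    rw [hds] at h3
    refine le_of_mul_le_mul_left ?_ hk0
    linarith
  have h5 := hη2 x hx y hy hxy
  rcases r4 k u with h | ⟨q, hq', h⟩
  · nlinarith
  obtain ⟨-, q1, q2⟩ := mem_filter.1 hq'
  have hρ := r5 k u
  have h6 : 0 ≤ dist q.1 u / ka n := by positivity
  have key := serve hn hg hng hP hc hG (x := x) (y := y) (u := u) (x' := q.1) (s := s)
    (R := ρ k u / 2) (S' := 100 * dist q.1 q.2 / ka n) hs0 (by linarith) (by linarith) q1 hds
    (by nlinarith) (by nlinarith)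
    (by rw [← div_le_iff₀' hk0]; linarith)
    (by
      have a1 := Nat.lt_floor_add_one (Lam n (2000 * n * g) x s / (82 * n * g * Real.log 2))
      have a2 := Nat.floor_le (div_nonneg (hL0 q.1 (100 * dist q.1 q.2 / ka n)) hβ.le)
      have a3 : ⌊Lam n (2000 * n * g) x s / (82 * n * g * Real.log 2)⌋₊ = k := hkk
      have a4 : ⌊Lam n (2000 * n * g) q.1 (100 * dist q.1 q.2 / ka n) /
        (82 * n * g * Real.log 2)⌋₊ = k := q2
      rw [a3, div_lt_iff₀ hβ] at a1
      rw [a4, le_div_iff₀ hβ] at a2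
      linarith)
    (P k u) (p1 k u) (p2 k u) (p3 k u)
  rw [w3 k u (fun a => (dist x a - dist y a) ^ 2), le_div_iff₀ hm]
  refine le_trans ?_ key
  rw [mul_comm]
  gcongr
  have : ka n / 1600 * dist x y = dist x y / (160000 * n) := by unfold ka; field_simp; norm_num
  rw [this, div_pow, div_pow, div_div]
  exact div_le_div_of_nonneg_left (sq_nonneg _) (by positivity) (by nlinarith)

end Pool.Agent.Lib.AB79
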