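import Pool.Agent.Lib.AB79.Defs

/-! Trigonometric features and the passage from finite subsets to the whole set. -/

set_option autoImplicit false

namespace Pool.Agent.Lib.AB79

open Real Finset

namespace T55

theorem chord (w a b : ℝ) (hw : 0 ≤ w) :
    (√w * cos a - √w * cos b) ^ 2 + (√w * sin a - √w * sin b) ^ 2 = w * (2 - 2 * cos (a - b)) := by
  have h := Real.sq_sqrt hw
  rw [Real.cos_sub]
  linear_combination ((cos a - cos b) ^ 2 + (sin a - sin b) ^ 2) * h +
    w * (Real.sin_sq_add_cos_sq a + Real.sin_sq_add_cos_sq b)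

theorem low {u : ℝ} (hu : |u| ≤ 3) : u ^ 2 / 3 ≤ 2 - 2 * cos u := by
  have h1 := Real.cos_le_one_sub_mul_cos_sq (hu.trans Real.pi_gt_three.le)
  have h2 : π ^ 2 ≤ 12 := by nlinarith [Real.pi_lt_d2, Real.pi_pos]
  have h3 : 1 / 6 * u ^ 2 ≤ 2 / π ^ 2 * u ^ 2 := by
    refine mul_le_mul_of_nonneg_right ?_ (sq_nonneg u)
    rw [div_le_div_iff₀ (by norm_num) (by positivity)]
    linarith
  linarith

end T55

theorem st_TR : St_TR := by
  intro X _ T _ e wt δ hδ hw h1
  refine ⟨fun j x p => √(wt j p.1) *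
    (if p.2 then cos (dist x (e j p.1) / δ j) else sin (dist x (e j p.1) / δ j)), fun j x => ?_, ?_⟩
  · rw [Fintype.sum_prod_type, ← h1 j]
    refine Finset.sum_congr rfl fun t _ => ?_
    have h := Real.sq_sqrt (hw j t)
    simp only [Fintype.sum_bool, if_true, Bool.false_eq_true, if_false]
    linear_combination (cos (dist x (e j t) / δ j) ^ 2 + sin (dist x (e j t) / δ j) ^ 2) * h +
      wt j t * Real.sin_sq_add_cos_sq (dist x (e j t) / δ j)
  have key : ∀ j x y, δ j ^ 2 * ∑ p : T × Bool, (√(wt j p.1) *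
      (if p.2 then cos (dist x (e j p.1) / δ j) else sin (dist x (e j p.1) / δ j)) - √(wt j p.1) *
      (if p.2 then cos (dist y (e j p.1) / δ j) else sin (dist y (e j p.1) / δ j))) ^ 2 =
      ∑ t, wt j t * (δ j ^ 2 * (2 - 2 * cos ((dist x (e j t) - dist y (e j t)) / δ j))) := by
    intro j x y
    rw [Fintype.sum_prod_type, Finset.mul_sum]
    refine Finset.sum_congr rfl fun t _ => ?_
    simp only [Fintype.sum_bool, if_true, Bool.false_eq_true, if_false]
    rw [T55.chord _ _ _ (hw j t), sub_div]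
    ring
  have hsq : ∀ j (u : ℝ), δ j ^ 2 * (u / δ j) ^ 2 = u ^ 2 := fun j u => by
    have := (hδ j).ne'
    field_simp
  refine ⟨fun j x y => ?_, fun j x y hxy => ?_⟩
  · rw [key, ← one_mul (dist x y ^ 2), ← h1 j, Finset.sum_mul]
    refine Finset.sum_le_sum fun t _ => mul_le_mul_of_nonneg_left ?_ (hw j t)
    have h2 := Real.one_sub_sq_div_two_le_cos (x := (dist x (e j t) - dist y (e j t)) / δ j)
    have h3 : (dist x (e j t) - dist y (e j t)) ^ 2 ≤ dist x y ^ 2 :=
      sq_le_sq' (abs_le.mp (abs_dist_sub_le x y (e j t))).1 (abs_le.mp (abs_dist_sub_le x y _)).2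
    refine le_trans ?_ ((hsq j _).trans_le h3)
    exact mul_le_mul_of_nonneg_left (by linarith) (sq_nonneg _)
  · rw [key, Finset.sum_div]
    refine Finset.sum_le_sum fun t _ => ?_
    rw [mul_div_assoc]
    refine mul_le_mul_of_nonneg_left ?_ (hw j t)
    have h2 : |(dist x (e j t) - dist y (e j t)) / δ j| ≤ 3 := by
      rw [abs_div, abs_of_pos (hδ j), div_le_iff₀ (hδ j)]
      exact (abs_dist_sub_le x y _).trans hxy
    rw [← hsq j (dist x (e j t) - dist y (e j t)), mul_div_assoc]
    exact mul_le_mul_of_nonneg_left (T55.low h2) (sq_nonneg _)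

theorem st_TY : St_TY := by
  classical
  intro X _ Ω _ A l Λ hl hΛ h
  rcases A.eq_empty_or_nonempty with rfl | ⟨x₀, hx₀⟩
  · exact ⟨fun _ => 0, fun x hx => absurd hx (Set.notMem_empty x)⟩
  have hK : IsCompact (Set.univ.pi fun x : X =>
      Metric.closedBall (0 : EuclideanSpace ℝ (Fin (Fintype.card Ω))) (Λ * dist x x₀)) :=
    isCompact_univ_pi fun x => isCompact_closedBall _ _
  obtain ⟨f, -, hf⟩ := hK.inter_iInter_nonempty
    (fun p : A × A => {f | l * dist (p.1 : X) p.2 ≤ dist (f p.1) (f p.2) ∧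
      dist (f p.1) (f p.2) ≤ Λ * dist (p.1 : X) p.2})
    (fun p => IsClosed.and (isClosed_le continuous_const (by fun_prop))
      (isClosed_le (by fun_prop) continuous_const)) fun u => by
      obtain ⟨E, hE⟩ := h (insert x₀ (u.image (fun p => (p.1 : X)) ∪ u.image fun p => (p.2 : X)))
        (by
          intro x hx
          simp only [Finset.mem_insert, Finset.mem_union, Finset.mem_image] at hx
          rcases hx with rfl | ⟨p, -, rfl⟩ | ⟨p, -, rfl⟩
          exacts [hx₀, p.1.2, p.2.2])
      set F := insert x₀ (u.image (fun p => (p.1 : X)) ∪ u.image fun p => (p.2 : X)) with hF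
      set g : X → EuclideanSpace ℝ (Fin (Fintype.card Ω)) := fun x =>
        WithLp.toLp 2 fun i => E x ((Fintype.equivFin Ω).symm i) with hg
      have hd : ∀ x ∈ F, ∀ y ∈ F, l * dist x y ≤ dist (g x) (g y) ∧
          dist (g x) (g y) ≤ Λ * dist x y := fun x hx y hy => by
        have h1 : dist (g x) (g y) ^ 2 = ∑ ω, (E x ω - E y ω) ^ 2 := by
          rw [EuclideanSpace.dist_sq_eq, ← (Fintype.equivFin Ω).symm.sum_comp]
          exact Finset.sum_congr rfl fun i _ => by rw [Real.dist_eq, sq_abs]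
        obtain ⟨h2, h3⟩ := hE x hx y hy
        rw [← h1] at h2 h3
        exact ⟨le_of_pow_le_pow_left₀ two_ne_zero dist_nonneg h2,
          le_of_pow_le_pow_left₀ two_ne_zero (by positivity) h3⟩
      have h0 : x₀ ∈ F := Finset.mem_insert_self _ _
      refine ⟨fun x => if x ∈ F then g x - g x₀ else 0, fun x _ => ?_, ?_⟩
      · beta_reduce
        split_ifs with hx
        · rw [mem_closedBall_zero_iff, ← dist_eq_norm]
          exact (hd x hx x₀ h0).2
        · exact Metric.mem_closedBall_self (by positivity)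
      · simp only [Set.mem_iInter, Set.mem_ofPred_eq]
        intro p hp
        have h1 : (p.1 : X) ∈ F := Finset.mem_insert_of_mem
          (Finset.mem_union_left _ (Finset.mem_image_of_mem _ hp))
        have h2 : (p.2 : X) ∈ F := Finset.mem_insert_of_mem
          (Finset.mem_union_right _ (Finset.mem_image_of_mem _ hp))
        rw [if_pos h1, if_pos h2, dist_sub_right]
        exact hd _ h1 _ h2
  exact ⟨f, fun x hx y hy => Set.mem_iInter.mp hf (⟨x, hx⟩, ⟨y, hy⟩)⟩

end Pool.Agent.Lib.AB79
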