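import Pool.Agent.Lib.AB79.Defs

/-! Row W: a coloured partition of unity in the square sense. -/

set_option autoImplicit false

namespace Pool.Agent.Lib.AB79

open Real Finset

namespace W14

variable {X : Type} [MetricSpace X]

theorem net (A : Finset X) (r : X → ℝ) (hr : ∀ u, 0 < r u) :
    ∃ J : Finset X, J ⊆ A ∧ (∀ j ∈ J, ∀ j' ∈ J, j ≠ j' → min (r j) (r j') ≤ dist j j') ∧
      ∀ x ∈ A, ∃ j ∈ J, dist x j ≤ r j := by
  classical
  obtain ⟨P, hP⟩ : ∃ P : Finset X → Prop,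
      ∀ J, P J ↔ ∀ j ∈ J, ∀ j' ∈ J, j ≠ j' → min (r j) (r j') ≤ dist j j' := ⟨_, fun _ => Iff.rfl⟩
  obtain ⟨J, hJ, hmax⟩ := Finset.exists_max_image (A.powerset.filter P)
    Finset.card ⟨∅, by simp [hP]⟩
  rw [Finset.mem_filter, Finset.mem_powerset, hP] at hJ
  refine ⟨J, hJ.1, hJ.2, fun x hx => ?_⟩
  by_contra hne
  push Not at hne
  have hxJ : x ∉ J := fun h => by
    have h1 := hne x h
    rw [dist_self] at h1
    exact absurd (hr x) (not_lt.2 h1.le)
  have h2 := hmax (insert x J) (by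
    rw [Finset.mem_filter, Finset.mem_powerset, hP]
    refine ⟨Finset.insert_subset hx hJ.1, fun j hj j' hj' hjj => ?_⟩
    rcases Finset.mem_insert.1 hj with e | h1
    · rcases Finset.mem_insert.1 hj' with e' | h2
      · exact absurd (e.trans e'.symm) hjj
      · rw [e]; exact (min_le_right _ _).trans (hne j' h2).le
    · rcases Finset.mem_insert.1 hj' with e' | h2
      · rw [e', dist_comm]; exact (min_le_left _ _).trans (hne j h1).le
      · exact hJ.2 j h1 j' h2 hjj)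
  rw [Finset.card_insert_of_notMem hxJ] at h2
  omega

theorem colour (hGR : St_GR) (J : Finset X) (r : X → ℝ) (K : ℕ) (hr : Rad r) (hK : LocK X K)
    (h1 : 1 ≤ K) (hsep : ∀ j ∈ J, ∀ j' ∈ J, j ≠ j' → min (r j) (r j') ≤ dist j j') :
    ∃ col : X → Fin K, ∀ j ∈ J, ∀ j' ∈ J, j ≠ j' →
      dist j j' ≤ 50 * max (r j) (r j') → col j ≠ col j' := by
  classical
  haveI : Nonempty (Fin K) := ⟨⟨0, h1⟩⟩
  obtain ⟨col, hc⟩ := hGR X (Fin K) J (fun a b => dist a b ≤ 50 * max (r a) (r b)) Eq (K - 1) 1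
    (fun a b h => by rwa [dist_comm, max_comm]) (fun c c' h => h.symm)
    (fun c S h => Finset.card_le_one.2 fun a ha b hb => (h a ha).symm.trans (h b hb))
    (fun j hj S hS h => by
      have hjS : j ∉ S := fun hm => (h j hm).1 rfl
      have key : ∀ a ∈ insert j S, dist j a ≤ 53 * r j ∧ 19 / 20 * r j ≤ r a := by
        intro a ha
        have h0 := hr.1 j
        rcases Finset.mem_insert.1 ha with rfl | ha
        · rw [dist_self]; constructor <;> linarith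
        · have h2 : dist j a ≤ 50 * max (r j) (r a) := (h a ha).2
          have h3 := hr.2.2 j a
          have h4 := hr.2.2 a j
          rw [dist_comm a j] at h4
          rcases le_total (r j) (r a) with h5 | h5
          · rw [max_eq_right h5] at h2; constructor <;> linarith
          · rw [max_eq_left h5] at h2; constructor <;> linarith
      have hsub : insert j S ⊆ J := Finset.insert_subset hj hS
      have h6 := hK j (r j) (hr.1 j) (hr.2.1 j) (insert j S) (fun a ha => (key a ha).1)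
        (fun a ha a' ha' hne =>
          (le_min (key a ha).2 (key a' ha').2).trans (hsep a (hsub ha) a' (hsub ha') hne))
      rw [Finset.card_insert_of_notMem hjS] at h6
      omega)
    (by rw [Fintype.card_fin]; omega)
  exact ⟨col, fun j hj j' hj' hne hd => hc j hj j' hj' hne hd⟩

/-- the tent function -/
noncomputable def tent (r : X → ℝ) (j x : X) : ℝ := max (2 - dist x j / r j) 0

theorem tent_nonneg (r : X → ℝ) (j x : X) : 0 ≤ tent r j x := le_max_right _ _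

theorem tent_act {r : X → ℝ} (hr : ∀ u, 0 < r u) {j x : X} (h : tent r j x ≠ 0) :
    dist x j ≤ 2 * r j := by
  have h1 : 0 < 2 - dist x j / r j := by
    by_contra h2
    exact h (max_eq_right (not_lt.1 h2))
  have h3 : dist x j / r j ≤ 2 := by linarith
  exact (div_le_iff₀ (hr j)).1 h3

theorem tent_one {r : X → ℝ} (hr : ∀ u, 0 < r u) {j x : X} (h : dist x j ≤ r j) :
    1 ≤ tent r j x := by
  have h1 : dist x j / r j ≤ 1 := (div_le_one (hr j)).2 h
  exact le_max_of_le_left (by linarith)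

theorem tent_lip {r : X → ℝ} (hr : ∀ u, 0 < r u) (j x y : X) :
    |tent r j x - tent r j y| ≤ dist x y / r j := by
  refine (abs_max_sub_max_le_abs _ _ _).trans ?_
  have h1 : 2 - dist x j / r j - (2 - dist y j / r j) = (dist y j - dist x j) / r j := by ring
  rw [h1, abs_div, abs_of_pos (hr j), dist_comm x y]
  exact div_le_div_of_nonneg_right (abs_dist_sub_le y x j) (hr j).le

theorem pow_sq_le (u v l : ℝ) (q : ℕ) (hu : 0 ≤ u) (hv : 0 ≤ v) (h : |u - v| ≤ l) :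
    (u ^ (q + 1) - v ^ (q + 1)) ^ 2 ≤
      ((q + 1 : ℕ) : ℝ) ^ 2 * l ^ 2 * ((u ^ q) ^ 2 + (v ^ q) ^ 2) := by
  have h1 := abs_pow_sub_pow_le u v (q + 1)
  rw [abs_of_nonneg hu, abs_of_nonneg hv, Nat.add_sub_cancel] at h1
  have hm : 0 ≤ max u v ^ q := pow_nonneg (le_max_of_le_left hu) q
  have h2 : |u ^ (q + 1) - v ^ (q + 1)| ≤ l * ((q + 1 : ℕ) : ℝ) * max u v ^ q :=
    h1.trans (mul_le_mul_of_nonneg_right (mul_le_mul_of_nonneg_right h (Nat.cast_nonneg _)) hm)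
  have h3 : (max u v ^ q) ^ 2 ≤ (u ^ q) ^ 2 + (v ^ q) ^ 2 := by
    rcases le_total u v with h4 | h4
    · rw [max_eq_right h4]; nlinarith [sq_nonneg (u ^ q)]
    · rw [max_eq_left h4]; nlinarith [sq_nonneg (v ^ q)]
  calc (u ^ (q + 1) - v ^ (q + 1)) ^ 2 = |u ^ (q + 1) - v ^ (q + 1)| ^ 2 := (sq_abs _).symm
    _ ≤ (l * ((q + 1 : ℕ) : ℝ) * max u v ^ q) ^ 2 := pow_le_pow_left₀ (abs_nonneg _) h2 2
    _ = ((q + 1 : ℕ) : ℝ) ^ 2 * l ^ 2 * (max u v ^ q) ^ 2 := by ring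
    _ ≤ _ := mul_le_mul_of_nonneg_left h3 (by positivity)

theorem low_le (u : ℝ) (q : ℕ) (hu : 0 ≤ u) :
    (u ^ q) ^ 2 ≤ 4 * (u ^ (q + 1)) ^ 2 + 1 / 4 ^ q := by
  have h0 : (0 : ℝ) ≤ 1 / 4 ^ q := by positivity
  rcases le_total u (1 / 2) with h | h
  · have h1 : u ^ q ≤ (1 / 2) ^ q := pow_le_pow_left₀ hu h q
    have h2 : (u ^ q) ^ 2 ≤ ((1 / 2 : ℝ) ^ q) ^ 2 := pow_le_pow_left₀ (pow_nonneg hu q) h1 2
    have h3 : ((1 / 2 : ℝ) ^ q) ^ 2 = 1 / 4 ^ q := by
      rw [← pow_mul, mul_comm, pow_mul, one_div, one_div, ← inv_pow]; norm_num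
    nlinarith [sq_nonneg (u ^ (q + 1))]
  · have h1 : 1 ≤ 4 * u ^ 2 := by nlinarith
    have h2 : 4 * (u ^ (q + 1)) ^ 2 = (u ^ q) ^ 2 * (4 * u ^ 2) := by ring
    nlinarith [sq_nonneg (u ^ q)]

theorem sum_low {J : Finset X} {r : X → ℝ} {K q : ℕ} (hr : Rad r) (hK : LocK X K) (hq : 1 ≤ q)
    (hKq : K ≤ 4 ^ q) (hsep : ∀ j ∈ J, ∀ j' ∈ J, j ≠ j' → min (r j) (r j') ≤ dist j j') (x : X) :
    ∑ j ∈ J, (tent r j x ^ q) ^ 2 ≤ 4 * ∑ j ∈ J, (tent r j x ^ (q + 1)) ^ 2 + 1 := by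
  classical
  set F := J.filter fun j => tent r j x ≠ 0 with hF
  have key : ∀ a ∈ F, dist x a ≤ 53 * r x ∧ 19 / 20 * r x ≤ r a := by
    intro a ha
    have h1 := tent_act hr.1 (Finset.mem_filter.1 ha).2
    have h2 := hr.2.2 x a
    have h3 := hr.2.2 a x
    rw [dist_comm a x] at h3
    have h4 := hr.1 x
    constructor <;> linarith
  have hsub : F ⊆ J := Finset.filter_subset _ _
  have hc : F.card ≤ K := hK x (r x) (hr.1 x) (hr.2.1 x) F (fun a ha => (key a ha).1)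
    (fun a ha a' ha' hne =>
      (le_min (key a ha).2 (key a' ha').2).trans (hsep a (hsub ha) a' (hsub ha') hne))
  have e1 : ∑ j ∈ J, (tent r j x ^ q) ^ 2 = ∑ j ∈ F, (tent r j x ^ q) ^ 2 := by
    refine (Finset.sum_subset hsub fun j hj hn => ?_).symm
    have h0 : tent r j x = 0 := by
      by_contra h
      exact hn (Finset.mem_filter.2 ⟨hj, h⟩)
    rw [h0, zero_pow (by omega)]; norm_num
  have e2 : ∑ j ∈ F, (tent r j x ^ (q + 1)) ^ 2 ≤ ∑ j ∈ J, (tent r j x ^ (q + 1)) ^ 2 :=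
    Finset.sum_le_sum_of_subset_of_nonneg hsub fun j _ _ => sq_nonneg _
  have e3 : ∑ j ∈ F, (tent r j x ^ q) ^ 2 ≤
      ∑ j ∈ F, (4 * (tent r j x ^ (q + 1)) ^ 2 + 1 / 4 ^ q) :=
    Finset.sum_le_sum fun j _ => low_le _ q (tent_nonneg r j x)
  rw [Finset.sum_add_distrib, ← Finset.mul_sum, Finset.sum_const, nsmul_eq_mul] at e3
  have e4 : (F.card : ℝ) * (1 / 4 ^ q) ≤ 1 := by
    rw [mul_one_div, div_le_one (by positivity)]
    exact_mod_cast hc.trans hKq
  rw [e1]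
  linarith

theorem norm_sq (J : Finset X) (v : X → ℝ) (h : 0 < ∑ j ∈ J, v j ^ 2) :
    ∑ j ∈ J, (v j / √(∑ j ∈ J, v j ^ 2)) ^ 2 = 1 := by
  simp only [div_pow]
  rw [← Finset.sum_div, Real.sq_sqrt h.le, div_self h.ne']

theorem unit_alg (a b S T : ℝ) (ha : 0 < a) (hb : 0 < b) (hS : 0 ≤ S) (hT : 0 ≤ T)
    (h : T = 2 - 2 * (S / (a * b))) :
    T * (a ^ 2 + b ^ 2) ≤ 4 * (a ^ 2 + b ^ 2 - 2 * S) := by
  set c := S / (a * b) with hc
  have h0 : 0 ≤ c := div_nonneg hS (mul_pos ha hb).le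
  have h1 : c ≤ 1 := by linarith
  have h2 : S = c * (a * b) := by rw [hc]; field_simp
  have h3 : 0 ≤ c * (1 - c) := mul_nonneg h0 (by linarith)
  rw [h, h2]
  nlinarith [sq_nonneg (b - c * a), sq_nonneg (a - c * b), mul_nonneg h3 (sq_nonneg a),
    mul_nonneg h3 (sq_nonneg b)]

theorem unit_le (J : Finset X) (v w : X → ℝ) (hv : ∀ j, 0 ≤ v j) (hw : ∀ j, 0 ≤ w j)
    (h1 : 0 < ∑ j ∈ J, v j ^ 2) (h2 : 0 < ∑ j ∈ J, w j ^ 2) :
    (∑ j ∈ J, (v j / √(∑ j ∈ J, v j ^ 2) - w j / √(∑ j ∈ J, w j ^ 2)) ^ 2) *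
      (∑ j ∈ J, v j ^ 2 + ∑ j ∈ J, w j ^ 2) ≤ 4 * ∑ j ∈ J, (v j - w j) ^ 2 := by
  have n1 := norm_sq J v h1
  have n2 := norm_sq J w h2
  have s1 := Real.sq_sqrt h1.le
  have s2 := Real.sq_sqrt h2.le
  have ha := Real.sqrt_pos.2 h1
  have hb := Real.sqrt_pos.2 h2
  set a := √(∑ j ∈ J, v j ^ 2)
  set b := √(∑ j ∈ J, w j ^ 2)
  have e1 : ∑ j ∈ J, (v j / a - w j / b) ^ 2 = 2 - 2 * ((∑ j ∈ J, v j * w j) / (a * b)) := by
    have e : ∀ j ∈ J, (v j / a - w j / b) ^ 2 =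
        (v j / a) ^ 2 + (w j / b) ^ 2 - 2 * (v j * w j / (a * b)) := fun j _ => by
      field_simp; ring
    rw [Finset.sum_congr rfl e, Finset.sum_sub_distrib, Finset.sum_add_distrib, n1, n2,
      ← Finset.mul_sum, ← Finset.sum_div]
    ring
  have e2 : ∑ j ∈ J, (v j - w j) ^ 2 = a ^ 2 + b ^ 2 - 2 * ∑ j ∈ J, v j * w j := by
    rw [s1, s2, Finset.mul_sum, ← Finset.sum_add_distrib, ← Finset.sum_sub_distrib]
    exact Finset.sum_congr rfl fun j _ => by ring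
  have h3 := unit_alg a b _ _ ha hb (Finset.sum_nonneg fun j _ => mul_nonneg (hv j) (hw j))
    (Finset.sum_nonneg fun j _ => sq_nonneg (v j / a - w j / b)) e1
  rw [e2, ← s1, ← s2]
  exact h3

theorem term_le {r : X → ℝ} (hr : Rad r) (q : ℕ) (j x y : X) (hd : dist x y ≤ r x) :
    (tent r j x ^ (q + 1) - tent r j y ^ (q + 1)) ^ 2 ≤
      ((q + 1 : ℕ) : ℝ) ^ 2 * (2 * dist x y / r x) ^ 2 *
        ((tent r j x ^ q) ^ 2 + (tent r j y ^ q) ^ 2) := by
  refine pow_sq_le _ _ _ q (tent_nonneg r j x) (tent_nonneg r j y) ?_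
  have hx := hr.1 x
  have hj := hr.1 j
  by_cases h0 : tent r j x = 0 ∧ tent r j y = 0
  · rw [h0.1, h0.2, sub_self, abs_zero]; positivity
  · have h1 : dist x j ≤ r x + 2 * r j := by
      rcases not_and_or.1 h0 with h | h
      · linarith [tent_act hr.1 h]
      · linarith [tent_act hr.1 h, dist_triangle x y j]
    have h2 := hr.2.2 x j
    refine (tent_lip hr.1 j x y).trans ?_
    rw [div_le_div_iff₀ hj hx]
    have h3 : r x ≤ 2 * r j := by linarith
    nlinarith [mul_le_mul_of_nonneg_left h3 (dist_nonneg (x := x) (y := y))]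

end W14

open W14 in
theorem st_W (hGR : St_GR) : St_W := by
  intro X _ A r K p hr hK h1 hp hKp
  obtain ⟨q, rfl⟩ : ∃ q, p = q + 1 := ⟨p - 1, by omega⟩
  rw [Nat.add_sub_cancel] at hKp
  obtain ⟨J, hJA, hsep, hcov⟩ := net A r hr.1
  obtain ⟨col, hcol⟩ := colour hGR J r K hr hK h1 hsep
  have hone : ∀ x ∈ A, 1 ≤ ∑ j ∈ J, (tent r j x ^ (q + 1)) ^ 2 := by
    intro x hx
    obtain ⟨j, hj, hd⟩ := hcov x hx
    refine le_trans ?_ (Finset.single_le_sum (f := fun j => (tent r j x ^ (q + 1)) ^ 2)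
      (fun j _ => sq_nonneg _) hj)
    exact one_le_pow₀ (one_le_pow₀ (tent_one hr.1 hd))
  refine ⟨J, col, fun j x => tent r j x ^ (q + 1) / √(∑ j ∈ J, (tent r j x ^ (q + 1)) ^ 2),
    hJA, hsep, fun j x => div_nonneg (pow_nonneg (tent_nonneg r j x) _) (Real.sqrt_nonneg _),
    fun j x h => tent_act hr.1 fun h0 => h (by simp [h0]),
    fun x hx => norm_sq J (fun j => tent r j x ^ (q + 1)) (by linarith [hone x hx]), hcol, ?_⟩
  intro x hx y hy hd
  have a1 := hone x hx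
  have a2 := hone y hy
  have b := unit_le J (fun j => tent r j x ^ (q + 1)) (fun j => tent r j y ^ (q + 1))
    (fun j => pow_nonneg (tent_nonneg r j x) _) (fun j => pow_nonneg (tent_nonneg r j y) _)
    (by linarith) (by linarith)
  have c := Finset.sum_le_sum fun j (_ : j ∈ J) => term_le hr q j x y hd
  rw [← Finset.mul_sum, Finset.sum_add_distrib] at c
  have d1 := sum_low hr hK (by omega) hKp hsep x
  have d2 := sum_low hr hK (by omega) hKp hsep y
  set N := ((q + 1 : ℕ) : ℝ) ^ 2 * (2 * dist x y / r x) ^ 2 with hN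
  have hN0 : 0 ≤ N := by positivity
  set a := ∑ j ∈ J, (tent r j x ^ (q + 1)) ^ 2
  set a' := ∑ j ∈ J, (tent r j y ^ (q + 1)) ^ 2
  have e : N * (∑ j ∈ J, (tent r j x ^ q) ^ 2 + ∑ j ∈ J, (tent r j y ^ q) ^ 2) ≤
      N * (5 * (a + a')) := mul_le_mul_of_nonneg_left (by linarith) hN0
  have f : 100 * ((q + 1 : ℕ) : ℝ) ^ 2 * dist x y ^ 2 / r x ^ 2 = 25 * N := by
    rw [hN]; ring
  rw [f]
  refine le_of_mul_le_mul_right (b.trans ?_) (by linarith : 0 < a + a')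
  nlinarith [mul_nonneg hN0 (by linarith : 0 ≤ a + a')]

end Pool.Agent.Lib.AB79
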