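import Pool.Agent.Lib.AB79.Defs

set_option autoImplicit false

namespace Pool.Agent.Lib.AB79

open Real Finset Filter Topology

theorem st_CAN' : St_CAN := by
  classical
  intro X _ _ n M x b β hd hb hβ hβ4 hch
  have hθ0 : 0 < β / 8 := by positivity
  have hθ1 : β / 8 ≤ 1 / 2 := by linarith
  have hone : (1 : ℝ) ≤ 8 / β := by rw [le_div_iff₀ hβ]; linarith
  rcases le_or_gt M 1 with hM | hM
  · exact le_trans (by exact_mod_cast hM) (one_le_pow₀ hone)
  set θ := β / 8 with hθ
  have hρ : ∀ k : ℕ, 0 < b * θ ^ k := fun k => by positivity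
  have hρb : ∀ k : ℕ, b * θ ^ k ≤ b := fun k =>
    mul_le_of_le_one_right hb.le (pow_le_one₀ hθ0.le (by linarith))
  have hρs : ∀ k : ℕ, 2 * (b * θ ^ (k + 1)) ≤ b * θ ^ k := fun k => by
    have := hρ k
    rw [pow_succ]; nlinarith
  have hch' : ∀ (z : X) (k : ℕ), ∃ c : Fin M → X, dist x z ≤ 2 * b →
      (∀ i, dist z (c i) ≤ b * θ ^ k) ∧ ∀ i j, i ≠ j → β * (b * θ ^ k) ≤ dist (c i) (c j) := by
    intro z k
    by_cases h : dist x z ≤ 2 * b
    · obtain ⟨c, hc⟩ := hch z h _ (hρ k) (hρb k)
      exact ⟨c, fun _ => hc⟩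
    · exact ⟨fun _ => x, fun h' => absurd h' h⟩
  choose c hc using hch'
  let z : (ℕ → Fin M) → ℕ → X := fun w k => Nat.rec x (fun k y => c y k (w k)) k
  have z1 : ∀ w k, z w (k + 1) = c (z w k) k (w k) := fun _ _ => rfl
  have z2 : ∀ w k, dist x (z w k) ≤ 2 * b - 2 * (b * θ ^ k) := by
    intro w k
    induction k with
    | zero => simp [z]
    | succ k ih =>
      have h1 := (hc (z w k) k (by linarith [hρ k])).1 (w k)
      have := dist_triangle x (z w k) (z w (k + 1))
      rw [← z1] at h1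
      linarith [hρs k]
  have z2' : ∀ w k, dist x (z w k) ≤ 2 * b := fun w k => by linarith [z2 w k, hρ k]
  have z3 : ∀ w k, dist (z w k) (z w (k + 1)) ≤ b * θ ^ k := fun w k => (hc _ k (z2' w k)).1 _
  have z4 : ∀ w w' k, (∀ i < k, w i = w' i) → z w k = z w' k := by
    intro w w' k
    induction k with
    | zero => intro _; rfl
    | succ k ih => intro h; rw [z1, z1, ih fun i hi => h i (by omega), h k (by omega)]
  choose F hF using fun w => cauchySeq_tendsto_of_complete
    (cauchySeq_of_le_geometric θ b (by linarith) (z3 w))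
  have F1 : ∀ w k, dist (z w k) (F w) ≤ 2 * (b * θ ^ k) := fun w k => by
    refine (dist_le_of_le_geometric_of_tendsto θ b (by linarith) (z3 w) (hF w) k).trans ?_
    rw [div_le_iff₀ (by linarith)]
    nlinarith [hρ k]
  have hM' : (1 : ℝ) < M := by exact_mod_cast hM
  have hlθ : Real.log θ < 0 := Real.log_neg hθ0 (by linarith)
  have hlM : 0 < Real.log M := Real.log_pos hM'
  set s : ℝ := Real.log M / (-Real.log θ) with hs
  have hs0 : 0 < s := div_pos hlM (by linarith)
  have key : ∀ w w', |ofDigits w - ofDigits w'| ≤ (2 / (β * b)) ^ s * dist (F w) (F w') ^ s := by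
    intro w w'
    by_cases h : ∃ k, w k ≠ w' k
    · have hk := Nat.find_spec h
      have hk' : ∀ i < Nat.find h, w i = w' i := fun i hi => not_not.1 (Nat.find_min h hi)
      set k := Nat.find h
      have a1 := (hc (z w k) k (z2' w k)).2 _ _ hk
      have a2 := F1 w (k + 1)
      have a3 := F1 w' (k + 1)
      rw [z1] at a2 a3
      rw [← z4 w w' k hk'] at a3
      have a4 := dist_triangle4_right (c (z w k) k (w k)) (c (z w k) k (w' k)) (F w) (F w')
      have a5 : b * θ ^ (k + 1) = β * (b * θ ^ k) / 8 := by rw [pow_succ, hθ]; ring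
      have a6 : θ ^ k ≤ 2 / (β * b) * dist (F w) (F w') := by
        rw [div_mul_eq_mul_div, le_div_iff₀ (by positivity)]; nlinarith
      refine (abs_ofDigits_sub_ofDigits_le hk').trans ?_
      rw [← mul_rpow (by positivity) dist_nonneg]
      refine le_trans (le_of_eq ?_) (rpow_le_rpow (by positivity) a6 hs0.le)
      rw [rpow_def_of_pos (by positivity), Real.log_pow, hs, ← exp_log (x := ((M : ℝ) ^ k)⁻¹) (by positivity),
        Real.log_inv, Real.log_pow]
      congr 1
      field_simp [hlθ.ne]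
    · have : w = w' := funext fun k => not_not.1 fun h' => h ⟨k, h'⟩
      rw [this, sub_self, abs_zero]; positivity
  have : Nonempty (ℕ → Fin M) := ⟨fun _ => ⟨0, by omega⟩⟩
  obtain ⟨s', hs'⟩ : ∃ s' : NNReal, (s' : ℝ) = s := ⟨s.toNNReal, Real.coe_toNNReal _ hs0.le⟩
  have hs'0 : 0 < s' := by rw [← NNReal.coe_pos, hs']; exact hs0
  have hH : HolderOnWith ((2 / (β * b)) ^ s).toNNReal s'
      (fun y => ofDigits (Function.invFun F y)) (Set.range F) := by
    intro y hy y' hy'
    have := key (Function.invFun F y) (Function.invFun F y')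
    rw [Function.invFun_eq hy, Function.invFun_eq hy'] at this
    rw [edist_dist, edist_dist, Real.dist_eq, hs',
      ENNReal.ofReal_rpow_of_nonneg dist_nonneg hs0.le]
    refine (ENNReal.ofReal_le_ofReal this).trans (le_of_eq ?_)
    rw [ENNReal.ofReal_mul (by positivity)]
    rfl
  have h1 := hH.dimH_image_le hs'0
  have h2 : Set.Icc (0 : ℝ) 1 ⊆ (fun y => ofDigits (Function.invFun F y)) '' Set.range F := by
    intro t ht
    obtain ⟨w, -, rfl⟩ := ofDigits_SurjOn hM ht
    refine ⟨F w, ⟨w, rfl⟩, ?_⟩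
    have := key (Function.invFun F (F w)) w
    rw [Function.invFun_eq (f := F) ⟨w, rfl⟩, dist_self, zero_rpow hs0.ne', mul_zero] at this
    exact sub_eq_zero.1 (abs_nonpos_iff.1 this)
  have h3 : dimH (Set.Icc (0 : ℝ) 1) = 1 := by
    rw [Real.dimH_of_mem_nhds (x := 1 / 2) (Icc_mem_nhds (by norm_num) (by norm_num))]; simp
  have h4 : (1 : ENNReal) ≤ (n : ENNReal) / s' :=
    h3 ▸ (dimH_mono h2).trans (h1.trans (ENNReal.div_le_div_right
      ((dimH_mono (Set.subset_univ _)).trans hd) _))
  rw [ENNReal.le_div_iff_mul_le (Or.inl (by exact_mod_cast hs'0.ne')) (Or.inl ENNReal.coe_ne_top),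
    one_mul] at h4
  have h5 : s ≤ n := by
    have : s' ≤ (n : NNReal) := by exact_mod_cast h4
    rw [← hs']
    exact_mod_cast this
  rw [hs, div_le_iff₀ (by linarith)] at h5
  rw [← Real.log_le_log_iff (by linarith) (by positivity), Real.log_pow,
    show 8 / β = θ⁻¹ by rw [hθ, inv_div], Real.log_inv]
  exact h5

end Pool.Agent.Lib.AB79
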