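import Mathlib

/-!
Definitions and block statements for the quantitative bi-Lipschitz embedding of bounded subsets
of Alexandrov spaces (problem MP_8ba857_gt).  See the paper ab79_PAPER.md.
-/

set_option autoImplicit false

namespace Pool.Agent.Lib.AB79

open Real Finset

/-- approximate midpoints -/
def AMid (X : Type) [MetricSpace X] : Prop :=
  ∀ x y : X, ∀ ε : ℝ, 0 < ε → ∃ z : X,
    dist x z ≤ dist x y / 2 + ε ∧ dist z y ≤ dist x y / 2 + ε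

/-- the hyperbolic four point condition -/
def Four (X : Type) [MetricSpace X] : Prop :=
  ∀ p a b c : X, p ≠ a → p ≠ b → p ≠ c →
    Real.arccos ((Real.cosh (dist p a) * Real.cosh (dist p b) - Real.cosh (dist a b)) /
        (Real.sinh (dist p a) * Real.sinh (dist p b)))
    + Real.arccos ((Real.cosh (dist p b) * Real.cosh (dist p c) - Real.cosh (dist b c)) /
        (Real.sinh (dist p b) * Real.sinh (dist p c)))
    + Real.arccos ((Real.cosh (dist p c) * Real.cosh (dist p a) - Real.cosh (dist c a)) /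
        (Real.sinh (dist p c) * Real.sinh (dist p a)))
    ≤ 2 * Real.pi

/-- point-side comparison with an error term (zero when `z` lies between `x` and `a`) -/
def PS (X : Type) [MetricSpace X] : Prop :=
  ∀ x a z y : X,
    sinh (dist z a) * cosh (dist x y) + sinh (dist z x) * cosh (dist a y) ≤
      cosh (dist z y) * sinh (dist z x + dist z a) +
        sinh (dist z y) * √(2 * sinh (dist z x) * sinh (dist z a) *
          (cosh (dist z x + dist z a) - cosh (dist x a)))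

/-- approximate points at fraction `τ` -/
def APt (X : Type) [MetricSpace X] : Prop :=
  ∀ x a : X, ∀ τ η : ℝ, 0 ≤ τ → τ ≤ 1 → 0 < η →
    ∃ q : X, dist x q ≤ τ * dist x a + η ∧ dist q a ≤ (1 - τ) * dist x a + η

/-- exact points at fraction `τ` -/
def Geo (X : Type) [MetricSpace X] : Prop :=
  ∀ x a : X, ∀ τ : ℝ, 0 ≤ τ → τ ≤ 1 →
    ∃ q : X, dist x q = τ * dist x a ∧ dist q a = (1 - τ) * dist x a

/-- separated finite sets -/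
def Sep {X : Type} [MetricSpace X] (σ : ℝ) (P : Finset X) : Prop :=
  ∀ a ∈ P, ∀ a' ∈ P, a ≠ a' → σ ≤ dist a a'

/-- packing bound -/
def PackB (X : Type) [MetricSpace X] (n : ℕ) : Prop :=
  ∀ (x : X) (b σ : ℝ), 0 < σ → σ ≤ b → ∀ P : Finset X, (∀ a ∈ P, dist x a ≤ b) → Sep σ P →
    (P.card : ℝ) ≤ (32 * sinh (3 * b) / σ) ^ n

/-- contraction of packings toward a point -/
def CMP (X : Type) [MetricSpace X] : Prop :=
  ∀ (u : X) (b τ σ σ' : ℝ) (P : Finset X), 0 < b → 0 < τ → τ ≤ 1 → 0 < σ' →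
    σ' * sinh b ≤ τ * σ * b → (∀ a ∈ P, dist u a ≤ b) → Sep σ P →
    ∃ P' : Finset X, P'.card = P.card ∧ (∀ q ∈ P', dist u q ≤ τ * b) ∧ Sep σ' P'

/-- contraction of points almost equidistant from `x` and `y` toward both doubles a packing -/
def GAIN (X : Type) [MetricSpace X] : Prop :=
  ∀ (x y : X) (b τ σ σ' s c : ℝ) (A : Finset X), 0 < b → b ≤ 1 → 0 < τ → τ ≤ 1 / 2 → 0 < σ' →
    σ' * sinh b ≤ τ * σ * b → s ≤ 1 / 4 → τ * b + dist x y ≤ s → 0 ≤ c →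
    16 * c * sinh (τ * b) ≤ dist x y → 32 * s * σ' ≤ dist x y ^ 2 →
    (∀ a ∈ A, dist x a ≤ b) → (∀ a ∈ A, dist y a ≤ b) →
    (∀ a ∈ A, |dist x a - dist y a| ≤ c * dist x y) → Sep σ A →
    ∃ P' : Finset X, P'.card = 2 * A.card ∧ (∀ q ∈ P', dist x q ≤ s) ∧ Sep σ' P'

/-- admissible radius functions -/
def Rad {X : Type} [MetricSpace X] (r : X → ℝ) : Prop :=
  (∀ u, 0 < r u) ∧ (∀ u, r u ≤ 1 / 60) ∧ ∀ u v, r u ≤ r v + dist u v / 1000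

/-- local packing bound used for colourings -/
def LocK (X : Type) [MetricSpace X] (K : ℕ) : Prop :=
  ∀ (x : X) (ρ : ℝ), 0 < ρ → ρ ≤ 1 / 60 → ∀ P : Finset X, (∀ a ∈ P, dist x a ≤ 53 * ρ) →
    Sep (19 / 20 * ρ) P → P.card ≤ K

/-- a coloured partition of unity in the square sense -/
structure WOK {X : Type} [MetricSpace X] (A J : Finset X) (r : X → ℝ) (K p : ℕ)
    (col : X → Fin K) (φ : X → X → ℝ) : Prop where
  sub : J ⊆ A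
  sep : ∀ j ∈ J, ∀ j' ∈ J, j ≠ j' → min (r j) (r j') ≤ dist j j'
  nonneg : ∀ j x, 0 ≤ φ j x
  supp : ∀ j x, φ j x ≠ 0 → dist x j ≤ 2 * r j
  sum_sq : ∀ x ∈ A, ∑ j ∈ J, φ j x ^ 2 = 1
  col_ne : ∀ j ∈ J, ∀ j' ∈ J, j ≠ j' → dist j j' ≤ 50 * max (r j) (r j') → col j ≠ col j'
  lip : ∀ x ∈ A, ∀ y ∈ A, dist x y ≤ r x →
    ∑ j ∈ J, (φ j x - φ j y) ^ 2 ≤ 100 * (p : ℝ) ^ 2 * dist x y ^ 2 / r x ^ 2

/-! ### Block statements -/

def St_PS : Prop := ∀ (X : Type) [MetricSpace X], Four X → PS X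

def St_AP : Prop := ∀ (X : Type) [MetricSpace X], AMid X → APt X

def St_GEO : Prop := ∀ (X : Type) [MetricSpace X] [CompleteSpace X] (n : ℕ),
  APt X → PackB X n → Geo X

/-- the algebra of contraction -/
def St_CA : Prop := ∀ L L' b τ D e₁ e : ℝ, 0 ≤ L → 0 ≤ L' → L ≤ b → L' ≤ b → 0 < b →
  0 ≤ τ → τ ≤ 1 → |L - L'| ≤ D → D ≤ L + L' → τ * |L - L'| ≤ e →
  sinh ((1 - τ) * L) * cosh L' + sinh (τ * L) * cosh D ≤ cosh e₁ * sinh L →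
  sinh ((1 - τ) * L') * cosh (τ * L) + sinh (τ * L') * cosh e₁ ≤ cosh e * sinh L' →
  τ * D * b ≤ e * sinh b

/-- children of a point: approximate contraction of a separated family -/
def St_CH : Prop := ∀ (X : Type) [MetricSpace X], PS X → APt X →
  ∀ (z : X) (R ρ σ : ℝ) (M : ℕ) (a : Fin M → X), 0 < ρ → ρ ≤ R → 0 < σ →
    (∀ i, dist z (a i) ≤ R) → (∀ i j, i ≠ j → σ ≤ dist (a i) (a j)) →
    ∃ c : Fin M → X, (∀ i, dist z (c i) ≤ ρ) ∧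
      ∀ i j, i ≠ j → σ / (4 * sinh R) * ρ ≤ dist (c i) (c j)

/-- Cantor set lower bound for the Hausdorff dimension -/
def St_CAN : Prop := ∀ (X : Type) [MetricSpace X] [CompleteSpace X] (n M : ℕ) (x : X) (b β : ℝ),
  dimH (Set.univ : Set X) ≤ (n : ENNReal) → 0 < b → 0 < β → β ≤ 4 →
  (∀ z : X, dist x z ≤ 2 * b → ∀ ρ : ℝ, 0 < ρ → ρ ≤ b →
    ∃ c : Fin M → X, (∀ i, dist z (c i) ≤ ρ) ∧ ∀ i j, i ≠ j → β * ρ ≤ dist (c i) (c j)) →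
  (M : ℝ) ≤ (8 / β) ^ n

def St_CMP : Prop := ∀ (X : Type) [MetricSpace X], PS X → Geo X → CMP X

def St_GAIN : Prop := ∀ (X : Type) [MetricSpace X], PS X → Geo X → GAIN X

/-- the scale theorem -/
def St_SERV : Prop := ∀ (X : Type) [MetricSpace X] (n g : ℕ), 1 ≤ n → 1 ≤ g → n ≤ 2 ^ g →
  PackB X n → CMP X → GAIN X → ∀ A : Finset X,
  ∃ (r : ℕ → X → ℝ) (e : ℕ → X → Fin (2000 * n * g) × Fin (2 ^ (82 * n * g)) → X)
    (wt : ℕ → X → Fin (2000 * n * g) × Fin (2 ^ (82 * n * g)) → ℝ),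
    (∀ k, Rad (r k)) ∧ (∀ k u t, 0 ≤ wt k u t) ∧ (∀ k u, ∑ t, wt k u t = 1) ∧
    ∀ x ∈ A, ∀ y ∈ A, x ≠ y → dist x y ≤ 1 / (1000000 * (n : ℝ) ^ 2) →
      ∃ k, k ≤ 2000 * n * g ∧ dist x y ≤ 10 * r k x ∧
        ∀ u, dist x u ≤ 2 * r k u → dist y u ≤ 2 * r k u → dist x y ≤ 2 * r k u →
          (dist x y / (500000 * n)) ^ 2 ≤
            ∑ t, wt k u t * (dist x (e k u t) - dist y (e k u t)) ^ 2

/-- greedy assignment -/
def St_GR : Prop := ∀ (X C : Type) [Fintype C] [Nonempty C] (J : Finset X)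
  (conf : X → X → Prop) (bad : C → C → Prop) (Δ β : ℕ),
  (∀ a b, conf a b → conf b a) → (∀ c c', bad c c' → bad c' c) →
  (∀ c, ∀ S : Finset C, (∀ c' ∈ S, bad c c') → S.card ≤ β) →
  (∀ j ∈ J, ∀ S : Finset X, S ⊆ J → (∀ j' ∈ S, j' ≠ j ∧ conf j j') → S.card ≤ Δ) →
  Δ * β < Fintype.card C →
  ∃ col : X → C, ∀ j ∈ J, ∀ j' ∈ J, j ≠ j' → conf j j' → ¬ bad (col j) (col j')

/-- almost orthogonal unit vectors -/
def St_CODE : Prop := ∀ (X : Type) (J : Finset X) (L : ℕ), 1 ≤ L → J.card ≤ 4 ^ L →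
  ∃ U : X → Fin (2 * L) × Fin 16 → ℝ, (∀ j, ∑ t, U j t ^ 2 = 1) ∧
    ∀ j ∈ J, ∀ j' ∈ J, j ≠ j' → ∑ t, U j t * U j' t ≤ 1 / 2

def St_W : Prop := ∀ (X : Type) [MetricSpace X] (A : Finset X) (r : X → ℝ) (K p : ℕ),
  Rad r → LocK X K → 1 ≤ K → 2 ≤ p → K ≤ 4 ^ (p - 1) →
  ∃ (J : Finset X) (col : X → Fin K) (φ : X → X → ℝ), WOK A J r K p col φ

def St_E : Prop := ∀ (X : Type) [MetricSpace X] (A J : Finset X) (r : X → ℝ) (K p : ℕ)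
  (col : X → Fin K) (φ : X → X → ℝ) (T : Type) [Fintype T] (U : X → X → T → ℝ),
  Rad r → 1 ≤ p → WOK A J r K p col φ → (∀ j x, ∑ t, U j x t ^ 2 = 1) →
  (∀ j x y, (r j / p) ^ 2 * ∑ t, (U j x t - U j y t) ^ 2 ≤ dist x y ^ 2) →
  ∃ E : X → Fin K × T → ℝ,
    (∀ x ∈ A, ∀ y ∈ A, ∑ ω, (E x ω - E y ω) ^ 2 ≤ 110 * dist x y ^ 2) ∧
    (∀ x ∈ A, ∀ y ∈ A, ∀ γ : ℝ, dist x y ≤ r x / (10 * p) →
      (∀ j ∈ J, dist x j ≤ 2 * r j → dist y j ≤ 2 * r j →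
        γ ≤ (r j / p) ^ 2 * ∑ t, (U j x t - U j y t) ^ 2) →
      γ / 2 ≤ ∑ ω, (E x ω - E y ω) ^ 2) ∧
    (∀ x ∈ A, ∀ y ∈ A, 5 * r x ≤ dist x y →
      (dist x y ≤ 10 * r x ∨ ∀ j ∈ J, ∀ j' ∈ J, j ≠ j' → ∑ t, U j x t * U j' y t ≤ 1 / 2) →
      (r x / (2 * p)) ^ 2 ≤ ∑ ω, (E x ω - E y ω) ^ 2)

/-- trigonometric features -/
def St_TR : Prop := ∀ (X : Type) [MetricSpace X] (T : Type) [Fintype T] (e : X → T → X)
  (wt : X → T → ℝ) (δ : X → ℝ), (∀ j, 0 < δ j) → (∀ j t, 0 ≤ wt j t) → (∀ j, ∑ t, wt j t = 1) →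
  ∃ U : X → X → T × Bool → ℝ, (∀ j x, ∑ t, U j x t ^ 2 = 1) ∧
    (∀ j x y, δ j ^ 2 * ∑ t, (U j x t - U j y t) ^ 2 ≤ dist x y ^ 2) ∧
    ∀ j x y, dist x y ≤ 3 * δ j →
      (∑ t, wt j t * (dist x (e j t) - dist y (e j t)) ^ 2) / 3 ≤
        δ j ^ 2 * ∑ t, (U j x t - U j y t) ^ 2

/-- from finite subsets to the whole set -/
def St_TY : Prop := ∀ (X : Type) [MetricSpace X] (Ω : Type) [Fintype Ω] (A : Set X) (l Λ : ℝ),
  0 ≤ l → 0 ≤ Λ →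
  (∀ F : Finset X, (∀ x ∈ F, x ∈ A) → ∃ E : X → Ω → ℝ, ∀ x ∈ F, ∀ y ∈ F,
    (l * dist x y) ^ 2 ≤ ∑ ω, (E x ω - E y ω) ^ 2 ∧
      ∑ ω, (E x ω - E y ω) ^ 2 ≤ (Λ * dist x y) ^ 2) →
  ∃ f : X → EuclideanSpace ℝ (Fin (Fintype.card Ω)), ∀ x ∈ A, ∀ y ∈ A,
    l * dist x y ≤ dist (f x) (f y) ∧ dist (f x) (f y) ≤ Λ * dist x y

end Pool.Agent.Lib.AB79
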