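import Pool.Agent.Lib.AB79.Defs

set_option autoImplicit false

namespace Pool.Agent.Lib.AB79

open Real Finset

theorem sinh_mul_le {u x : ℝ} (hu0 : 0 ≤ u) (hu1 : u ≤ 1) (hx : 0 ≤ x) :
    sinh (u * x) ≤ u * sinh x := by
  have hc : ConvexOn ℝ (Set.Ici (0 : ℝ)) sinh := by
    refine MonotoneOn.convexOn_of_deriv (convex_Ici 0) continuous_sinh.continuousOn
      differentiable_sinh.differentiableOn ?_
    rw [Real.deriv_sinh]
    intro a ha b hb hab
    have ha' : 0 ≤ a := interior_subset ha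
    have hb' : 0 ≤ b := interior_subset hb
    exact cosh_le_cosh.2 (by rwa [abs_of_nonneg ha', abs_of_nonneg hb'])
  have := hc.2 (show x ∈ Set.Ici (0 : ℝ) from hx) Set.self_mem_Ici
    hu0 (show 0 ≤ 1 - u by linarith) (by ring)
  simpa using this

theorem sinh_le_half_exp (x : ℝ) : sinh x ≤ exp x / 2 := by
  rw [sinh_eq]; have := exp_pos (-x); linarith

theorem exp_three_le : exp 3 ≤ 21 := by
  have h := exp_one_lt_d9
  have h0 := exp_pos 1
  have : exp 3 = exp 1 ^ 3 := by rw [← exp_nat_mul]; norm_num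
  rw [this]
  calc exp 1 ^ 3 ≤ (2.7182818286 : ℝ) ^ 3 := by gcongr
    _ ≤ 21 := by norm_num

theorem packB_of (hCH : St_CH) (hCAN : St_CAN) (X : Type) [MetricSpace X] [CompleteSpace X]
    (n : ℕ) (hd : dimH (Set.univ : Set X) ≤ (n : ENNReal)) (hPS : PS X) (hA : APt X) :
    PackB X n := by
  intro x b σ hσ hσb P hP hS
  have hb : 0 < b := by linarith
  have hsh : 3 * b ≤ sinh (3 * b) := self_le_sinh_iff.2 (by linarith)
  have hsh0 : 0 < sinh (3 * b) := by linarith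
  have h := hCAN X n P.card x b (σ / (4 * sinh (3 * b))) hd hb (by positivity)
    (by rw [div_le_iff₀ (by positivity)]; linarith)
    (fun z hz ρ hρ hρb => hCH X hPS hA z (3 * b) ρ σ P.card (fun i => (P.equivFin.symm i : X))
      hρ (by linarith) hσ
      (fun i => by
        have h1 := hP _ (P.equivFin.symm i).2
        have h2 := dist_triangle_left z (P.equivFin.symm i : X) x
        linarith)
      (fun i j hij => hS _ (P.equivFin.symm i).2 _ (P.equivFin.symm j).2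
        (fun h => hij (P.equivFin.symm.injective (Subtype.ext h)))))
  have e : 8 / (σ / (4 * sinh (3 * b))) = 32 * sinh (3 * b) / σ := by field_simp; norm_num
  rwa [e] at h

theorem locK_of {X : Type} [MetricSpace X] {n : ℕ} (h : PackB X n) : LocK X (2 ^ (15 * n)) := by
  intro x ρ hρ hρ1 P hP hS
  have h1 := h x (53 * ρ) (19 / 20 * ρ) (by positivity) (by linarith) P hP hS
  have h2 : sinh (3 * (53 * ρ)) ≤ 53 * ρ * (21 / 2) := by
    have h3 := sinh_mul_le (u := 53 * ρ) (x := 3) (by positivity) (by linarith) (by norm_num)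
    have h4 := sinh_le_half_exp 3
    have h5 := exp_three_le
    rw [mul_comm 3]
    refine h3.trans ?_
    gcongr; linarith
  have h0 : 0 ≤ sinh (3 * (53 * ρ)) := sinh_nonneg_iff.2 (by positivity)
  have h6 : 32 * sinh (3 * (53 * ρ)) / (19 / 20 * ρ) ≤ 2 ^ 15 := by
    rw [div_le_iff₀ (by positivity)]; nlinarith
  have h7 : (P.card : ℝ) ≤ ((2 ^ (15 * n) : ℕ) : ℝ) := by
    refine h1.trans ?_
    push_cast
    rw [pow_mul]
    gcongr
  exact_mod_cast h7

theorem net_card {X : Type} [MetricSpace X] {n : ℕ} (h : PackB X n) {D : ℝ} (hD : 0 < D)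
    (J : Finset X) (hJ : ∀ a ∈ J, ∀ b ∈ J, dist a b ≤ D) (hS : Sep (1 / 60) J) :
    J.card ≤ 4 ^ (n * (8 + 3 * ⌈D⌉₊)) := by
  rcases J.eq_empty_or_nonempty with rfl | ⟨x, hx⟩
  · simp
  have h1 := h x (D + 1) (1 / 60) (by norm_num) (by linarith) J
    (fun a ha => by linarith [hJ x hx a ha]) hS
  have h2 : sinh (3 * (D + 1)) ≤ 64 ^ ⌈D⌉₊ * (21 / 2) := by
    refine (sinh_le_half_exp _).trans ?_
    have h3 : exp (3 * (D + 1)) ≤ exp 3 ^ ⌈D⌉₊ * exp 3 := by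
      rw [← exp_nat_mul, ← exp_add]
      refine exp_le_exp.2 ?_
      have := Nat.le_ceil D
      linarith
    have h4 := exp_three_le
    have h5 : exp 3 ^ ⌈D⌉₊ * exp 3 ≤ 64 ^ ⌈D⌉₊ * 21 := by
      gcongr; linarith
    linarith
  have h0 : 0 ≤ sinh (3 * (D + 1)) := sinh_nonneg_iff.2 (by positivity)
  have h6 : 32 * sinh (3 * (D + 1)) / (1 / 60) ≤ 4 ^ (8 + 3 * ⌈D⌉₊) := by
    rw [div_le_iff₀ (by positivity), pow_add, pow_mul]
    have : (0 : ℝ) < 64 ^ ⌈D⌉₊ := by positivity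
    norm_num
    linarith
  have h7 : (J.card : ℝ) ≤ ((4 ^ (n * (8 + 3 * ⌈D⌉₊)) : ℕ) : ℝ) := by
    refine h1.trans ?_
    push_cast
    rw [mul_comm n, pow_mul]
    gcongr
  exact_mod_cast h7

theorem dyadic {R d : ℝ} (N : ℕ) (h1 : d ≤ 10 * R) (h2 : 5 * (R / 2 ^ N) ≤ d) :
    ∃ l, l ≤ N ∧ 5 * (R / 2 ^ l) ≤ d ∧ d ≤ 10 * (R / 2 ^ l) := by
  induction N with
  | zero => exact ⟨0, le_rfl, h2, by simpa using h1⟩
  | succ N ih =>
    by_cases h : 5 * (R / 2 ^ N) ≤ d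
    · obtain ⟨l, hl, h3⟩ := ih h
      exact ⟨l, by omega, h3⟩
    · refine ⟨N + 1, le_rfl, h2, ?_⟩
      have : 10 * (R / 2 ^ (N + 1)) = 5 * (R / 2 ^ N) := by rw [pow_succ]; field_simp; ring
      rw [this]; exact (not_le.1 h).le

theorem Rad.div_pow {X : Type} [MetricSpace X] {r : X → ℝ} (h : Rad r) (l : ℕ) :
    Rad (fun u => r u / 2 ^ l) := by
  have h1 : (1 : ℝ) ≤ 2 ^ l := one_le_pow₀ (by norm_num)
  refine ⟨fun u => div_pos (h.1 u) (by positivity),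
    fun u => (div_le_self (h.1 u).le h1).trans (h.2.1 u), fun u v => ?_⟩
  have h2 := h.2.2 u v
  have h3 : dist u v / 1000 / 2 ^ l ≤ dist u v / 1000 := div_le_self (by positivity) h1
  have h4 : r u / 2 ^ l ≤ (r v + dist u v / 1000) / 2 ^ l := by gcongr
  rw [add_div] at h4
  show r u / 2 ^ l ≤ r v / 2 ^ l + dist u v / 1000
  linarith

theorem rad_const {X : Type} [MetricSpace X] : Rad (fun _ : X => (1 / 60 : ℝ)) :=
  ⟨fun _ => by norm_num, fun _ => le_rfl, fun u v => by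
    have := dist_nonneg (x := u) (y := v); linarith⟩

theorem pow_le_four_pow (n : ℕ) : 2 ^ (15 * n) ≤ 4 ^ (8 * n + 1 - 1) := by
  rw [Nat.add_sub_cancel, show 4 = 2 ^ 2 by norm_num, ← pow_mul]
  exact Nat.pow_le_pow_right (by norm_num) (by omega)

/-- one system with trigonometric features -/
theorem sys_trig (hW : St_W) (hE : St_E) (hTR : St_TR) {X : Type} [MetricSpace X] {n : ℕ}
    (hn : 1 ≤ n) (hP : PackB X n) (A : Finset X) {T : Type} [Fintype T] (r : X → ℝ) (hr : Rad r)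
    (e : X → T → X) (wt : X → T → ℝ) (h0 : ∀ j t, 0 ≤ wt j t) (h1 : ∀ j, ∑ t, wt j t = 1) :
    ∃ E : X → Fin (2 ^ (15 * n)) × (T × Bool) → ℝ,
      (∀ x ∈ A, ∀ y ∈ A, ∑ ω, (E x ω - E y ω) ^ 2 ≤ 110 * dist x y ^ 2) ∧
      (∀ x ∈ A, ∀ y ∈ A, ∀ γ : ℝ, dist x y ≤ r x / (90 * n) →
        (∀ u, dist x u ≤ 2 * r u → dist y u ≤ 2 * r u → dist x y ≤ 2 * r u →
          γ ≤ ∑ t, wt u t * (dist x (e u t) - dist y (e u t)) ^ 2) →
        γ / 6 ≤ ∑ ω, (E x ω - E y ω) ^ 2) ∧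
      (∀ x ∈ A, ∀ y ∈ A, 5 * r x ≤ dist x y → dist x y ≤ 10 * r x →
        (dist x y / (180 * n)) ^ 2 ≤ ∑ ω, (E x ω - E y ω) ^ 2) := by
  have hn' : (1 : ℝ) ≤ n := by exact_mod_cast hn
  obtain ⟨J, col, φ, hJ⟩ := hW X A r (2 ^ (15 * n)) (8 * n + 1) hr (locK_of hP)
    Nat.one_le_two_pow (by omega) (pow_le_four_pow n)
  have hp : ((8 * n + 1 : ℕ) : ℝ) = 8 * n + 1 := by push_cast; ring
  obtain ⟨U, hU1, hU2, hU3⟩ := hTR X T e wt (fun j => r j / ((8 * n + 1 : ℕ) : ℝ))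
    (fun j => div_pos (hr.1 j) (by rw [hp]; positivity)) h0 h1
  obtain ⟨E, hE1, hE2, hE3⟩ := hE X A J r _ (8 * n + 1) col φ (T × Bool) U hr (by omega) hJ hU1 hU2
  refine ⟨E, hE1, fun x hx y hy γ hd hs => ?_, fun x hx y hy h5 h10 => ?_⟩
  · have hrx := hr.1 x
    have hd' : dist x y ≤ r x / (10 * ((8 * n + 1 : ℕ) : ℝ)) := by
      refine hd.trans ?_
      rw [hp]
      exact div_le_div_of_nonneg_left hrx.le (by positivity) (by linarith)
    have := hE2 x hx y hy (γ / 3) hd' (fun j _ hxj hyj => by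
      have hrj := hr.1 j
      have h2 := hr.2.2 x j
      have h3 : r x ≤ 2 * r j := by linarith
      have h4 : dist x y ≤ 3 * (r j / ((8 * n + 1 : ℕ) : ℝ)) := by
        refine hd'.trans ?_
        rw [hp, ← mul_div_assoc, div_le_div_iff₀ (by positivity) (by positivity)]
        nlinarith
      have h5 : dist x y ≤ 2 * r j :=
        hd.trans ((div_le_self hrx.le (by linarith)).trans h3)
      refine le_trans ?_ (hU3 j x y h4)
      have := hs j hxj hyj h5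
      linarith)
    linarith
  · refine le_trans ?_ (hE3 x hx y hy h5 (Or.inl h10))
    have hrx := hr.1 x
    have : dist x y / (180 * n) ≤ r x / (2 * ((8 * n + 1 : ℕ) : ℝ)) := by
      rw [hp, div_le_div_iff₀ (by positivity) (by positivity)]
      have := dist_nonneg (x := x) (y := y)
      nlinarith
    gcongr

/-- the system for large distances -/
theorem sys_code (hW : St_W) (hE : St_E) (hC : St_CODE) {X : Type} [MetricSpace X] {n : ℕ}
    (hn : 1 ≤ n) (hP : PackB X n) {D : ℝ} (hD : 0 < D) (A : Finset X)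
    (hA : ∀ a ∈ A, ∀ b ∈ A, dist a b ≤ D) :
    ∃ E : X → Fin (2 ^ (15 * n)) × (Fin (2 * (n * (8 + 3 * ⌈D⌉₊))) × Fin 16) → ℝ,
      (∀ x ∈ A, ∀ y ∈ A, ∑ ω, (E x ω - E y ω) ^ 2 ≤ 110 * dist x y ^ 2) ∧
      (∀ x ∈ A, ∀ y ∈ A, 1 / 12 ≤ dist x y →
        (1 / (1080 * n) : ℝ) ^ 2 ≤ ∑ ω, (E x ω - E y ω) ^ 2) := by
  have hn' : (1 : ℝ) ≤ n := by exact_mod_cast hn
  obtain ⟨J, col, φ, hJ⟩ := hW X A (fun _ => 1 / 60) (2 ^ (15 * n)) (8 * n + 1) rad_const
    (locK_of hP) Nat.one_le_two_pow (by omega) (pow_le_four_pow n)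
  have hp : ((8 * n + 1 : ℕ) : ℝ) = 8 * n + 1 := by push_cast; ring
  have hc := net_card hP hD J (fun a ha b hb => hA a (hJ.sub ha) b (hJ.sub hb))
    (fun a ha b hb hab => by simpa using hJ.sep a ha b hb hab)
  obtain ⟨U, hU1, hU2⟩ := hC X J (n * (8 + 3 * ⌈D⌉₊)) (Nat.mul_pos hn (by omega)) hc
  obtain ⟨E, hE1, -, hE3⟩ := hE X A J (fun _ => 1 / 60) _ (8 * n + 1) col φ _ (fun j _ => U j)
    rad_const (by omega) hJ (fun j _ => hU1 j) (fun j x y => by simp)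
  refine ⟨E, hE1, fun x hx y hy h => ?_⟩
  refine le_trans ?_ (hE3 x hx y hy (by linarith) (Or.inr hU2))
  have : (1 / (1080 * n) : ℝ) ≤ 1 / 60 / (2 * ((8 * n + 1 : ℕ) : ℝ)) := by
    rw [hp, div_le_div_iff₀ (by positivity) (by positivity)]
    linarith
  gcongr

end Pool.Agent.Lib.AB79
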