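import Pool.Agent.Lib.AB79.Main1

set_option autoImplicit false

namespace Pool.Agent.Lib.AB79

open Real Finset

/-- the index type of all coordinates -/
abbrev Om (n g c : ℕ) : Type :=
  ((Fin (2000 * n * g + 2) × Fin (20 * g + 1)) ×
      (Fin (2 ^ (15 * n)) × ((Fin (2000 * n * g) × Fin (2 ^ (82 * n * g))) × Bool))) ⊕
    (Fin (2 ^ (15 * n)) × (Fin (2 * (n * (8 + 3 * c))) × Fin 16))

theorem fin_embed (hSERV : St_SERV) (hW : St_W) (hE : St_E) (hTR : St_TR) (hC : St_CODE)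
    {X : Type} [MetricSpace X] {n g : ℕ} (hn : 1 ≤ n) (hg : 1 ≤ g) (hng : n ≤ 2 ^ g)
    (hP : PackB X n) (hc : CMP X) (hG : GAIN X) {D : ℝ} (hD : 0 < D) (A : Finset X)
    (hA : ∀ a ∈ A, ∀ b ∈ A, dist a b ≤ D) :
    ∃ E : X → Om n g ⌈D⌉₊ → ℝ, ∀ x ∈ A, ∀ y ∈ A,
      (1 / (1300000 * n * (1 + D)) * dist x y) ^ 2 ≤ ∑ ω, (E x ω - E y ω) ^ 2 ∧
        ∑ ω, (E x ω - E y ω) ^ 2 ≤ (2300 * √n * g * dist x y) ^ 2 := by
  have hn' : (1 : ℝ) ≤ n := by exact_mod_cast hn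
  have hg' : (1 : ℝ) ≤ g := by exact_mod_cast hg
  have hng' : (n : ℝ) ≤ 2 ^ g := by exact_mod_cast hng
  obtain ⟨r, e, wt, hr, hw0, hw1, hs⟩ := hSERV X n g hn hg hng hP hc hG A
  set r' : ℕ → X → ℝ := fun k u => if k ≤ 2000 * n * g then r k u else 1 / 60 with hr'
  have hrad : ∀ k, Rad (r' k) := fun k => by
    by_cases h : k ≤ 2000 * n * g
    · simpa only [hr', if_pos h] using hr k
    · simpa only [hr', if_neg h] using rad_const (X := X)
  choose E₁ h11 h12 h13 using fun k l : ℕ => sys_trig hW hE hTR hn hP A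
    (fun u => r' k u / 2 ^ l) ((hrad k).div_pow l) (e k) (wt k) (hw0 k) (hw1 k)
  obtain ⟨E₂, h21, h22⟩ := sys_code hW hE hC hn hP hD A hA
  refine ⟨fun x => Sum.elim (fun q => E₁ q.1.1 q.1.2 x q.2) (E₂ x), fun x hx y hy => ?_⟩
  simp only [Fintype.sum_sum_type, Sum.elim_inl, Sum.elim_inr]
  rw [Fintype.sum_prod_type]
  have hd0 := dist_nonneg (x := x) (y := y)
  set d := dist x y with hd
  have hS2 : 0 ≤ ∑ ω, (E₂ x ω - E₂ y ω) ^ 2 := sum_nonneg fun _ _ => sq_nonneg _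
  have hS1 : ∀ q : Fin (2000 * n * g + 2) × Fin (20 * g + 1),
      0 ≤ ∑ ω, (E₁ q.1 q.2 x ω - E₁ q.1 q.2 y ω) ^ 2 := fun q => sum_nonneg fun _ _ => sq_nonneg _
  constructor
  · have key : ∀ k l : ℕ, k ≤ 2000 * n * g + 1 → l ≤ 20 * g →
        ∑ ω, (E₁ k l x ω - E₁ k l y ω) ^ 2 ≤ ∑ q : Fin (2000 * n * g + 2) × Fin (20 * g + 1),
          ∑ ω, (E₁ q.1 q.2 x ω - E₁ q.1 q.2 y ω) ^ 2 + ∑ ω, (E₂ x ω - E₂ y ω) ^ 2 := by
      intro k l hk hl
      have := single_le_sum (fun q _ => hS1 q)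
        (mem_univ ((⟨k, by omega⟩, ⟨l, by omega⟩) : Fin (2000 * n * g + 2) × Fin (20 * g + 1)))
      exact le_add_of_le_of_nonneg this hS2
    have hl0 : 1 / (1300000 * n * (1 + D)) * d ≤ d / (1300000 * n) := by
      rw [one_div_mul_eq_div]
      exact div_le_div_of_nonneg_left hd0 (by positivity) (by nlinarith)
    have hl1 : (1 / (1300000 * n * (1 + D)) * d) ^ 2 ≤ (d / (1300000 * n)) ^ 2 := by gcongr
    have hl2 : (d / (1300000 * n)) ^ 2 ≤ (d / (180 * n)) ^ 2 := by gcongr; norm_num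
    have h20 : (2 : ℝ) ^ (20 * g) = (2 ^ g) ^ 2 * (2 ^ g) ^ 18 := by
      rw [← pow_add, ← pow_mul, mul_comm]
    have h2g : (2 : ℝ) ≤ 2 ^ g := le_self_pow₀ (by norm_num) (by omega)
    have h18 : (2 : ℝ) ^ 18 ≤ (2 ^ g) ^ 18 := by gcongr
    have hn2 : (n : ℝ) ^ 2 ≤ (2 ^ g) ^ 2 := by gcongr
    have hbig : 262144 * (n : ℝ) ^ 2 ≤ 2 ^ (20 * g) := by
      rw [h20]; nlinarith [sq_nonneg (n : ℝ)]
    have dy : ∀ k : ℕ, k ≤ 2000 * n * g + 1 → d ≤ 10 * r' k x → 5 * (r' k x / 2 ^ (20 * g)) ≤ d →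
        (1 / (1300000 * n * (1 + D)) * d) ^ 2 ≤ ∑ q : Fin (2000 * n * g + 2) × Fin (20 * g + 1),
          ∑ ω, (E₁ q.1 q.2 x ω - E₁ q.1 q.2 y ω) ^ 2 + ∑ ω, (E₂ x ω - E₂ y ω) ^ 2 := by
      intro k hk h1 h2
      obtain ⟨l, hl, h3, h4⟩ := dyadic (20 * g) h1 h2
      exact hl1.trans (hl2.trans ((h13 k l x hx y hy h3 h4).trans (key k l hk hl)))
    by_cases hxy : x = y
    · have : d = 0 := by rw [hd, hxy, dist_self]
      rw [this, mul_zero, zero_pow two_ne_zero]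
      exact add_nonneg (sum_nonneg fun q _ => hS1 q) hS2
    by_cases hA1 : d ≤ 1 / (1000000 * (n : ℝ) ^ 2)
    · obtain ⟨k, hk, h1, h2⟩ := hs x hx y hy hxy hA1
      have hk' : ∀ u, r' k u = r k u := fun u => if_pos hk
      by_cases hA2 : d ≤ r k x / (90 * n)
      · have := h12 k 0 x hx y hy ((d / (500000 * n)) ^ 2) (by simpa [hk'] using hA2)
          (by simpa [hk'] using h2)
        refine hl1.trans (le_trans ?_ (this.trans (key k 0 (by omega) (by omega))))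
        rw [div_pow, div_pow, div_div]
        exact div_le_div_of_nonneg_left (sq_nonneg _) (by positivity) (by nlinarith)
      · refine dy k (by omega) (by rwa [hk']) (le_trans ?_ (not_le.1 hA2).le)
        have := (hr k).1 x
        rw [hk', ← mul_div_assoc, div_le_div_iff₀ (by positivity) (by positivity)]
        have h9 : 450 * (n : ℝ) ≤ 2 ^ (20 * g) := by nlinarith
        nlinarith
    have hk' : r' (2000 * n * g + 1) x = 1 / 60 := if_neg (by omega)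
    by_cases hA3 : d ≤ 1 / 6
    · refine dy _ le_rfl (by rw [hk']; linarith) (le_trans ?_ (not_le.1 hA1).le)
      rw [hk', ← mul_div_assoc, div_le_div_iff₀ (by positivity) (by positivity)]
      nlinarith
    · refine le_trans ?_ (le_add_of_nonneg_of_le (sum_nonneg fun q _ => hS1 q)
        (h22 x hx y hy (by linarith [not_le.1 hA3])))
      have h5 : 1 / (1300000 * n * (1 + D)) * d ≤ 1 / (1080 * n) := by
        have := hA x hx y hy
        rw [one_div_mul_eq_div, div_le_div_iff₀ (by positivity) (by positivity)]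
        nlinarith
      gcongr
  · have h1 : ∑ q : Fin (2000 * n * g + 2) × Fin (20 * g + 1),
        ∑ ω, (E₁ q.1 q.2 x ω - E₁ q.1 q.2 y ω) ^ 2 ≤
          ∑ _q : Fin (2000 * n * g + 2) × Fin (20 * g + 1), 110 * d ^ 2 :=
      sum_le_sum fun q _ => h11 _ _ x hx y hy
    have h2 := h21 x hx y hy
    rw [sum_const, card_univ, Fintype.card_prod, Fintype.card_fin, Fintype.card_fin,
      nsmul_eq_mul] at h1
    push_cast at h1
    have h3 : (2300 * √n * g * d) ^ 2 = 5290000 * (n * g ^ 2) * d ^ 2 := by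
      rw [mul_pow, mul_pow, mul_pow, sq_sqrt (by positivity)]; ring
    have h4 : (1 : ℝ) ≤ n * g := by nlinarith
    have h5 : ((2000 : ℝ) * n * g + 2) * (20 * g + 1) ≤ (2002 * (n * g)) * (21 * g) := by
      gcongr <;> linarith
    have h6 : (1 : ℝ) ≤ n * g ^ 2 := by nlinarith
    have h7 : ((2000 : ℝ) * n * g + 2) * (20 * g + 1) * (110 * d ^ 2) + 110 * d ^ 2 ≤
        5290000 * (n * g ^ 2) * d ^ 2 := by nlinarith [sq_nonneg d]
    rw [h3]
    linarith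

theorem card_Om {n g : ℕ} (hn : 1 ≤ n) (hg : 1 ≤ g) (h2 : 2 ^ g ≤ 2 * n) {D : ℝ} (hD : 0 < D) :
    (Fintype.card (Om n g ⌈D⌉₊) : ℝ) ≤ (1 + D) * ((n : ℝ) + 1) ^ (300 * n) := by
  have hG : 1 ≤ n * g := Nat.mul_pos hn hg
  have hGn : n ≤ n * g := Nat.le_mul_of_pos_right n hg
  have hGg : g ≤ n * g := Nat.le_mul_of_pos_left g hn
  have hG2 : n * g ≤ 2 ^ (n * g) := Nat.lt_two_pow_self.le
  have hT : 2 ≤ 2 ^ (n * g) := le_self_pow₀ (by norm_num) (by omega)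
  have h15 : 2 ^ (15 * n) ≤ (2 ^ (n * g)) ^ 15 := by
    rw [← pow_mul]; exact Nat.pow_le_pow_right (by norm_num) (by omega)
  have h82 : 2 ^ (82 * n * g) = (2 ^ (n * g)) ^ 82 := by
    rw [← pow_mul]; congr 1; ring
  have hfin : (2 ^ (n * g)) ^ 150 ≤ (n + 1) ^ (300 * n) := by
    have h3 : 2 ^ g ≤ (n + 1) ^ 2 := by nlinarith
    calc (2 ^ (n * g)) ^ 150 = (2 ^ g) ^ (150 * n) := by
          rw [← pow_mul, ← pow_mul]; congr 1; ring
      _ ≤ ((n + 1) ^ 2) ^ (150 * n) := Nat.pow_le_pow_left h3 _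
      _ = (n + 1) ^ (300 * n) := by rw [← pow_mul]; congr 1; ring
  have hm : 2000 * n * g = 2000 * (n * g) := by ring
  simp only [Om, Fintype.card_sum, Fintype.card_prod, Fintype.card_fin, Fintype.card_bool]
  rw [h82, hm]
  generalize 2 ^ (n * g) = T at *
  generalize n * g = G at *
  have p : ∀ k : ℕ, 2 ^ k ≤ T ^ k := fun k => Nat.pow_le_pow_left hT k
  have a1 : 2000 * G + 2 ≤ T ^ 11 * T := by have := p 11; nlinarith
  have a2 : 20 * g + 1 ≤ T ^ 5 * T := by have := p 5; nlinarith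
  have a3 : 2000 * G ≤ T ^ 11 * T := by omega
  have b1 : (2000 * G + 2) * (20 * g + 1) * (2 ^ (15 * n) * (2000 * G * T ^ 82 * 2)) ≤
      T ^ 149 := by
    calc _ ≤ (T ^ 11 * T) * (T ^ 5 * T) * (T ^ 15 * (T ^ 11 * T * T ^ 82 * T)) := by gcongr
      _ = T ^ 128 := by ring
      _ ≤ T ^ 149 := Nat.pow_le_pow_right (by omega) (by norm_num)
  have b2 : 2 ^ (15 * n) * (352 * n) ≤ T ^ 149 := by
    have a4 : 352 * n ≤ T ^ 9 * T := by have := p 9; nlinarith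
    calc _ ≤ T ^ 15 * (T ^ 9 * T) := by gcongr
      _ = T ^ 25 := by ring
      _ ≤ T ^ 149 := Nat.pow_le_pow_right (by omega) (by norm_num)
  have b3 : 2 * T ^ 149 ≤ (n + 1) ^ (300 * n) := by
    refine le_trans ?_ hfin
    rw [pow_succ' T 149]
    gcongr
  have c1 : (((2000 * G + 2) * (20 * g + 1) * (2 ^ (15 * n) * (2000 * G * T ^ 82 * 2)) : ℕ) : ℝ) ≤
      ((T ^ 149 : ℕ) : ℝ) := by exact_mod_cast b1
  have c2 : ((2 ^ (15 * n) * (352 * n) : ℕ) : ℝ) ≤ ((T ^ 149 : ℕ) : ℝ) := by exact_mod_cast b2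
  have c3 : ((2 * T ^ 149 : ℕ) : ℝ) ≤ (((n + 1) ^ (300 * n) : ℕ) : ℝ) := by exact_mod_cast b3
  have c4 : ((2 ^ (15 * n) * (2 * (n * (8 + 3 * ⌈D⌉₊)) * 16) : ℕ) : ℝ) ≤
      (1 + D) * ((2 ^ (15 * n) * (352 * n) : ℕ) : ℝ) := by
    have := (Nat.ceil_lt_add_one hD.le).le
    push_cast
    have h0 : (0 : ℝ) ≤ 2 ^ (15 * n) * n := by positivity
    nlinarith
  rw [Nat.cast_add]
  have c0 : (0 : ℝ) ≤ ((T ^ 149 : ℕ) : ℝ) := by positivity
  have c5 : (1 + D) * ((2 ^ (15 * n) * (352 * n) : ℕ) : ℝ) ≤ (1 + D) * ((T ^ 149 : ℕ) : ℝ) := by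
    gcongr
  have c6 : (1 + D) * ((2 * T ^ 149 : ℕ) : ℝ) ≤ (1 + D) * (((n + 1) ^ (300 * n) : ℕ) : ℝ) := by
    gcongr
  push_cast at c6 c0 c5 c4 c1 ⊢
  nlinarith

theorem main (hPS : St_PS) (hAP : St_AP) (hGEO : St_GEO) (hCH : St_CH) (hCAN : St_CAN)
    (hCMP : St_CMP) (hGAIN : St_GAIN) (hSERV : St_SERV) (hC : St_CODE) (hW : St_W) (hE : St_E)
    (hTR : St_TR) (hTY : St_TY) (D : ℝ) (hD : 0 < D) (n : ℕ) (hn : 1 ≤ n) :
    ∃ N : ℕ, (N : ℝ) ≤ (1 + D) * ((n : ℝ) + 1) ^ (300 * n) ∧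
      ∀ (X : Type) [MetricSpace X] [CompleteSpace X], AMid X →
        dimH (Set.univ : Set X) ≤ (n : ENNReal) → Four X →
        ∀ A : Set X, Bornology.IsBounded A → Metric.diam A ≤ D →
          ∃ f : X → EuclideanSpace ℝ (Fin N), ∃ r : ℝ, 0 < r ∧
            ∀ x ∈ A, ∀ y ∈ A, r * dist x y ≤ dist (f x) (f y) ∧
              dist (f x) (f y) ≤
                10 ^ 10 * (1 + D) * (n * √n) * Real.log (n + 1) * r * dist x y := by
  have hn' : (1 : ℝ) ≤ n := by exact_mod_cast hn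
  have hlog : 2 ^ Nat.log 2 n ≤ n := Nat.pow_log_le_self 2 (by omega)
  refine ⟨Fintype.card (Om n (Nat.log 2 n + 1) ⌈D⌉₊),
    card_Om hn (by omega) (by rw [pow_succ]; omega) hD, fun X _ _ hM hd hF A hb hA => ?_⟩
  have h1 := hPS X hF
  have h2 := hAP X hM
  have h3 := packB_of hCH hCAN X n hd h1 h2
  have h4 := hGEO X n h2 h3
  obtain ⟨f, hf⟩ := hTY X (Om n (Nat.log 2 n + 1) ⌈D⌉₊) A (1 / (1300000 * n * (1 + D)))
    (2300 * √n * ((Nat.log 2 n + 1 : ℕ) : ℝ)) (by positivity) (by positivity)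
    (fun F hF => fin_embed hSERV hW hE hTR hC hn (by omega)
      (Nat.lt_pow_succ_log_self (by norm_num) n).le h3 (hCMP X h1 h4) (hGAIN X h1 h4) hD F
      (fun a ha b hb' => (Metric.dist_le_diam_of_mem hb (hF a ha) (hF b hb')).trans hA))
  refine ⟨f, 1 / (1300000 * n * (1 + D)), by positivity, fun x hx y hy =>
    ⟨(hf x hx y hy).1, (hf x hx y hy).2.trans ?_⟩⟩
  have g1 : ((Nat.log 2 n : ℕ) : ℝ) * Real.log 2 ≤ Real.log (n + 1) := by
    rw [← Real.log_pow]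
    refine Real.log_le_log (by positivity) ?_
    have : ((2 ^ Nat.log 2 n : ℕ) : ℝ) ≤ n := by exact_mod_cast hlog
    push_cast at this
    linarith
  have g2 : Real.log 2 ≤ Real.log (n + 1) := Real.log_le_log (by norm_num) (by linarith)
  have g3 := Real.log_two_gt_d9
  have g4 : ((Nat.log 2 n + 1 : ℕ) : ℝ) ≤ 3 * Real.log (n + 1) := by
    push_cast
    have : (0 : ℝ) ≤ (Nat.log 2 n : ℕ) := by positivity
    nlinarith
  have e1 : 10 ^ 10 * (1 + D) * (n * √n) * Real.log (n + 1) * (1 / (1300000 * n * (1 + D))) =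
      10 ^ 10 / 1300000 * √n * Real.log (n + 1) := by
    field_simp
  rw [e1]
  have hs : 0 ≤ √(n : ℝ) := sqrt_nonneg _
  have g5 : 2300 * √n * ((Nat.log 2 n + 1 : ℕ) : ℝ) ≤ 10 ^ 10 / 1300000 * √n * Real.log (n + 1) := by
    nlinarith [mul_le_mul_of_nonneg_left g4 hs, mul_nonneg hs (g2.trans' (by linarith : 0 ≤ Real.log 2))]
  gcongr

end Pool.Agent.Lib.AB79
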