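import Pool.Agent.Lib.AB79.Main1

set_option autoImplicit false

namespace Pool.Agent.Lib.AB79
namespace T79

open Real Finset

variable {X : Type} [MetricSpace X]

/-- packing number -/
noncomputable def pk (x : X) (S σ : ℝ) : ℕ :=
  sSup {N | ∃ P : Finset X, P.card = N ∧ (∀ a ∈ P, dist x a ≤ S) ∧ Sep σ P}

theorem pk_bdd {n : ℕ} (hP : PackB X n) (x : X) {S σ : ℝ} (h0 : 0 < σ) (h1 : σ ≤ S) :
    BddAbove {N | ∃ P : Finset X, P.card = N ∧ (∀ a ∈ P, dist x a ≤ S) ∧ Sep σ P} := by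
  refine ⟨⌈(32 * sinh (3 * S) / σ) ^ n⌉₊, ?_⟩
  rintro N ⟨P, rfl, h2, h3⟩
  exact_mod_cast (hP x S σ h0 h1 P h2 h3).trans (Nat.le_ceil _)

theorem pk_spec {n : ℕ} (hP : PackB X n) (x : X) {S σ : ℝ} (h0 : 0 < σ) (h1 : σ ≤ S) :
    ∃ P : Finset X, P.card = pk x S σ ∧ (∀ a ∈ P, dist x a ≤ S) ∧ Sep σ P :=
  Nat.sSup_mem (s := {N | ∃ P : Finset X, P.card = N ∧ (∀ a ∈ P, dist x a ≤ S) ∧ Sep σ P})
    ⟨0, ∅, rfl, by simp, by simp [Sep]⟩ (pk_bdd hP x h0 h1)

theorem le_pk {n : ℕ} (hP : PackB X n) (x : X) {S σ : ℝ} (h0 : 0 < σ) (h1 : σ ≤ S)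
    {P : Finset X} (h2 : ∀ a ∈ P, dist x a ≤ S) (h3 : Sep σ P) : P.card ≤ pk x S σ :=
  le_csSup (pk_bdd hP x h0 h1) ⟨P, rfl, h2, h3⟩

noncomputable def ka (n : ℕ) : ℝ := 1 / (100 * n)

noncomputable def sg (n i : ℕ) : ℝ := (ka n / 100) ^ 2 / 32 / (1 + ka n) ^ i

noncomputable def pp (n i : ℕ) (x : X) (S : ℝ) : ℕ := pk x S (sg n i * S)

theorem ka_pos {n : ℕ} (hn : 1 ≤ n) : 0 < ka n := by
  have : (1 : ℝ) ≤ n := by exact_mod_cast hn
  unfold ka; positivity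

theorem ka_le {n : ℕ} (hn : 1 ≤ n) : ka n ≤ 1 / 100 := by
  have : (1 : ℝ) ≤ n := by exact_mod_cast hn
  exact one_div_le_one_div_of_le (by norm_num) (by linarith)

theorem sg_pos {n : ℕ} (hn : 1 ≤ n) (i : ℕ) : 0 < sg n i := by
  have := ka_pos hn
  unfold sg; positivity

theorem sg_le {n : ℕ} (hn : 1 ≤ n) (i : ℕ) : sg n i ≤ (ka n / 100) ^ 2 / 32 := by
  have := ka_pos hn
  exact div_le_self (by positivity) (one_le_pow₀ (by linarith))

theorem sg_le_one {n : ℕ} (hn : 1 ≤ n) (i : ℕ) : sg n i ≤ 1 := by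
  have := ka_pos hn
  have := ka_le hn
  have := sg_le hn i
  nlinarith

theorem sg_add {n : ℕ} (hn : 1 ≤ n) (i j : ℕ) : sg n (i + j) * (1 + ka n) ^ j = sg n i := by
  have := ka_pos hn
  unfold sg; rw [pow_add]; field_simp

theorem sinh_le_small {b : ℝ} (h0 : 0 ≤ b) (h1 : b ≤ 1) : sinh b ≤ b * (1 + b / 2) := by
  have h2 := Real.exp_bound (x := b) (by rwa [abs_of_nonneg h0]) (n := 3) (by norm_num)
  have h3 := Real.exp_bound (x := -b) (by rwa [abs_neg, abs_of_nonneg h0]) (n := 3) (by norm_num)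
  rw [abs_neg] at h3
  rw [abs_of_nonneg h0] at h2 h3
  simp only [sum_range_succ, sum_range_zero, Nat.factorial] at h2 h3
  norm_num at h2 h3
  have h4 := (abs_le.1 h2).2
  have h5 := (abs_le.1 h3).1
  rw [sinh_eq]
  have : b ^ 3 ≤ b ^ 2 := pow_le_pow_of_le_one h0 h1 (by norm_num)
  nlinarith

theorem sinh_le_w {κ b : ℝ} (hκ : κ ≤ 1 / 100) (h0 : 0 ≤ b) (h1 : b ≤ 2 * κ) :
    sinh b ≤ (1 + κ) * b := by
  have := sinh_le_small h0 (by linarith)
  nlinarith

theorem pp_spec {n : ℕ} (hn : 1 ≤ n) (hP : PackB X n) (i : ℕ) (x : X) {S : ℝ} (hS : 0 < S) :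
    ∃ P : Finset X, P.card = pp n i x S ∧ (∀ a ∈ P, dist x a ≤ S) ∧ Sep (sg n i * S) P :=
  pk_spec hP x (mul_pos (sg_pos hn i) hS) (mul_le_of_le_one_left hS.le (sg_le_one hn i))

theorem le_pp {n : ℕ} (hn : 1 ≤ n) (hP : PackB X n) (i : ℕ) (x : X) {S : ℝ} (hS : 0 < S)
    {P : Finset X} (h2 : ∀ a ∈ P, dist x a ≤ S) (h3 : Sep (sg n i * S) P) :
    P.card ≤ pp n i x S :=
  le_pk hP x (mul_pos (sg_pos hn i) hS) (mul_le_of_le_one_left hS.le (sg_le_one hn i)) h2 h3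

theorem one_le_pp {n : ℕ} (hn : 1 ≤ n) (hP : PackB X n) (i : ℕ) (x : X) {S : ℝ} (hS : 0 < S) :
    1 ≤ pp n i x S := by
  have := le_pp hn hP i x hS (P := {x}) (by simpa using hS.le) (by simp [Sep])
  simpa using this

theorem w_pow_le {n g i : ℕ} (hn : 1 ≤ n) (hi : i ≤ 2000 * n * g + 3) :
    (1 + ka n) ^ i ≤ 2 ^ (40 * g + 1) := by
  have hn' : (1 : ℝ) ≤ n := by exact_mod_cast hn
  have h0 := ka_pos hn
  have h1 := ka_le hn
  have h2 : (1 + ka n) ^ (50 * n) ≤ 2 := by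
    have h3 : (1 + ka n) ^ (50 * n) ≤ exp (ka n) ^ (50 * n) := by
      gcongr; linarith [add_one_le_exp (ka n)]
    rw [← exp_nat_mul] at h3
    have h4 : ((50 * n : ℕ) : ℝ) * ka n = 1 / 2 := by
      unfold ka; push_cast; field_simp; norm_num
    rw [h4] at h3
    have h5 : exp (1 / 2) ^ 2 = exp 1 := by rw [← exp_nat_mul]; norm_num
    have h6 := exp_one_lt_d9
    have h7 := exp_pos (1 / 2)
    nlinarith
  have h8 : (1 + ka n) ^ 3 ≤ 2 := by
    calc (1 + ka n) ^ 3 ≤ (1 + 1 / 100) ^ 3 := by gcongr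
      _ ≤ 2 := by norm_num
  calc (1 + ka n) ^ i ≤ (1 + ka n) ^ (2000 * n * g + 3) :=
        pow_le_pow_right₀ (by linarith) hi
    _ = ((1 + ka n) ^ (50 * n)) ^ (40 * g) * (1 + ka n) ^ 3 := by
        rw [← pow_mul, ← pow_add]; congr 1; ring
    _ ≤ 2 ^ (40 * g) * 2 := by gcongr
    _ = 2 ^ (40 * g + 1) := by rw [pow_succ]

theorem pp_le {n g i : ℕ} (hn : 1 ≤ n) (hg : 1 ≤ g) (hng : n ≤ 2 ^ g) (hP : PackB X n)
    (hi : i ≤ 2000 * n * g + 3) (x : X) {S : ℝ} (hS : 0 < S) (hS1 : S ≤ ka n) :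
    pp n i x S ≤ 2 ^ (82 * n * g) := by
  have hn' : (1 : ℝ) ≤ n := by exact_mod_cast hn
  have hng' : (n : ℝ) ≤ 2 ^ g := by exact_mod_cast hng
  obtain ⟨P, h1, h2, h3⟩ := pp_spec hn hP i x hS
  have hs := sg_pos hn i
  have h4 := hP x S _ (mul_pos hs hS) (mul_le_of_le_one_left hS.le (sg_le_one hn i)) P h2 h3
  have hk := ka_le hn
  have hk0 := ka_pos hn
  have h5 : sinh (3 * S) ≤ 4 * S := by
    have := sinh_le_small (b := 3 * S) (by linarith) (by linarith)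
    nlinarith
  have h0 : 0 ≤ sinh (3 * S) := sinh_nonneg_iff.2 (by positivity)
  have h6 : 128 ≤ 2 ^ (82 * g) * sg n i := by
    have e1 : sg n i = 1 / (3200000000 * (n : ℝ) ^ 2 * (1 + ka n) ^ i) := by
      unfold sg; rw [show ka n / 100 = 1 / (10000 * n) by unfold ka; field_simp; norm_num]
      field_simp; norm_num
    rw [e1, mul_one_div, le_div_iff₀ (by positivity)]
    have h7 := w_pow_le (g := g) hn hi
    have h8 : (2 : ℝ) ^ 40 ≤ 2 ^ (40 * g) := pow_le_pow_right₀ (by norm_num) (by omega)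
    calc 128 * (3200000000 * (n : ℝ) ^ 2 * (1 + ka n) ^ i)
        ≤ 128 * (3200000000 * (2 ^ g) ^ 2 * 2 ^ (40 * g + 1)) := by gcongr
      _ = (128 * 3200000000 * 2) * ((2 ^ g) ^ 2 * 2 ^ (40 * g)) := by rw [pow_succ]; ring
      _ ≤ 2 ^ (40 * g) * ((2 ^ g) ^ 2 * 2 ^ (40 * g)) := by
          gcongr; exact le_trans (by norm_num) h8
      _ = 2 ^ (82 * g) := by rw [← pow_mul, ← pow_add, ← pow_add]; congr 1; ring
  have h9 : 32 * sinh (3 * S) / (sg n i * S) ≤ 2 ^ (82 * g) := by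
    rw [div_le_iff₀ (by positivity)]; nlinarith
  have h10 : (P.card : ℝ) ≤ ((2 ^ (82 * n * g) : ℕ) : ℝ) := by
    refine h4.trans ?_
    push_cast
    rw [show 82 * n * g = 82 * g * n by ring, pow_mul]
    gcongr
  rw [← h1]
  exact_mod_cast h10

theorem cmp_pp {n : ℕ} (hn : 1 ≤ n) (hP : PackB X n) (hc : CMP X) (i j : ℕ) (hj : 2 ≤ j)
    {x u : X} {S S' : ℝ} (hS : 0 < S) (h1 : S ≤ S') (h2 : S' ≤ ka n)
    (h3 : dist x u ≤ ka n * S') : pp n i x S' ≤ pp n (i + j) u S := by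
  have hk := ka_le hn
  have hk0 := ka_pos hn
  have hS' : 0 < S' := by linarith
  obtain ⟨P, p1, p2, p3⟩ := pp_spec hn hP i x hS'
  have hs := sg_pos hn (i + j)
  have hsh := sinh_le_w (b := (1 + ka n) * S') hk (by positivity) (by nlinarith)
  obtain ⟨P', q1, q2, q3⟩ := hc u ((1 + ka n) * S') (S / ((1 + ka n) * S')) (sg n i * S')
    (sg n (i + j) * S) P (by positivity) (by positivity)
    (by rw [div_le_one (by positivity)]; nlinarith) (by positivity)
    (by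
      have e : S / ((1 + ka n) * S') * (sg n i * S') * ((1 + ka n) * S') =
          sg n (i + j) * S * ((1 + ka n) ^ j * S') := by
        rw [← sg_add hn i j]; field_simp
      rw [e]
      have : (1 + ka n) ^ 2 ≤ (1 + ka n) ^ j := pow_le_pow_right₀ (by linarith) hj
      gcongr
      nlinarith)
    (fun a ha => by
      have := dist_triangle_left u a x
      linarith [p2 a ha]) p3
  rw [← p1, ← q1]
  refine le_pp hn hP _ u hS (fun q hq => ?_) q3
  have := q2 q hq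
  rwa [div_mul_cancel₀ _ (by positivity)] at this

theorem gain_pp {n : ℕ} (hn : 1 ≤ n) (hP : PackB X n) (hG : GAIN X) (i : ℕ)
    {x y u : X} {s R : ℝ} (hs : 0 < s) (h1 : s ≤ R / 2) (h2 : R ≤ ka n)
    (hd : dist x y = ka n / 100 * s) (h3 : dist x u ≤ ka n * R) (h4 : dist y u ≤ ka n * R)
    {A : Finset X} (a1 : ∀ a ∈ A, dist u a ≤ R) (a2 : Sep (sg n i * R) A)
    (a3 : ∀ a ∈ A, |dist x a - dist y a| ≤ ka n / 1600 * dist x y) :
    2 * A.card ≤ pp n (i + 3) x s := by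
  have hk := ka_le hn
  have hk0 := ka_pos hn
  have hR : 0 < R := by linarith
  have hsg := sg_pos hn (i + 3)
  have hsh := sinh_le_w (b := (1 + ka n) * R) hk (by positivity) (by nlinarith)
  have e0 : s / ((1 + ka n) ^ 2 * R) * ((1 + ka n) * R) = s / (1 + ka n) := by field_simp
  have e1 : s / (1 + ka n) * (1 + ka n) = s := by field_simp
  have e2 : 0 < s / (1 + ka n) := by positivity
  obtain ⟨P', q1, q2, q3⟩ := hG x y ((1 + ka n) * R) (s / ((1 + ka n) ^ 2 * R)) (sg n i * R)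
    (sg n (i + 3) * s) s (ka n / 1600) A (by positivity) (by nlinarith) (by positivity)
    (by rw [div_le_iff₀ (by positivity)]; nlinarith [mul_pos hk0 hR, mul_pos (mul_pos hk0 hk0) hR])
    (by positivity)
    (by
      have e : s / ((1 + ka n) ^ 2 * R) * (sg n i * R) * ((1 + ka n) * R) =
          sg n (i + 3) * s * ((1 + ka n) * ((1 + ka n) * R)) := by
        rw [← sg_add hn i 3]; field_simp
      rw [e]
      gcongr)
    (by linarith)
    (by
      rw [e0, hd]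
      have : ka n / 100 * s ≤ ka n * (s / (1 + ka n)) := by
        rw [← mul_div_assoc, le_div_iff₀ (by positivity)]
        nlinarith [mul_pos hk0 hs]
      nlinarith)
    (by positivity)
    (by
      rw [e0, hd]
      have h5 := sinh_le_w (b := s / (1 + ka n)) hk e2.le (by nlinarith)
      have h6 : sinh (s / (1 + ka n)) ≤ s := by linarith
      nlinarith)
    (by
      rw [hd]
      have := sg_le hn (i + 3)
      nlinarith [mul_pos hs hs])
    (fun a ha => by linarith [dist_triangle x u a, a1 a ha])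
    (fun a ha => by linarith [dist_triangle y u a, a1 a ha]) a3 a2
  rw [← q1]
  exact le_pp hn hP _ x hs q2 q3

end T79
end Pool.Agent.Lib.AB79
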